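import Pool.Agent.H974Z.SOA.Main

/-! Arithmetic in models of ACA0. -/

set_option autoImplicit false

namespace Pool.Agent.H974Z.SOA

/-- models of ACA0 with at least one set -/
structure IsACA' (M : Model) : Prop extends IsACA M where
  ne : ∃ A, A ∈ M.sets

variable {M : Model}

namespace IsACA'

theorem ind0 (h : IsACA' M) (φ : Fm) (hφ : φ.Arith) (v : ℕ → M.Num) (P : M.Num → Prop)
    (hP : ∀ V a, Sat M (cons a v) V φ ↔ P a) (h0 : P M.zero)
    (hs : ∀ a, P a → P (M.add a M.one)) : ∀ a, P a := by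
  obtain ⟨A, hA⟩ := h.ne
  have h1 := h.compr φ hφ v (fun _ => A) (fun _ => hA)
  have e : {a | Sat M (cons a v) (fun _ => A) φ} = {a | P a} := by
    ext a
    exact hP _ a
  rw [e] at h1
  exact h.ind _ h1 h0 hs

theorem zero_add (h : IsACA' M) : ∀ a, M.add M.zero a = a :=
  h.ind0 (.eq (.add .zero (.var 0)) (.var 0)) trivial (fun _ => M.zero) _ (fun _ _ => Iff.rfl)
    (h.add_zero _) (fun a ih => by rw [h.add_succ, ih])

theorem add_assoc (h : IsACA' M) (a b : M.Num) : ∀ c, M.add (M.add a b) c = M.add a (M.add b c) :=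
  h.ind0 (.eq (.add (.add (.var 1) (.var 2)) (.var 0)) (.add (.var 1) (.add (.var 2) (.var 0))))
    trivial (cons a fun _ => b) _ (fun _ _ => Iff.rfl)
    (by rw [h.add_zero, h.add_zero]) (fun c ih => by rw [h.add_succ, ih, h.add_succ, h.add_succ])

theorem one_add (h : IsACA' M) : ∀ a, M.add M.one a = M.add a M.one :=
  h.ind0 (.eq (.add .one (.var 0)) (.add (.var 0) .one)) trivial (fun _ => M.zero) _
    (fun _ _ => Iff.rfl) (by rw [h.add_zero, h.zero_add]) (fun a ih => by rw [h.add_succ, ih])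

theorem add_comm (h : IsACA' M) (a : M.Num) : ∀ b, M.add a b = M.add b a :=
  h.ind0 (.eq (.add (.var 1) (.var 0)) (.add (.var 0) (.var 1))) trivial (fun _ => a) _
    (fun _ _ => Iff.rfl) (by rw [h.add_zero, h.zero_add])
    (fun b ih => by rw [h.add_succ, ih, h.add_assoc, h.add_assoc, h.one_add])

theorem add_cancel (h : IsACA' M) (a b : M.Num) : ∀ c, M.add a c = M.add b c → a = b :=
  h.ind0 (.imp (.eq (.add (.var 1) (.var 0)) (.add (.var 2) (.var 0))) (.eq (.var 1) (.var 2)))
    ⟨trivial, trivial⟩ (cons a fun _ => b) _ (fun _ _ => Iff.rfl)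
    (by rw [h.add_zero, h.add_zero]; exact id)
    (fun c ih h1 => by
      rw [h.add_succ, h.add_succ] at h1
      exact ih (h.succ_inj _ _ h1))

theorem zero_mul (h : IsACA' M) : ∀ a, M.mul M.zero a = M.zero :=
  h.ind0 (.eq (.mul .zero (.var 0)) .zero) trivial (fun _ => M.zero) _ (fun _ _ => Iff.rfl)
    (h.mul_zero _) (fun a ih => by rw [h.mul_succ, ih, h.add_zero])

theorem mul_one (h : IsACA' M) (a : M.Num) : M.mul a M.one = a := by
  have := h.mul_succ a M.zero
  rwa [h.zero_add, h.mul_zero, h.zero_add] at this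

theorem mul_add (h : IsACA' M) (a b : M.Num) :
    ∀ c, M.mul a (M.add b c) = M.add (M.mul a b) (M.mul a c) :=
  h.ind0 (.eq (.mul (.var 1) (.add (.var 2) (.var 0)))
      (.add (.mul (.var 1) (.var 2)) (.mul (.var 1) (.var 0))))
    trivial (cons a fun _ => b) _ (fun _ _ => Iff.rfl)
    (by rw [h.add_zero, h.mul_zero, h.add_zero])
    (fun c ih => by rw [h.add_succ, h.mul_succ, ih, h.mul_succ, h.add_assoc])

theorem succ_mul (h : IsACA' M) (a : M.Num) :
    ∀ b, M.mul (M.add a M.one) b = M.add (M.mul a b) b :=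
  h.ind0 (.eq (.mul (.add (.var 1) .one) (.var 0)) (.add (.mul (.var 1) (.var 0)) (.var 0)))
    trivial (fun _ => a) _ (fun _ _ => Iff.rfl)
    (by rw [h.mul_zero, h.mul_zero, h.add_zero])
    (fun b ih => by
      rw [h.mul_succ, ih, h.mul_succ]
      have : Std.Associative M.add := ⟨h.add_assoc⟩
      have : Std.Commutative M.add := ⟨h.add_comm⟩
      ac_rfl)

theorem mul_comm (h : IsACA' M) (a : M.Num) : ∀ b, M.mul a b = M.mul b a :=
  h.ind0 (.eq (.mul (.var 1) (.var 0)) (.mul (.var 0) (.var 1))) trivial (fun _ => a) _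
    (fun _ _ => Iff.rfl) (by rw [h.mul_zero, h.zero_mul])
    (fun b ih => by rw [h.mul_succ, ih, h.succ_mul])

theorem cases (h : IsACA' M) : ∀ a, a = M.zero ∨ ∃ b, a = M.add b M.one :=
  h.ind0 ((Fm.eq (.var 0) .zero).or (Fm.eq (.var 1) (.add (.var 0) .one)).ex)
    ⟨trivial, trivial⟩ (fun _ => M.zero) _
    (fun _ _ => by simp only [sat_or, sat_ex, Sat, Tm.val, cons_zero, cons_one])
    (Or.inl rfl) (fun a _ => Or.inr ⟨a, rfl⟩)

theorem total (h : IsACA' M) (s : M.Num) : ∀ t, ∃ e, t = M.add s e ∨ s = M.add t e :=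
  h.ind0 ((Fm.eq (.var 1) (.add (.var 2) (.var 0))).or
      (Fm.eq (.var 2) (.add (.var 1) (.var 0)))).ex
    ⟨trivial, trivial⟩ (fun _ => s) _
    (fun _ _ => by simp only [sat_or, sat_ex, Sat, Tm.val, cons_zero, cons_one, cons_two])
    ⟨s, Or.inr (h.zero_add s).symm⟩
    (fun t ih => by
      obtain ⟨e, h1 | h1⟩ := ih
      · exact ⟨M.add e M.one, Or.inl (by rw [h.add_succ, ← h1])⟩
      · rcases h.cases e with rfl | ⟨e', rfl⟩
        · rw [h.add_zero] at h1
          exact ⟨M.one, Or.inl (by rw [h1])⟩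
        · refine ⟨e', Or.inr ?_⟩
          rw [h1, h.add_assoc, h.one_add])

theorem pr_aux (h : IsACA' M) {a b c d e : M.Num} (h1 : M.pr a b = M.pr c d)
    (h2 : M.add c d = M.add (M.add a b) (M.add e M.one)) : False := by
  unfold Model.pr at h1
  have : Std.Associative M.add := ⟨h.add_assoc⟩
  have : Std.Commutative M.add := ⟨h.add_comm⟩
  have e1 : ∀ s t : M.Num, t = M.add s (M.add e M.one) → M.mul t t =
      M.add (M.add (M.mul s s) (M.add (M.mul s e) s)) (M.add (M.mul t e) t) := by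
    intro s t ht
    have e2 : M.mul t t = M.add (M.mul t s) (M.mul t (M.add e M.one)) := by
      rw [← h.mul_add, ← ht]
    have e3 : M.mul s t = M.add (M.mul s s) (M.mul s (M.add e M.one)) := by
      rw [← h.mul_add, ← ht]
    rw [e2, h.mul_comm t s, e3, h.mul_succ, h.mul_succ]
  rw [e1 _ _ h2] at h1
  generalize M.mul (M.add a b) (M.add a b) = q at h1
  generalize M.mul (M.add a b) e = x at h1
  generalize M.mul (M.add c d) e = y at h1
  rw [h2] at h1
  have h4 : M.add M.zero (M.add q a) = M.add (M.add (M.add (M.add x b)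
      (M.add (M.add y (M.add (M.add a b) e)) c)) M.one) (M.add q a) := by
    rw [h.zero_add]
    conv_lhs => rw [h1]
    ac_rfl
  exact h.succ_ne _ (h.add_cancel _ _ _ h4).symm

theorem pr_inj (h : IsACA' M) {a b c d : M.Num} (h1 : M.pr a b = M.pr c d) : a = c ∧ b = d := by
  have h2 : M.add a b = M.add c d := by
    obtain ⟨e, h2 | h2⟩ := h.total (M.add a b) (M.add c d)
    · rcases h.cases e with rfl | ⟨e', rfl⟩
      · rw [h2, h.add_zero]
      · exact (h.pr_aux h1 h2).elim
    · rcases h.cases e with rfl | ⟨e', rfl⟩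
      · rw [h2, h.add_zero]
      · exact (h.pr_aux h1.symm h2).elim
  unfold Model.pr at h1
  rw [h2, h.add_comm _ a, h.add_comm _ c] at h1
  have h3 := h.add_cancel _ _ _ h1
  subst h3
  rw [h.add_comm a, h.add_comm a] at h2
  exact ⟨rfl, h.add_cancel _ _ _ h2⟩

theorem pr_eq (h : IsACA' M) {a b c d : M.Num} : M.pr a b = M.pr c d ↔ a = c ∧ b = d :=
  ⟨h.pr_inj, fun h => by rw [h.1, h.2]⟩

theorem nat_one (h : IsACA' M) : M.nat 1 = M.one := h.zero_add _

theorem val_nat (h : IsACA' M) (v : ℕ → ℕ) (t : Tm) :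
    t.val M (fun i => M.nat (v i)) = M.nat (t.val std v) := by
  induction t with
  | var i => rfl
  | zero => rfl
  | one => exact h.nat_one.symm
  | add s t ihs iht => simp only [Tm.val, ihs, iht, h.nat_add]
  | mul s t ihs iht => simp only [Tm.val, ihs, iht, h.nat_mul]

theorem nat_lt (h : IsACA' M) {a b : ℕ} (hab : a < b) : M.lt (M.nat a) (M.nat b) := by
  induction b with
  | zero => omega
  | succ b ih =>
    refine (h.lt_succ _ _).2 ?_
    rcases Nat.lt_succ_iff_lt_or_eq.1 hab with h1 | h1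
    · exact Or.inl (ih h1)
    · exact Or.inr (by rw [h1])

theorem lt_nat (h : IsACA' M) {x : M.Num} {b : ℕ} (hx : M.lt x (M.nat b)) :
    ∃ a < b, x = M.nat a := by
  induction b with
  | zero => exact absurd hx (h.not_lt_zero x)
  | succ b ih =>
    rcases (h.lt_succ _ _).1 hx with h1 | h1
    · obtain ⟨a, ha, rfl⟩ := ih h1
      exact ⟨a, by omega, rfl⟩
    · exact ⟨b, by omega, h1⟩

theorem nat_inj (h : IsACA' M) : ∀ {a b : ℕ}, M.nat a = M.nat b → a = b := by
  intro a
  induction a with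
  | zero =>
    intro b hb
    cases b with
    | zero => rfl
    | succ b => exact absurd hb.symm (h.succ_ne _)
  | succ a ih =>
    intro b hb
    cases b with
    | zero => exact absurd hb (h.succ_ne _)
    | succ b => rw [ih (h.succ_inj _ _ hb)]

theorem nat_eq (h : IsACA' M) {a b : ℕ} : M.nat a = M.nat b ↔ a = b :=
  ⟨h.nat_inj, fun h => by rw [h]⟩

end IsACA'

end Pool.Agent.H974Z.SOA
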