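import Pool.Agent.H974Z.SOA.Sub

/-! The completeness theorem for the calculus. -/

set_option autoImplicit false

namespace Pool.Agent.H974Z.SOA

theorem Prov.mono {T T' : Set Fm} (h : T ⊆ T') {φ : Fm} (hp : Prov T φ) : Prov T' φ := by
  induction hp with
  | hyp h1 => exact .hyp (h h1)
  | ax h1 => exact .ax h1
  | mp _ _ ih1 ih2 => exact .mp ih1 ih2

theorem Prov.imp_self (T : Set Fm) (φ : Fm) : Prov T (φ.imp φ) :=
  .mp (.mp (.ax (.s φ (φ.imp φ) φ)) (.ax (.k φ (φ.imp φ)))) (.ax (.k φ φ))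

theorem Prov.deduction {T : Set Fm} {φ ψ : Fm} (h : Prov (insert φ T) ψ) : Prov T (φ.imp ψ) := by
  induction h with
  | hyp h1 =>
    rcases h1 with rfl | h1
    · exact Prov.imp_self T _
    · exact .mp (.ax (.k _ _)) (.hyp h1)
  | ax h1 => exact .mp (.ax (.k _ _)) (.ax h1)
  | mp _ _ ih1 ih2 => exact .mp (.mp (.ax (.s _ _ _)) ih1) ih2

theorem Prov.explode {T : Set Fm} {φ : Fm} (h1 : Prov T φ) (h2 : Prov T φ.neg) (ψ : Fm) :
    Prov T ψ :=
  .mp (.mp (.ax (.contra ψ φ)) (.mp (.ax (.k _ _)) h2)) h1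

/-- inconsistency -/
def Incons (T : Set Fm) : Prop := ∃ φ, Prov T φ ∧ Prov T φ.neg

theorem Incons.prov {T : Set Fm} (h : Incons T) (ψ : Fm) : Prov T ψ := by
  obtain ⟨φ, h1, h2⟩ := h
  exact h1.explode h2 ψ

theorem Incons.mono {T T' : Set Fm} (h : T ⊆ T') (hi : Incons T) : Incons T' := by
  obtain ⟨φ, h1, h2⟩ := hi
  exact ⟨φ, h1.mono h, h2.mono h⟩

theorem Prov.of_incons_neg {T : Set Fm} {φ : Fm} (h : Incons (insert φ.neg T)) : Prov T φ :=
  .mp (.mp (.ax (.contra φ (φ.imp φ))) (h.prov _).deduction) (Prov.imp_self T φ)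

theorem Prov.dne {T : Set Fm} {φ : Fm} (h : Prov T φ.neg.neg) : Prov T φ :=
  Prov.of_incons_neg ⟨φ.neg, .hyp (Set.mem_insert _ _), h.mono (Set.subset_insert _ _)⟩

theorem Prov.neg_of_incons {T : Set Fm} {φ : Fm} (h : Incons (insert φ T)) : Prov T φ.neg := by
  apply Prov.of_incons_neg
  have h1 : Prov (insert φ.neg.neg T) φ := Prov.dne (.hyp (Set.mem_insert _ _))
  have h2 : Prov (insert φ.neg.neg T) φ.neg :=
    .mp ((h.prov φ.neg).deduction.mono (Set.subset_insert _ _)) h1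
  exact ⟨φ, h1, h2⟩

theorem inst_subst (φ : Fm) (t : Tm) (σ : ℕ → Tm) (ρ : ℕ → ℕ) :
    (φ.inst t).subst σ ρ = (φ.subst (up σ) ρ).inst (t.subst σ) := by
  unfold Fm.inst
  rw [Fm.subst_subst, Fm.subst_subst]
  congr 1
  funext i
  cases i with
  | zero => rfl
  | succ i =>
    show σ i = (σ i).shift.subst (cons _ _)
    rw [Tm.shift_subst_cons, Tm.subst_var]

theorem instS_subst (φ : Fm) (j : ℕ) (σ : ℕ → Tm) (ρ : ℕ → ℕ) :
    (φ.instS j).subst σ ρ = (φ.subst σ (upS ρ)).instS (ρ j) := by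
  unfold Fm.instS
  rw [Fm.subst_subst, Fm.subst_subst]
  congr 1
  · funext i
    simp only [Tm.subst, Tm.subst_var]
  · funext i
    cases i <;> rfl

theorem lift_subst (φ : Fm) (σ : ℕ → Tm) (ρ : ℕ → ℕ) :
    φ.lift.subst (up σ) ρ = (φ.subst σ ρ).lift := by
  unfold Fm.lift
  rw [Fm.subst_subst, Fm.subst_subst]
  rfl

theorem liftS_subst (φ : Fm) (σ : ℕ → Tm) (ρ : ℕ → ℕ) :
    φ.liftS.subst σ (upS ρ) = (φ.subst σ ρ).liftS := by
  unfold Fm.liftS
  rw [Fm.subst_subst, Fm.subst_subst]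
  congr 1
  funext i
  simp only [Tm.subst, Tm.subst_var]

theorem Ax.subst {φ : Fm} (h : Ax φ) : ∀ (σ : ℕ → Tm) (ρ : ℕ → ℕ), Ax (φ.subst σ ρ) := by
  induction h with
  | k φ ψ => intro σ ρ; exact .k _ _
  | s φ ψ χ => intro σ ρ; exact .s _ _ _
  | contra φ ψ => intro σ ρ; exact .contra _ _
  | allE φ t =>
    intro σ ρ
    show Ax (Fm.imp (φ.subst (up σ) ρ).all ((φ.inst t).subst σ ρ))
    rw [inst_subst]
    exact .allE _ _
  | allK φ ψ => intro σ ρ; exact .allK _ _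
  | allV φ =>
    intro σ ρ
    show Ax (Fm.imp (φ.subst σ ρ) (φ.lift.subst (up σ) ρ).all)
    rw [lift_subst]
    exact .allV _
  | allSE φ j =>
    intro σ ρ
    show Ax (Fm.imp (φ.subst σ (upS ρ)).allS ((φ.instS j).subst σ ρ))
    rw [instS_subst]
    exact .allSE _ _
  | allSK φ ψ => intro σ ρ; exact .allSK _ _
  | allSV φ =>
    intro σ ρ
    show Ax (Fm.imp (φ.subst σ ρ) (φ.liftS.subst σ (upS ρ)).allS)
    rw [liftS_subst]
    exact .allSV _
  | refl t => intro σ ρ; exact .refl _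
  | eqE s t φ =>
    intro σ ρ
    show Ax (Fm.imp (.eq (s.subst σ) (t.subst σ))
      (Fm.imp ((φ.inst s).subst σ ρ) ((φ.inst t).subst σ ρ)))
    rw [inst_subst, inst_subst]
    exact .eqE _ _ _
  | gen _ ih => intro σ ρ; exact .gen (ih _ _)
  | genS _ ih => intro σ ρ; exact .genS (ih _ _)

theorem Prov.subst {T : Set Fm} {φ : Fm} (h : Prov T φ) (σ : ℕ → Tm) (ρ : ℕ → ℕ) :
    Prov ((fun ψ => ψ.subst σ ρ) '' T) (φ.subst σ ρ) := by
  induction h with
  | hyp h1 => exact .hyp ⟨_, h1, rfl⟩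
  | ax h1 => exact .ax (h1.subst σ ρ)
  | mp _ _ ih1 ih2 => exact .mp ih1 ih2

theorem Prov.gen {T : Set Fm} {φ : Fm} (h : Prov (Fm.lift '' T) φ) : Prov T φ.all := by
  induction h with
  | hyp h1 =>
    obtain ⟨ψ, h2, rfl⟩ := h1
    exact .mp (.ax (.allV ψ)) (.hyp h2)
  | ax h1 => exact .ax (.gen h1)
  | mp _ _ ih1 ih2 => exact .mp (.mp (.ax (.allK _ _)) ih1) ih2

theorem Prov.genS {T : Set Fm} {φ : Fm} (h : Prov (Fm.liftS '' T) φ) : Prov T φ.allS := by
  induction h with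
  | hyp h1 =>
    obtain ⟨ψ, h2, rfl⟩ := h1
    exact .mp (.ax (.allSV ψ)) (.hyp h2)
  | ax h1 => exact .ax (.genS h1)
  | mp _ _ ih1 ih2 => exact .mp (.mp (.ax (.allSK _ _)) ih1) ih2

theorem Prov.gen_fresh {T : Set Fm} {φ : Fm} {N : ℕ} (hT : ∀ ψ ∈ T, ψ.Bd N N)
    (hφ : φ.all.Bd N N) (h : Prov T (φ.inst (.var N))) : Prov T φ.all := by
  apply Prov.gen
  have h1 := h.subst (fun i => if i = N then .var 0 else .var (i + 1)) id
  have e1 : (φ.inst (.var N)).subst (fun i => if i = N then .var 0 else .var (i + 1)) id = φ := by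
    unfold Fm.inst
    rw [Fm.subst_subst]
    conv_rhs => rw [← Fm.subst_id φ]
    refine Fm.subst_congr φ (n := N + 1) (m := N) ?_ (fun _ _ => rfl) hφ
    intro i hi
    cases i with
    | zero => simp [Tm.subst]
    | succ i =>
      have : i ≠ N := by omega
      simp [Tm.subst, this]
  rw [e1] at h1
  refine h1.mono ?_
  rintro _ ⟨ψ, hψ, rfl⟩
  refine ⟨ψ, hψ, ?_⟩
  unfold Fm.lift
  refine Fm.subst_congr ψ (n := N) (m := N) ?_ (fun _ _ => rfl) (hT ψ hψ)
  intro i hi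
  have : i ≠ N := by omega
  simp [this]

theorem Prov.genS_fresh {T : Set Fm} {φ : Fm} {N : ℕ} (hT : ∀ ψ ∈ T, ψ.Bd N N)
    (hφ : φ.allS.Bd N N) (h : Prov T (φ.instS N)) : Prov T φ.allS := by
  apply Prov.genS
  have h1 := h.subst .var (fun i => if i = N then 0 else i + 1)
  have e1 : (φ.instS N).subst .var (fun i => if i = N then 0 else i + 1) = φ := by
    unfold Fm.instS
    rw [Fm.subst_subst]
    conv_rhs => rw [← Fm.subst_id φ]
    refine Fm.subst_congr φ (n := N) (m := N + 1) (fun _ _ => rfl) ?_ hφ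
    intro i hi
    cases i with
    | zero => simp
    | succ i =>
      have : i ≠ N := by omega
      simp [this]
  rw [e1] at h1
  refine h1.mono ?_
  rintro _ ⟨ψ, hψ, rfl⟩
  refine ⟨ψ, hψ, ?_⟩
  unfold Fm.liftS
  refine Fm.subst_congr ψ (n := N) (m := N) (fun _ _ => rfl) ?_ (hT ψ hψ)
  intro i hi
  have : i ≠ N := by omega
  simp [this]

theorem incons_of_witness {T : Set Fm} {a b : Fm} (h : Incons (insert (a.neg.imp b.neg) T)) :
    Prov T a.neg ∧ Prov T b := by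
  have h1 := Prov.neg_of_incons h
  constructor
  · apply Prov.neg_of_incons
    refine ⟨a.neg.imp b.neg, ?_, h1.mono (Set.subset_insert _ _)⟩
    apply Prov.deduction
    exact Prov.explode (φ := a) (.hyp (Set.mem_insert_of_mem _ (Set.mem_insert _ _)))
      (.hyp (Set.mem_insert _ _)) _
  · apply Prov.of_incons_neg
    refine ⟨a.neg.imp b.neg, ?_, h1.mono (Set.subset_insert _ _)⟩
    exact .mp (.ax (.k _ _)) (.hyp (Set.mem_insert _ _))

/-- consistent sets with boundedly many free variables -/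
def Nice (T : Set Fm) : Prop := ¬ Incons T ∧ ∃ N, ∀ ψ ∈ T, ψ.Bd N N

theorem Nice.insert {T : Set Fm} (h : Nice T) {φ : Fm} (hc : ¬ Incons (insert φ T)) :
    Nice (insert φ T) := by
  refine ⟨hc, ?_⟩
  obtain ⟨N, hN⟩ := h.2
  obtain ⟨K, hK⟩ := φ.exists_bd
  refine ⟨max N K, ?_⟩
  rintro ψ (rfl | hψ)
  · exact hK.mono (le_max_right _ _) (le_max_right _ _)
  · exact (hN ψ hψ).mono (le_max_left _ _) (le_max_left _ _)

theorem Nice.step {T : Set Fm} (h : Nice T) (φ : Fm) : ∃ T', T ⊆ T' ∧ Nice T' ∧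
    (∃ t, φ.all.neg.imp (φ.inst t).neg ∈ T') ∧ ∃ j, φ.allS.neg.imp (φ.instS j).neg ∈ T' := by
  have h1 : ∀ {U : Set Fm}, Nice U → ∀ χ : Fm, ∃ N, (∀ ψ ∈ U, ψ.Bd N N) ∧ χ.Bd N N := by
    intro U hU χ
    obtain ⟨N, hN⟩ := hU.2
    obtain ⟨K, hK⟩ := χ.exists_bd
    exact ⟨max N K, fun ψ hψ => (hN ψ hψ).mono (le_max_left _ _) (le_max_left _ _),
      hK.mono (le_max_right _ _) (le_max_right _ _)⟩
  obtain ⟨N, hN, hN'⟩ := h1 h φ.all
  have h2 : Nice (Insert.insert (φ.all.neg.imp (φ.inst (.var N)).neg) T) := by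
    refine h.insert fun hi => h.1 ?_
    obtain ⟨a, b⟩ := incons_of_witness hi
    exact ⟨_, Prov.gen_fresh hN hN' b, a⟩
  obtain ⟨K, hK, hK'⟩ := h1 h2 φ.allS
  have h3 : Nice (Insert.insert (φ.allS.neg.imp (φ.instS K).neg)
      (Insert.insert (φ.all.neg.imp (φ.inst (.var N)).neg) T)) := by
    refine h2.insert fun hi => h2.1 ?_
    obtain ⟨a, b⟩ := incons_of_witness hi
    exact ⟨_, Prov.genS_fresh hK hK' b, a⟩
  exact ⟨_, (Set.subset_insert _ _).trans (Set.subset_insert _ _), h3,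
    ⟨_, Set.mem_insert_of_mem _ (Set.mem_insert _ _)⟩, ⟨_, Set.mem_insert _ _⟩⟩

theorem prov_sUnion {c : Set (Set Fm)} (hc : IsChain (· ⊆ ·) c) (hne : c.Nonempty) {φ : Fm}
    (h : Prov (⋃₀ c) φ) : ∃ T ∈ c, Prov T φ := by
  induction h with
  | hyp h1 =>
    obtain ⟨T, hT, h2⟩ := h1
    exact ⟨T, hT, .hyp h2⟩
  | ax h1 =>
    obtain ⟨T, hT⟩ := hne
    exact ⟨T, hT, .ax h1⟩
  | mp _ _ ih1 ih2 =>
    obtain ⟨T1, h1, p1⟩ := ih1
    obtain ⟨T2, h2, p2⟩ := ih2
    rcases hc.total h1 h2 with h | h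
    · exact ⟨T2, h2, .mp (p1.mono h) p2⟩
    · exact ⟨T1, h1, .mp p1 (p2.mono h)⟩

theorem cons_sUnion {c : Set (Set Fm)} (hc : IsChain (· ⊆ ·) c) (hne : c.Nonempty)
    (h : ∀ T ∈ c, ¬ Incons T) : ¬ Incons (⋃₀ c) := by
  rintro ⟨φ, p1, p2⟩
  obtain ⟨T1, h1, p1⟩ := prov_sUnion hc hne p1
  obtain ⟨T2, h2, p2⟩ := prov_sUnion hc hne p2
  rcases hc.total h1 h2 with h' | h'
  · exact h T2 h2 ⟨φ, p1.mono h', p2⟩
  · exact h T1 h1 ⟨φ, p1, p2.mono h'⟩

instance : Countable Fm := Function.Injective.countable (f := Fm.code) fun _ _ h => Fm.code_inj h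

instance : Nonempty Fm := ⟨.eq .zero .zero⟩

/-- maximal consistent sets with witnesses -/
structure Henkin (D : Set Fm) : Prop where
  con : ¬ Incons D
  max : ∀ φ, ¬ Incons (insert φ D) → φ ∈ D
  wit : ∀ φ : Fm, ∃ t, φ.all.neg.imp (φ.inst t).neg ∈ D
  witS : ∀ φ : Fm, ∃ j, φ.allS.neg.imp (φ.instS j).neg ∈ D

theorem exists_henkin {T : Set Fm} (h : Nice T) : ∃ D, T ⊆ D ∧ Henkin D := by
  obtain ⟨e, he⟩ := exists_surjective_nat Fm
  choose F hF using fun (U : {U : Set Fm // Nice U}) (φ : Fm) => U.2.step φ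
  let G : ℕ → {U : Set Fm // Nice U} := fun n =>
    Nat.rec ⟨T, h⟩ (fun k U => ⟨F U (e k), (hF U (e k)).2.1⟩) n
  have hG : ∀ n, (G n).1 ⊆ (G (n + 1)).1 := fun n => (hF (G n) (e n)).1
  have hmono : Monotone fun n => (G n).1 := monotone_nat_of_le_succ hG
  have hch : IsChain (· ⊆ ·) (Set.range fun n => (G n).1) := by
    rintro _ ⟨a, rfl⟩ _ ⟨b, rfl⟩ _
    rcases le_total a b with h | h
    · exact Or.inl (hmono h)
    · exact Or.inr (hmono h)
  have hcon : ¬ Incons (⋃₀ Set.range fun n => (G n).1) :=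
    cons_sUnion hch (Set.range_nonempty _) (by rintro _ ⟨n, rfl⟩; exact (G n).2.1)
  obtain ⟨D, hD, hmax⟩ := zorn_subset_nonempty {U : Set Fm | ¬ Incons U}
    (fun c hc hch hne => ⟨⋃₀ c, cons_sUnion hch hne hc, fun s hs => Set.subset_sUnion_of_mem hs⟩)
    _ hcon
  have hsub : ∀ n, (G n).1 ⊆ D := fun n =>
    (Set.subset_sUnion_of_mem (Set.mem_range_self (f := fun n => (G n).1) n)).trans hD
  refine ⟨D, hsub 0, hmax.prop, fun φ hφ => ?_, fun φ => ?_, fun φ => ?_⟩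
  · exact hmax.le_of_ge (y := insert φ D) hφ (Set.subset_insert _ _) (Set.mem_insert _ _)
  · obtain ⟨n, rfl⟩ := he φ
    obtain ⟨t, ht⟩ := (hF (G n) (e n)).2.2.1
    exact ⟨t, hsub (n + 1) ht⟩
  · obtain ⟨n, rfl⟩ := he φ
    obtain ⟨t, ht⟩ := (hF (G n) (e n)).2.2.2
    exact ⟨t, hsub (n + 1) ht⟩

namespace Henkin

variable {D : Set Fm}

theorem of_prov (h : Henkin D) {φ : Fm} (hp : Prov D φ) : φ ∈ D :=
  h.max φ fun hi => h.con ⟨φ, hp, Prov.neg_of_incons hi⟩

theorem mp (h : Henkin D) {φ ψ : Fm} (h1 : φ.imp ψ ∈ D) (h2 : φ ∈ D) : ψ ∈ D :=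
  h.of_prov (.mp (.hyp h1) (.hyp h2))

theorem ax (h : Henkin D) {φ : Fm} (h1 : Ax φ) : φ ∈ D := h.of_prov (.ax h1)

theorem neg_iff (h : Henkin D) {φ : Fm} : φ.neg ∈ D ↔ φ ∉ D := by
  constructor
  · intro h1 h2
    exact h.con ⟨φ, .hyp h2, .hyp h1⟩
  · intro h1
    by_contra h2
    have h3 : Incons (insert φ.neg D) := by
      by_contra h3
      exact h2 (h.max _ h3)
    exact h1 (h.of_prov (Prov.of_incons_neg h3))

theorem imp_iff (h : Henkin D) {φ ψ : Fm} : φ.imp ψ ∈ D ↔ (φ ∈ D → ψ ∈ D) := by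
  constructor
  · exact h.mp
  · intro h1
    by_cases h2 : φ ∈ D
    · exact h.mp (h.ax (.k _ _)) (h1 h2)
    · apply h.of_prov
      apply Prov.deduction
      exact Prov.explode (φ := φ) (.hyp (Set.mem_insert _ _))
        (.hyp (Set.mem_insert_of_mem _ (h.neg_iff.2 h2))) _

theorem all_iff (h : Henkin D) {φ : Fm} : φ.all ∈ D ↔ ∀ t, φ.inst t ∈ D := by
  constructor
  · intro h1 t
    exact h.mp (h.ax (.allE φ t)) h1
  · intro h1
    by_contra h2
    obtain ⟨t, ht⟩ := h.wit φ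
    exact h.neg_iff.1 (h.mp ht (h.neg_iff.2 h2)) (h1 t)

theorem allS_iff (h : Henkin D) {φ : Fm} : φ.allS ∈ D ↔ ∀ j, φ.instS j ∈ D := by
  constructor
  · intro h1 t
    exact h.mp (h.ax (.allSE φ t)) h1
  · intro h1
    by_contra h2
    obtain ⟨t, ht⟩ := h.witS φ
    exact h.neg_iff.1 (h.mp ht (h.neg_iff.2 h2)) (h1 t)

theorem repl (h : Henkin D) {s t : Tm} (φ : Fm) (h1 : Fm.eq s t ∈ D) (h2 : φ.inst s ∈ D) :
    φ.inst t ∈ D := h.mp (h.mp (h.ax (.eqE s t φ)) h1) h2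

theorem refl (h : Henkin D) (t : Tm) : Fm.eq t t ∈ D := h.ax (.refl t)

theorem symm (h : Henkin D) {s t : Tm} (h1 : Fm.eq s t ∈ D) : Fm.eq t s ∈ D := by
  have := h.repl (.eq (.var 0) s.shift) h1
  simp only [Fm.inst, Fm.subst, Tm.subst, cons_zero, Tm.shift_subst_cons, Tm.subst_var] at this
  exact this (h.refl s)

theorem trans (h : Henkin D) {s t u : Tm} (h1 : Fm.eq s t ∈ D) (h2 : Fm.eq t u ∈ D) :
    Fm.eq s u ∈ D := by
  have := h.repl (.eq s.shift (.var 0)) h2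
  simp only [Fm.inst, Fm.subst, Tm.subst, cons_zero, Tm.shift_subst_cons, Tm.subst_var] at this
  exact this h1

theorem add_congr (h : Henkin D) {s s' t t' : Tm} (h1 : Fm.eq s s' ∈ D) (h2 : Fm.eq t t' ∈ D) :
    Fm.eq (s.add t) (s'.add t') ∈ D := by
  have a := h.repl (.eq (s.add t).shift (.add (.var 0) t.shift)) h1
  have b := h.repl (.eq (s.add t).shift (.add s'.shift (.var 0))) h2
  simp only [Fm.inst, Fm.subst, Tm.subst, cons_zero, Tm.shift_subst_cons, Tm.subst_var] at a b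
  exact b (a (h.refl _))

theorem mul_congr (h : Henkin D) {s s' t t' : Tm} (h1 : Fm.eq s s' ∈ D) (h2 : Fm.eq t t' ∈ D) :
    Fm.eq (s.mul t) (s'.mul t') ∈ D := by
  have a := h.repl (.eq (s.mul t).shift (.mul (.var 0) t.shift)) h1
  have b := h.repl (.eq (s.mul t).shift (.mul s'.shift (.var 0))) h2
  simp only [Fm.inst, Fm.subst, Tm.subst, cons_zero, Tm.shift_subst_cons, Tm.subst_var] at a b
  exact b (a (h.refl _))

theorem lt_congr (h : Henkin D) {s s' t t' : Tm} (h1 : Fm.eq s s' ∈ D) (h2 : Fm.eq t t' ∈ D)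
    (h3 : Fm.lt s t ∈ D) : Fm.lt s' t' ∈ D := by
  have a := h.repl (.lt (.var 0) t.shift) h1
  have b := h.repl (.lt s'.shift (.var 0)) h2
  simp only [Fm.inst, Fm.subst, Tm.subst, cons_zero, Tm.shift_subst_cons, Tm.subst_var] at a b
  exact b (a h3)

theorem mem_congr (h : Henkin D) {s s' : Tm} {j : ℕ} (h1 : Fm.eq s s' ∈ D)
    (h3 : Fm.mem s j ∈ D) : Fm.mem s' j ∈ D := by
  have a := h.repl (.mem (.var 0) j) h1
  simp only [Fm.inst, Fm.subst, Tm.subst, cons_zero, id] at a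
  exact a h3

/-- provable equality -/
def st (h : Henkin D) : Setoid Tm := ⟨fun s t => Fm.eq s t ∈ D, h.refl, h.symm, h.trans⟩

/-- the set named by a set variable -/
def setOf (h : Henkin D) (j : ℕ) : Set (Quotient h.st) := {a | ∃ t, Quotient.mk h.st t = a ∧ Fm.mem t j ∈ D}

/-- the term model -/
def model (h : Henkin D) : Model where
  Num := Quotient h.st
  zero := Quotient.mk h.st .zero
  one := Quotient.mk h.st .one
  add := Quotient.map₂ Tm.add fun _ _ h1 _ _ h2 => h.add_congr h1 h2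
  mul := Quotient.map₂ Tm.mul fun _ _ h1 _ _ h2 => h.mul_congr h1 h2
  lt := fun a b => ∃ s t, Quotient.mk h.st s = a ∧ Quotient.mk h.st t = b ∧ Fm.lt s t ∈ D
  sets := Set.range h.setOf

theorem val_eq (h : Henkin D) (σ : ℕ → Tm) (t : Tm) :
    t.val h.model (fun i => Quotient.mk h.st (σ i)) = Quotient.mk h.st (t.subst σ) := by
  induction t with
  | var i => rfl
  | zero => rfl
  | one => rfl
  | add s t ihs iht => simp only [Tm.val, Tm.subst, ihs, iht]; rfl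
  | mul s t ihs iht => simp only [Tm.val, Tm.subst, ihs, iht]; rfl

theorem truth (h : Henkin D) (φ : Fm) : ∀ (σ : ℕ → Tm) (ρ : ℕ → ℕ),
    Sat h.model (fun i => Quotient.mk h.st (σ i)) (fun j => h.setOf (ρ j)) φ ↔
      φ.subst σ ρ ∈ D := by
  induction φ with
  | eq s t =>
    intro σ ρ
    simp only [Sat, h.val_eq, Fm.subst]
    exact Quotient.eq (r := h.st)
  | lt s t =>
    intro σ ρ
    simp only [Sat, h.val_eq, Fm.subst]
    constructor
    · rintro ⟨a, b, h1, h2, h3⟩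
      exact h.lt_congr (Quotient.exact h1) (Quotient.exact h2) h3
    · intro h1
      exact ⟨_, _, rfl, rfl, h1⟩
  | mem t j =>
    intro σ ρ
    simp only [Sat, h.val_eq, Fm.subst]
    constructor
    · rintro ⟨a, h1, h3⟩
      exact h.mem_congr (Quotient.exact h1) h3
    · intro h1
      exact ⟨_, rfl, h1⟩
  | neg φ ih => intro σ ρ; simp only [Sat, ih, Fm.subst, h.neg_iff]
  | imp φ ψ ih ih' => intro σ ρ; simp only [Sat, ih, ih', Fm.subst, h.imp_iff]
  | all φ ih =>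
    intro σ ρ
    rw [Fm.subst_all, h.all_iff]
    have e : ∀ t : Tm, (φ.subst (up σ) ρ).inst t = φ.subst (cons t σ) ρ := by
      intro t
      unfold Fm.inst
      rw [Fm.subst_subst]
      congr 1
      funext i
      cases i with
      | zero => rfl
      | succ i =>
        show (σ i).shift.subst (cons _ _) = σ i
        rw [Tm.shift_subst_cons, Tm.subst_var]
    have e2 : ∀ t : Tm, cons (Quotient.mk h.st t) (fun i => Quotient.mk h.st (σ i)) =
        fun i => Quotient.mk h.st (cons t σ i) := by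
      intro t
      funext i
      cases i <;> rfl
    constructor
    · intro h1 t
      rw [e, ← ih, ← e2]
      exact h1 _
    · intro h1 a
      obtain ⟨t, rfl⟩ := Quotient.exists_rep a
      have := h1 t
      rw [e, ← ih, ← e2] at this
      exact this
  | allS φ ih =>
    intro σ ρ
    rw [Fm.subst_allS, h.allS_iff]
    have e : ∀ j : ℕ, (φ.subst σ (upS ρ)).instS j = φ.subst σ (cons j ρ) := by
      intro t
      unfold Fm.instS
      rw [Fm.subst_subst]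
      congr 1
      · funext i
        exact Tm.subst_var _
      · funext i
        cases i <;> rfl
    have e2 : ∀ j : ℕ, cons (h.setOf j) (fun i => h.setOf (ρ i)) =
        fun i => h.setOf (cons j ρ i) := by
      intro t
      funext i
      cases i <;> rfl
    constructor
    · intro h1 t
      rw [e, ← ih, ← e2]
      exact h1 _ ⟨t, rfl⟩
    · rintro h1 a ⟨t, rfl⟩
      have := h1 t
      rw [e, ← ih, ← e2] at this
      exact this

end Henkin

/-- The completeness theorem. -/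
theorem completeness {T : Set Fm} (hT : ∀ ψ ∈ T, ψ.IsSentence) {φ : Fm}
    (h : ∀ (M : Model) (v : ℕ → M.Num) (V : ℕ → Set M.Num), SetAsg M V →
      (∀ ψ ∈ T, Sat M v V ψ) → Sat M v V φ) : Prov T φ := by
  by_contra hp
  have h1 : ¬ Incons (insert φ.neg T) := fun hi => hp (Prov.of_incons_neg hi)
  have h2 : Nice T := ⟨fun hi => h1 (hi.mono (Set.subset_insert _ _)), 0, hT⟩
  obtain ⟨D, hD, hH⟩ := exists_henkin (h2.insert h1)
  have h3 : ∀ ψ, Sat hH.model (fun i => Quotient.mk hH.st (.var i)) (fun j => hH.setOf j) ψ ↔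
      ψ ∈ D := fun ψ => by
    have := hH.truth ψ .var (fun j => j)
    rwa [Fm.subst_id] at this
  have h4 := h hH.model _ _ (fun j => ⟨j, rfl⟩)
    (fun ψ hψ => (h3 ψ).2 (hD (Set.mem_insert_of_mem _ hψ)))
  exact hH.neg_iff.1 (hD (Set.mem_insert _ _)) ((h3 φ).1 h4)

end Pool.Agent.H974Z.SOA
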