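import Mathlib

/-!
Second-order arithmetic as a two-sorted first-order theory: terms, formulas (de Bruijn indices),
a Hilbert-style calculus, the system ACA0, the standard model, Goedel numbers, and the
notions of provability predicate, of a formula representing the Pi-1-1 sentences and of a
partial truth predicate for Pi-1-1 sentences.
-/

set_option autoImplicit false

namespace Pool.Agent.H974Z.SOA

/-- Number terms. `var i` is the number variable with de Bruijn index `i`. -/
inductive Tm : Type
  | var : ℕ → Tm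
  | zero : Tm
  | one : Tm
  | add : Tm → Tm → Tm
  | mul : Tm → Tm → Tm

/-- Formulas. `mem t j` says that `t` lies in the set variable with de Bruijn index `j`;
`all` binds the number variable `0` and `allS` binds the set variable `0`. -/
inductive Fm : Type
  | eq : Tm → Tm → Fm
  | lt : Tm → Tm → Fm
  | mem : Tm → ℕ → Fm
  | neg : Fm → Fm
  | imp : Fm → Fm → Fm
  | all : Fm → Fm
  | allS : Fm → Fm

/-- Conjunction. -/
def Fm.and (φ ψ : Fm) : Fm := .neg (.imp φ (.neg ψ))

/-- Disjunction. -/
def Fm.or (φ ψ : Fm) : Fm := .imp (.neg φ) ψ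

/-- Equivalence. -/
def Fm.iff (φ ψ : Fm) : Fm := (φ.imp ψ).and (ψ.imp φ)

/-- Existential number quantifier. -/
def Fm.ex (φ : Fm) : Fm := .neg (.all (.neg φ))

/-- Existential set quantifier. -/
def Fm.exS (φ : Fm) : Fm := .neg (.allS (.neg φ))

/-- The sequence `a, v 0, v 1, ...`. -/
def cons {α : Type} (a : α) (v : ℕ → α) : ℕ → α
  | 0 => a
  | n + 1 => v n

/-- Simultaneous substitution of terms for the number variables of a term. -/
def Tm.subst (σ : ℕ → Tm) : Tm → Tm
  | .var i => σ i
  | .zero => .zero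
  | .one => .one
  | .add s t => .add (s.subst σ) (t.subst σ)
  | .mul s t => .mul (s.subst σ) (t.subst σ)

/-- All variable indices are raised by one. -/
def Tm.shift (t : Tm) : Tm := t.subst fun i => .var (i + 1)

/-- Simultaneous substitution of terms for the free number variables and of set variables for
the free set variables of a formula. -/
def Fm.subst : (ℕ → Tm) → (ℕ → ℕ) → Fm → Fm
  | σ, _, .eq s t => .eq (s.subst σ) (t.subst σ)
  | σ, _, .lt s t => .lt (s.subst σ) (t.subst σ)
  | σ, ρ, .mem t j => .mem (t.subst σ) (ρ j)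
  | σ, ρ, .neg φ => .neg (φ.subst σ ρ)
  | σ, ρ, .imp φ ψ => .imp (φ.subst σ ρ) (ψ.subst σ ρ)
  | σ, ρ, .all φ => .all (φ.subst (cons (.var 0) fun i => (σ i).shift) ρ)
  | σ, ρ, .allS φ => .allS (φ.subst σ (cons 0 fun j => ρ j + 1))

/-- `φ(t)`: the term `t` is put for the number variable `0` (the instance of `all φ` at `t`). -/
def Fm.inst (φ : Fm) (t : Tm) : Fm := φ.subst (cons t .var) id

/-- The set variable `j` is put for the set variable `0` (the instance of `allS φ` at `j`). -/
def Fm.instS (φ : Fm) (j : ℕ) : Fm := φ.subst .var (cons j id)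

/-- The same formula, read under one more number quantifier. -/
def Fm.lift (φ : Fm) : Fm := φ.subst (fun i => .var (i + 1)) id

/-- The same formula, read under one more set quantifier. -/
def Fm.liftS (φ : Fm) : Fm := φ.subst .var fun j => j + 1

/-- The logical axioms (the system of Enderton's book, for two sorts). -/
inductive Ax : Fm → Prop
  | k (φ ψ : Fm) : Ax (φ.imp (ψ.imp φ))
  | s (φ ψ χ : Fm) : Ax ((φ.imp (ψ.imp χ)).imp ((φ.imp ψ).imp (φ.imp χ)))
  | contra (φ ψ : Fm) : Ax ((φ.neg.imp ψ.neg).imp (ψ.imp φ))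
  | allE (φ : Fm) (t : Tm) : Ax (φ.all.imp (φ.inst t))
  | allK (φ ψ : Fm) : Ax ((φ.imp ψ).all.imp (φ.all.imp ψ.all))
  | allV (φ : Fm) : Ax (φ.imp φ.lift.all)
  | allSE (φ : Fm) (j : ℕ) : Ax (φ.allS.imp (φ.instS j))
  | allSK (φ ψ : Fm) : Ax ((φ.imp ψ).allS.imp (φ.allS.imp ψ.allS))
  | allSV (φ : Fm) : Ax (φ.imp φ.liftS.allS)
  | refl (t : Tm) : Ax (.eq t t)
  | eqE (s t : Tm) (φ : Fm) : Ax ((Fm.eq s t).imp ((φ.inst s).imp (φ.inst t)))
  | gen {φ : Fm} : Ax φ → Ax φ.all
  | genS {φ : Fm} : Ax φ → Ax φ.allS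

/-- `Prov T φ`: the formula `φ` is derivable from `T` and the logical axioms by modus ponens. -/
inductive Prov (T : Set Fm) : Fm → Prop
  | hyp {φ : Fm} : φ ∈ T → Prov T φ
  | ax {φ : Fm} : Ax φ → Prov T φ
  | mp {φ ψ : Fm} : Prov T (φ.imp ψ) → Prov T φ → Prov T ψ

/-- All variables of the term have index below `n`. -/
def Tm.Bd (n : ℕ) : Tm → Prop
  | .var i => i < n
  | .zero => True
  | .one => True
  | .add s t => s.Bd n ∧ t.Bd n
  | .mul s t => s.Bd n ∧ t.Bd n

/-- All free number variables have index below `n`, all free set variables index below `m`. -/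
def Fm.Bd : ℕ → ℕ → Fm → Prop
  | n, _, .eq s t => s.Bd n ∧ t.Bd n
  | n, _, .lt s t => s.Bd n ∧ t.Bd n
  | n, m, .mem t j => t.Bd n ∧ j < m
  | n, m, .neg φ => φ.Bd n m
  | n, m, .imp φ ψ => φ.Bd n m ∧ ψ.Bd n m
  | n, m, .all φ => φ.Bd (n + 1) m
  | n, m, .allS φ => φ.Bd n (m + 1)

/-- A sentence has no free variables. -/
def Fm.IsSentence (φ : Fm) : Prop := φ.Bd 0 0

/-- Arithmetical formulas: no set quantifiers. -/
def Fm.Arith : Fm → Prop
  | .eq _ _ => True
  | .lt _ _ => True
  | .mem _ _ => True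
  | .neg φ => φ.Arith
  | .imp φ ψ => φ.Arith ∧ ψ.Arith
  | .all φ => φ.Arith
  | .allS _ => False

/-- Pi-1-1 formulas: a universal set quantifier in front of an arithmetical formula. -/
def Fm.IsPi11 (φ : Fm) : Prop := ∃ θ : Fm, θ.Arith ∧ φ = θ.allS

/-- Sigma-1-1 formulas: an existential set quantifier in front of an arithmetical formula. -/
def Fm.IsSigma11 (φ : Fm) : Prop := ∃ θ : Fm, θ.Arith ∧ φ = θ.exS

/-- The basic axioms and the induction axiom, as in Simpson's book (Definition I.2.4). -/
def basicAxioms : List Fm :=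
  [ .all (.neg (.eq (.add (.var 0) .one) .zero)),
    .all (.all (.imp (.eq (.add (.var 1) .one) (.add (.var 0) .one)) (.eq (.var 1) (.var 0)))),
    .all (.eq (.add (.var 0) .zero) (.var 0)),
    .all (.all (.eq (.add (.var 1) (.add (.var 0) .one)) (.add (.add (.var 1) (.var 0)) .one))),
    .all (.eq (.mul (.var 0) .zero) .zero),
    .all (.all (.eq (.mul (.var 1) (.add (.var 0) .one))
      (.add (.mul (.var 1) (.var 0)) (.var 1)))),
    .all (.neg (.lt (.var 0) .zero)),
    .all (.all ((Fm.lt (.var 1) (.add (.var 0) .one)).iff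
      ((Fm.lt (.var 1) (.var 0)).or (.eq (.var 1) (.var 0))))),
    .allS (((Fm.mem .zero 0).and
      (.all (.imp (.mem (.var 0) 0) (.mem (.add (.var 0) .one) 0)))).imp
        (.all (.mem (.var 0) 0))) ]

/-- The comprehension formula: there is a set `X` with `x ∈ X ↔ φ(x)` for all `x`. -/
def Fm.compr (φ : Fm) : Fm := ((Fm.mem (.var 0) 0).iff φ.liftS).all.exS

/-- The axioms of ACA0: the basic axioms, the induction axiom, and the universal closures of the
comprehension formulas of all arithmetical formulas (with `n` number and `m` set parameters). -/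
def ACA0 : Set Fm :=
  {ψ | ψ ∈ basicAxioms ∨
    ∃ (φ : Fm) (n m : ℕ), φ.Arith ∧ φ.Bd (n + 1) m ∧ ψ = Fm.allS^[m] (Fm.all^[n] φ.compr)}

/-- A two-sorted structure. -/
structure Model where
  Num : Type
  zero : Num
  one : Num
  add : Num → Num → Num
  mul : Num → Num → Num
  lt : Num → Num → Prop
  sets : Set (Set Num)

/-- Value of a term. -/
def Tm.val (M : Model) (v : ℕ → M.Num) : Tm → M.Num
  | .var i => v i
  | .zero => M.zero
  | .one => M.one
  | .add s t => M.add (s.val M v) (t.val M v)
  | .mul s t => M.mul (s.val M v) (t.val M v)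

/-- Satisfaction; `v` assigns the number variables and `V` the set variables. -/
def Sat (M : Model) : (ℕ → M.Num) → (ℕ → Set M.Num) → Fm → Prop
  | v, _, .eq s t => s.val M v = t.val M v
  | v, _, .lt s t => M.lt (s.val M v) (t.val M v)
  | v, V, .mem t j => t.val M v ∈ V j
  | v, V, .neg φ => ¬ Sat M v V φ
  | v, V, .imp φ ψ => Sat M v V φ → Sat M v V ψ
  | v, V, .all φ => ∀ a : M.Num, Sat M (cons a v) V φ
  | v, V, .allS φ => ∀ A ∈ M.sets, Sat M v (cons A V) φ

/-- The standard model: the natural numbers with all their subsets. -/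
@[reducible] def std : Model where
  Num := ℕ
  zero := 0
  one := 1
  add := fun a b => a + b
  mul := fun a b => a * b
  lt := fun a b => a < b
  sets := Set.univ

/-- `φ(n, A)` is true in the standard model: every free number variable has the value `n` and
every free set variable the value `A`. -/
def TrueAt (φ : Fm) (n : ℕ) (A : Set ℕ) : Prop := Sat std (fun _ => n) (fun _ => A) φ

/-- The pairing function of Simpson's book. -/
def pr (a b : ℕ) : ℕ := (a + b) * (a + b) + a

/-- Goedel number of a term. -/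
def Tm.code : Tm → ℕ
  | .var i => pr 0 i
  | .zero => pr 1 0
  | .one => pr 2 0
  | .add s t => pr 3 (pr s.code t.code)
  | .mul s t => pr 4 (pr s.code t.code)

/-- Goedel number of a formula. -/
def Fm.code : Fm → ℕ
  | .eq s t => pr 0 (pr s.code t.code)
  | .lt s t => pr 1 (pr s.code t.code)
  | .mem t j => pr 2 (pr t.code j)
  | .neg φ => pr 3 φ.code
  | .imp φ ψ => pr 4 (pr φ.code ψ.code)
  | .all φ => pr 5 φ.code
  | .allS φ => pr 6 φ.code

/-- The numeral of `n`. -/
def num : ℕ → Tm
  | 0 => .zero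
  | n + 1 => .add (num n) .one

/-- `Pol true φ`: set variables occur only positively in `φ`; `Pol false φ`: only negatively. -/
def Fm.Pol : Bool → Fm → Prop
  | _, .eq _ _ => True
  | _, .lt _ _ => True
  | b, .mem _ _ => b = true
  | b, .neg φ => φ.Pol (!b)
  | b, .imp φ ψ => φ.Pol (!b) ∧ ψ.Pol b
  | b, .all φ => φ.Pol b
  | b, .allS φ => φ.Pol b

/-- `Φ(x, A)` is an arithmetised notion of derivability from the axioms with codes in `A`: an
arithmetical formula with one number and one set variable, positive in `A`, which in the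
standard model holds of the code of `φ` and the set of codes of a set `T` of sentences exactly
when `φ` is derivable from `T`. -/
def IsDerivPred (Φ : Fm) : Prop :=
  Φ.Arith ∧ Φ.Bd 1 1 ∧ Φ.Pol true ∧
    ∀ T : Set Fm, (∀ ψ ∈ T, ψ.IsSentence) → ∀ φ : Fm,
      (TrueAt Φ φ.code (Fm.code '' T) ↔ Prov T φ)

/-- In an arithmetical formula every atomic formula `t ∈ A` is replaced by `τ(t)`. -/
def plug (τ : Fm) : Fm → Fm
  | .eq s t => .eq s t
  | .lt s t => .lt s t
  | .mem t _ => τ.inst t
  | .neg φ => .neg (plug τ φ)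
  | .imp φ ψ => .imp (plug τ φ) (plug τ ψ)
  | .all φ => .all (plug τ φ)
  | .allS φ => .allS (plug τ φ)

/-- `P(x)` expresses that `x` is the code of a Pi-1-1 sentence: it defines the set of these codes
in the standard model and ACA0 proves its true numerical instances. -/
def IsPi11Pred (P : Fm) : Prop :=
  P.Arith ∧ P.Bd 1 0 ∧
    (∀ n : ℕ, TrueAt P n ∅ ↔ ∃ φ : Fm, φ.IsPi11 ∧ φ.IsSentence ∧ φ.code = n) ∧
    ∀ φ : Fm, φ.IsPi11 → φ.IsSentence → Prov ACA0 (P.inst (num φ.code))

/-- `Tr(x)` is a Pi-1-1 partial truth predicate for Pi-1-1 sentences: a Pi-1-1 formula for which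
ACA0 proves the Tarski biconditionals of all Pi-1-1 sentences. -/
def IsTruthPred (Tr : Fm) : Prop :=
  Tr.IsPi11 ∧ Tr.Bd 1 0 ∧
    ∀ φ : Fm, φ.IsPi11 → φ.IsSentence → Prov ACA0 ((Tr.inst (num φ.code)).iff φ)

/-- The sentence: for all Pi-1-1 sentences `x`, if `Pr_τ(x)` then `Tr(x)`. -/
def soundness (Φ P Tr τ : Fm) : Fm := .all (P.imp ((plug τ Φ).imp Tr))

end Pool.Agent.H974Z.SOA
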