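import Pool.Agent.H974Z.SOA.Sig

/-! Arithmetisation of derivability. -/

set_option autoImplicit false

namespace Pool.Agent.H974Z.SOA

/-- tagged term -/
def tg (n : ℕ) (t : Tm) : Tm := prT (num n) t

/-- tagged pair of terms -/
def tg2 (n : ℕ) (s t : Tm) : Tm := prT (num n) (prT s t)

/-- judgement: substitution in a term -/
def jt (k u e s s' : Tm) : Tm := tg 0 (prT k (prT u (prT e (prT s s'))))

/-- judgement: substitution in a formula -/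
def jf (k u e k' u' e' s s' : Tm) : Tm :=
  tg 1 (prT k (prT u (prT e (prT k' (prT u' (prT e' (prT s s')))))))

/-- numerical form of `jt` -/
def JT (k u e s s' : ℕ) : ℕ := pr 0 (pr k (pr u (pr e (pr s s'))))

/-- numerical form of `jf` -/
def JF (k u e k' u' e' s s' : ℕ) : ℕ :=
  pr 1 (pr k (pr u (pr e (pr k' (pr u' (pr e' (pr s s')))))))

/-- the trivial side condition -/
def tt : Fm := .eq .zero .zero

open Tm in
/-- the rules -/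
def dr : ℕ → Rule
  | 0 => ⟨tt, tg 4 (tg 0 (var 0)), []⟩
  | 1 => ⟨tt, tg 4 (tg 1 (num 0)), []⟩
  | 2 => ⟨tt, tg 4 (tg 2 (num 0)), []⟩
  | 3 => ⟨tt, tg 4 (tg2 3 (var 0) (var 1)), [tg 4 (var 0), tg 4 (var 1)]⟩
  | 4 => ⟨tt, tg 4 (tg2 4 (var 0) (var 1)), [tg 4 (var 0), tg 4 (var 1)]⟩
  | 5 => ⟨.lt (var 3) (var 0), jt (var 0) (var 1) (var 2) (tg 0 (var 3)) (tg 0 (var 3)),
      [tg 4 (var 1)]⟩
  | 6 => ⟨tt, jt (var 0) (var 1) (var 2) (tg 0 (var 0)) (var 1), [tg 4 (var 1)]⟩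
  | 7 => ⟨.lt (var 0) (add (var 3) one),
      jt (var 0) (var 1) (var 2) (tg 0 (add (var 3) one)) (tg 0 (add (var 3) (var 2))),
      [tg 4 (var 1)]⟩
  | 8 => ⟨tt, jt (var 0) (var 1) (var 2) (tg 1 (num 0)) (tg 1 (num 0)), [tg 4 (var 1)]⟩
  | 9 => ⟨tt, jt (var 0) (var 1) (var 2) (tg 2 (num 0)) (tg 2 (num 0)), [tg 4 (var 1)]⟩
  | 10 => ⟨tt, jt (var 0) (var 1) (var 2) (tg2 3 (var 3) (var 4)) (tg2 3 (var 5) (var 6)),
      [jt (var 0) (var 1) (var 2) (var 3) (var 5), jt (var 0) (var 1) (var 2) (var 4) (var 6)]⟩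
  | 11 => ⟨tt, jt (var 0) (var 1) (var 2) (tg2 4 (var 3) (var 4)) (tg2 4 (var 5) (var 6)),
      [jt (var 0) (var 1) (var 2) (var 3) (var 5), jt (var 0) (var 1) (var 2) (var 4) (var 6)]⟩
  | 12 => ⟨tt, jf (var 0) (var 1) (var 2) (var 3) (var 4) (var 5)
        (tg2 0 (var 6) (var 7)) (tg2 0 (var 8) (var 9)),
      [jt (var 0) (var 1) (var 2) (var 6) (var 8), jt (var 0) (var 1) (var 2) (var 7) (var 9)]⟩
  | 13 => ⟨tt, jf (var 0) (var 1) (var 2) (var 3) (var 4) (var 5)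
        (tg2 1 (var 6) (var 7)) (tg2 1 (var 8) (var 9)),
      [jt (var 0) (var 1) (var 2) (var 6) (var 8), jt (var 0) (var 1) (var 2) (var 7) (var 9)]⟩
  | 14 => ⟨.lt (var 7) (var 3), jf (var 0) (var 1) (var 2) (var 3) (var 4) (var 5)
        (tg2 2 (var 6) (var 7)) (tg2 2 (var 8) (var 7)),
      [jt (var 0) (var 1) (var 2) (var 6) (var 8)]⟩
  | 15 => ⟨tt, jf (var 0) (var 1) (var 2) (var 3) (var 4) (var 5)
        (tg2 2 (var 6) (var 3)) (tg2 2 (var 8) (var 4)),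
      [jt (var 0) (var 1) (var 2) (var 6) (var 8)]⟩
  | 16 => ⟨.lt (var 3) (add (var 7) one), jf (var 0) (var 1) (var 2) (var 3) (var 4) (var 5)
        (tg2 2 (var 6) (add (var 7) one)) (tg2 2 (var 8) (add (var 7) (var 5))),
      [jt (var 0) (var 1) (var 2) (var 6) (var 8)]⟩
  | 17 => ⟨tt, jf (var 0) (var 1) (var 2) (var 3) (var 4) (var 5) (tg 3 (var 6)) (tg 3 (var 7)),
      [jf (var 0) (var 1) (var 2) (var 3) (var 4) (var 5) (var 6) (var 7)]⟩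
  | 18 => ⟨tt, jf (var 0) (var 1) (var 2) (var 3) (var 4) (var 5)
        (tg2 4 (var 6) (var 7)) (tg2 4 (var 8) (var 9)),
      [jf (var 0) (var 1) (var 2) (var 3) (var 4) (var 5) (var 6) (var 8),
        jf (var 0) (var 1) (var 2) (var 3) (var 4) (var 5) (var 7) (var 9)]⟩
  | 19 => ⟨tt, jf (var 0) (var 1) (var 2) (var 3) (var 4) (var 5) (tg 5 (var 6)) (tg 5 (var 7)),
      [jt (num 0) (tg 0 (num 1)) (num 2) (var 1) (var 8),
        jf (add (var 0) one) (var 8) (var 2) (var 3) (var 4) (var 5) (var 6) (var 7)]⟩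
  | 20 => ⟨tt, jf (var 0) (var 1) (var 2) (var 3) (var 4) (var 5) (tg 6 (var 6)) (tg 6 (var 7)),
      [jf (var 0) (var 1) (var 2) (add (var 3) one) (add (var 4) one) (var 5) (var 6) (var 7)]⟩
  | 21 => ⟨tt, tg 5 (var 6), [jf (var 0) (var 1) (var 2) (var 3) (var 4) (var 5) (var 6) (var 7)]⟩
  | 22 => ⟨tt, tg 2 (tg2 4 (var 0) (tg2 4 (var 1) (var 0))), [tg 5 (var 0), tg 5 (var 1)]⟩
  | 23 => ⟨tt, tg 2 (tg2 4 (tg2 4 (var 0) (tg2 4 (var 1) (var 2)))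
        (tg2 4 (tg2 4 (var 0) (var 1)) (tg2 4 (var 0) (var 2)))),
      [tg 5 (var 0), tg 5 (var 1), tg 5 (var 2)]⟩
  | 24 => ⟨tt, tg 2 (tg2 4 (tg2 4 (tg 3 (var 0)) (tg 3 (var 1))) (tg2 4 (var 1) (var 0))),
      [tg 5 (var 0), tg 5 (var 1)]⟩
  | 25 => ⟨tt, tg 2 (tg2 4 (tg 5 (var 0)) (var 1)),
      [jf (num 0) (var 2) (num 0) (num 0) (num 0) (num 1) (var 0) (var 1)]⟩
  | 26 => ⟨tt, tg 2 (tg2 4 (tg 5 (tg2 4 (var 0) (var 1))) (tg2 4 (tg 5 (var 0)) (tg 5 (var 1)))),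
      [tg 5 (var 0), tg 5 (var 1)]⟩
  | 27 => ⟨tt, tg 2 (tg2 4 (var 0) (tg 5 (var 1))),
      [jf (num 0) (tg 0 (num 1)) (num 2) (num 0) (num 0) (num 1) (var 0) (var 1)]⟩
  | 28 => ⟨tt, tg 2 (tg2 4 (tg 6 (var 0)) (var 1)),
      [jf (num 0) (tg 0 (num 0)) (num 1) (num 0) (var 2) (num 0) (var 0) (var 1)]⟩
  | 29 => ⟨tt, tg 2 (tg2 4 (tg 6 (tg2 4 (var 0) (var 1))) (tg2 4 (tg 6 (var 0)) (tg 6 (var 1)))),
      [tg 5 (var 0), tg 5 (var 1)]⟩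
  | 30 => ⟨tt, tg 2 (tg2 4 (var 0) (tg 6 (var 1))),
      [jf (num 0) (tg 0 (num 0)) (num 1) (num 0) (num 1) (num 2) (var 0) (var 1)]⟩
  | 31 => ⟨tt, tg 2 (tg2 0 (var 0) (var 0)), [tg 4 (var 0)]⟩
  | 32 => ⟨tt, tg 2 (tg2 4 (tg2 0 (var 0) (var 1)) (tg2 4 (var 3) (var 4))),
      [jf (num 0) (var 0) (num 0) (num 0) (num 0) (num 1) (var 2) (var 3),
        jf (num 0) (var 1) (num 0) (num 0) (num 0) (num 1) (var 2) (var 4)]⟩
  | 33 => ⟨tt, tg 2 (tg 5 (var 0)), [tg 2 (var 0)]⟩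
  | 34 => ⟨tt, tg 2 (tg 6 (var 0)), [tg 2 (var 0)]⟩
  | 35 => ⟨.mem (var 0) 0, tg 3 (var 0), []⟩
  | 36 => ⟨tt, tg 3 (var 0), [tg 2 (var 0)]⟩
  | 37 => ⟨tt, tg 3 (var 1), [tg 3 (tg2 4 (var 0) (var 1)), tg 3 (var 0)]⟩
  | _ => ⟨tt, zero, []⟩

theorem dr_sig (k : ℕ) : SigPos (dr k).cond := by
  unfold dr
  split <;> first | exact .eq _ _ | exact .lt _ _ | exact .mem _ _

/-- the substitutions that occur in the axioms -/
def ns (k : ℕ) (u : Tm) (e : ℕ) (i : ℕ) : Tm :=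
  if i < k then .var i else if i = k then u else .var (i - 1 + e)

/-- the renamings that occur in the axioms -/
def ss (k u e : ℕ) (i : ℕ) : ℕ := if i < k then i else if i = k then u else i - 1 + e

theorem up_ns (k : ℕ) (u : Tm) (e : ℕ) : up (ns k u e) = ns (k + 1) u.shift e := by
  funext i
  cases i with
  | zero => simp [up, ns]
  | succ i =>
    simp only [up, cons_succ, ns, Nat.add_lt_add_iff_right, Nat.add_right_cancel_iff]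
    split_ifs with h1 h2
    · rfl
    · rfl
    · show Tm.var _ = Tm.var _
      congr 1
      omega

theorem upS_ss (k u e : ℕ) : upS (ss k u e) = ss (k + 1) (u + 1) e := by
  funext i
  cases i with
  | zero => simp [upS, ss]
  | succ i =>
    simp only [upS, cons_succ, ss, Nat.add_lt_add_iff_right, Nat.add_right_cancel_iff]
    split_ifs with h1 h2
    · rfl
    · rfl
    · omega

theorem ns_shift : ns 0 (.var 1) 2 = fun i => .var (i + 1) := by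
  funext i
  cases i with
  | zero => rfl
  | succ i => simp [ns]

theorem ns_inst (t : Tm) : ns 0 t 0 = cons t .var := by
  funext i
  cases i with
  | zero => rfl
  | succ i => simp [ns]

theorem ns_id : ns 0 (.var 0) 1 = .var := by
  funext i
  cases i with
  | zero => rfl
  | succ i => simp [ns]

theorem ss_shift : ss 0 1 2 = fun i => i + 1 := by
  funext i
  cases i with
  | zero => rfl
  | succ i => simp [ss]

theorem ss_inst (t : ℕ) : ss 0 t 0 = cons t id := by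
  funext i
  cases i with
  | zero => rfl
  | succ i => simp [ss]

theorem ss_id : ss 0 0 1 = id := by
  funext i
  cases i with
  | zero => rfl
  | succ i => simp [ss]

@[simp] theorem val_tg (v : ℕ → ℕ) (n : ℕ) (t : Tm) :
    (tg n t).val std v = pr n (t.val std v) := by
  simp only [tg, val_prT, val_num, std_nat, std_pr]

@[simp] theorem val_tg2 (v : ℕ → ℕ) (n : ℕ) (s t : Tm) :
    (tg2 n s t).val std v = pr n (pr (s.val std v) (t.val std v)) := by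
  simp only [tg2, val_prT, val_num, std_nat, std_pr]

@[simp] theorem val_jt (v : ℕ → ℕ) (k u e s s' : Tm) : (jt k u e s s').val std v =
    JT (k.val std v) (u.val std v) (e.val std v) (s.val std v) (s'.val std v) := by
  simp only [jt, val_tg, val_prT, std_pr, JT]

@[simp] theorem val_jf (v : ℕ → ℕ) (k u e k' u' e' s s' : Tm) :
    (jf k u e k' u' e' s s').val std v =
    JF (k.val std v) (u.val std v) (e.val std v) (k'.val std v) (u'.val std v) (e'.val std v)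
      (s.val std v) (s'.val std v) := by
  simp only [jf, val_tg, val_prT, std_pr, JF]

@[simp] theorem val_num_std (v : ℕ → ℕ) (n : ℕ) : (num n).val std v = n := by
  rw [val_num, std_nat]

@[simp] theorem val_var_std (v : ℕ → ℕ) (n : ℕ) : (Tm.var n).val std v = v n := rfl

@[simp] theorem val_add_std (v : ℕ → ℕ) (s t : Tm) :
    (Tm.add s t).val std v = s.val std v + t.val std v := rfl

@[simp] theorem val_one_std (v : ℕ → ℕ) : Tm.one.val std v = 1 := rfl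

@[simp] theorem sat_tt (v : ℕ → ℕ) (V : ℕ → Set ℕ) : Sat std v V tt ↔ True := iff_of_true rfl trivial

@[simp] theorem sat_lt_std (v : ℕ → ℕ) (V : ℕ → Set ℕ) (s t : Tm) :
    Sat std v V (.lt s t) ↔ s.val std v < t.val std v := Iff.rfl

@[simp] theorem sat_mem_std (v : ℕ → ℕ) (V : ℕ → Set ℕ) (s : Tm) (j : ℕ) :
    Sat std v V (.mem s j) ↔ s.val std v ∈ V j := Iff.rfl

/-- ten numbers -/
def ten (a0 a1 a2 a3 a4 a5 a6 a7 a8 a9 : ℕ) : ℕ → ℕ :=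
  cons a0 (cons a1 (cons a2 (cons a3 (cons a4 (cons a5 (cons a6 (cons a7 (cons a8
    (cons a9 fun _ => 0)))))))))

section
variable (a0 a1 a2 a3 a4 a5 a6 a7 a8 a9 : ℕ)
@[simp] theorem ten0 : ten a0 a1 a2 a3 a4 a5 a6 a7 a8 a9 0 = a0 := rfl
@[simp] theorem ten1 : ten a0 a1 a2 a3 a4 a5 a6 a7 a8 a9 1 = a1 := rfl
@[simp] theorem ten2 : ten a0 a1 a2 a3 a4 a5 a6 a7 a8 a9 2 = a2 := rfl
@[simp] theorem ten3 : ten a0 a1 a2 a3 a4 a5 a6 a7 a8 a9 3 = a3 := rfl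
@[simp] theorem ten4 : ten a0 a1 a2 a3 a4 a5 a6 a7 a8 a9 4 = a4 := rfl
@[simp] theorem ten5 : ten a0 a1 a2 a3 a4 a5 a6 a7 a8 a9 5 = a5 := rfl
@[simp] theorem ten6 : ten a0 a1 a2 a3 a4 a5 a6 a7 a8 a9 6 = a6 := rfl
@[simp] theorem ten7 : ten a0 a1 a2 a3 a4 a5 a6 a7 a8 a9 7 = a7 := rfl
@[simp] theorem ten8 : ten a0 a1 a2 a3 a4 a5 a6 a7 a8 a9 8 = a8 := rfl
@[simp] theorem ten9 : ten a0 a1 a2 a3 a4 a5 a6 a7 a8 a9 9 = a9 := rfl
end

theorem Gen.use {rule : ℕ → Rule} {N : ℕ} {A : Set ℕ} (k : ℕ) (hk : k < N)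
    (a0 a1 a2 a3 a4 a5 a6 a7 a8 a9 : ℕ) {y : ℕ}
    (h : Sat std (ten a0 a1 a2 a3 a4 a5 a6 a7 a8 a9) (fun _ => A) (rule k).cond ∧
      y = (rule k).concl.val std (ten a0 a1 a2 a3 a4 a5 a6 a7 a8 a9) ∧
      ∀ t ∈ (rule k).prems, Gen rule N A (t.val std (ten a0 a1 a2 a3 a4 a5 a6 a7 a8 a9))) :
    Gen rule N A y := by
  rw [h.2.1]
  exact Gen.mk k hk [a0, a1, a2, a3, a4, a5, a6, a7, a8, a9] rfl h.1 h.2.2

theorem Gen.ind {rule : ℕ → Rule} {N : ℕ} {A : Set ℕ} {S : ℕ → Prop}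
    (hS : ∀ k < N, ∀ a0 a1 a2 a3 a4 a5 a6 a7 a8 a9 : ℕ,
      Sat std (ten a0 a1 a2 a3 a4 a5 a6 a7 a8 a9) (fun _ => A) (rule k).cond →
      (∀ t ∈ (rule k).prems, S (t.val std (ten a0 a1 a2 a3 a4 a5 a6 a7 a8 a9))) →
      S ((rule k).concl.val std (ten a0 a1 a2 a3 a4 a5 a6 a7 a8 a9))) {y : ℕ}
    (h : Gen rule N A y) : S y := by
  induction h with
  | mk k hk l hl hc _ ih =>
    match l, hl with
    | [a0, a1, a2, a3, a4, a5, a6, a7, a8, a9], _ => exact hS k hk _ _ _ _ _ _ _ _ _ _ hc ih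

/-- the meaning of the judgements -/
def Sem (T : Set Fm) (y : ℕ) : Prop :=
  (∃ k e, ∃ U s : Tm, y = JT k U.code e s.code (s.subst (ns k U e)).code) ∨
  (∃ k e k' u' e', ∃ U : Tm, ∃ φ : Fm,
    y = JF k U.code e k' u' e' φ.code (φ.subst (ns k U e) (ss k' u' e')).code) ∨
  (∃ φ, Ax φ ∧ y = pr 2 φ.code) ∨ (∃ φ, Prov T φ ∧ y = pr 3 φ.code) ∨
  (∃ t : Tm, y = pr 4 t.code) ∨ ∃ φ : Fm, y = pr 5 φ.code

section
variable {T : Set Fm}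

theorem sem_jt {k u e s s' : ℕ} : Sem T (JT k u e s s') ↔
    ∃ U S : Tm, u = U.code ∧ s = S.code ∧ s' = (S.subst (ns k U e)).code := by
  simp only [Sem, JT, JF, pr_eq]
  constructor
  · rintro (⟨k, e, U, S, -, rfl, h1, rfl, h2, h3⟩ | h | h | h | h | h)
    · exact ⟨U, S, h1, h2, h3⟩
    all_goals simp at h
  · rintro ⟨U, S, h1, h2, h3⟩
    exact Or.inl ⟨k, e, U, S, trivial, rfl, h1, rfl, h2, h3⟩

theorem sem_jf {k u e k' u' e' s s' : ℕ} : Sem T (JF k u e k' u' e' s s') ↔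
    ∃ U : Tm, ∃ φ : Fm, u = U.code ∧ s = φ.code ∧
      s' = (φ.subst (ns k U e) (ss k' u' e')).code := by
  simp only [Sem, JT, JF, pr_eq]
  constructor
  · rintro (h | ⟨k, e, k', u', e', U, S, -, rfl, h1, rfl, rfl, rfl, rfl, h2, h3⟩ | h | h | h | h)
    · simp at h
    · exact ⟨U, S, h1, h2, h3⟩
    all_goals simp at h
  · rintro ⟨U, S, h1, h2, h3⟩
    exact Or.inr (Or.inl ⟨k, e, k', u', e', U, S, trivial, rfl, h1, rfl, rfl, rfl, rfl, h2, h3⟩)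

theorem sem2 {c : ℕ} : Sem T (pr 2 c) ↔ ∃ φ, Ax φ ∧ c = φ.code := by simp [Sem, JT, JF]
theorem sem3 {c : ℕ} : Sem T (pr 3 c) ↔ ∃ φ, Prov T φ ∧ c = φ.code := by simp [Sem, JT, JF]
theorem sem4 {c : ℕ} : Sem T (pr 4 c) ↔ ∃ t : Tm, c = t.code := by simp [Sem, JT, JF]
theorem sem5 {c : ℕ} : Sem T (pr 5 c) ↔ ∃ φ : Fm, c = φ.code := by simp [Sem, JT, JF]

theorem gen_sound {y : ℕ} (h : Gen dr 38 (Fm.code '' T) y) : Sem T y := by
  refine Gen.ind (S := Sem T) ?_ h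
  intro k hk a0 a1 a2 a3 a4 a5 a6 a7 a8 a9 hc hp
  interval_cases k
  all_goals
    simp only [dr, List.mem_cons, List.not_mem_nil, or_false, forall_eq_or_imp, forall_eq,
      val_tg, val_tg2, val_jt, val_jf, val_num_std, val_var_std, val_add_std, val_one_std, ten0,
      ten1, ten2, ten3, ten4, ten5, ten6, ten7, ten8, ten9, sem_jt, sem_jf, sem2, sem3, sem4, sem5,
      sat_lt_std, sat_mem_std] at hc hp ⊢
  · exact ⟨.var a0, rfl⟩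
  · exact ⟨.zero, rfl⟩
  · exact ⟨.one, rfl⟩
  · obtain ⟨⟨s, rfl⟩, t, rfl⟩ := hp
    exact ⟨.add s t, rfl⟩
  · obtain ⟨⟨s, rfl⟩, t, rfl⟩ := hp
    exact ⟨.mul s t, rfl⟩
  · obtain ⟨U, rfl⟩ := hp
    exact ⟨U, .var a3, rfl, rfl, by simp [Tm.subst, ns, hc, Tm.code]⟩
  · obtain ⟨U, rfl⟩ := hp
    exact ⟨U, .var a0, rfl, rfl, by simp [Tm.subst, ns]⟩
  · obtain ⟨U, rfl⟩ := hp
    have h1 : ¬ a3 + 1 < a0 := by omega
    have h2 : ¬ a3 + 1 = a0 := by omega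
    exact ⟨U, .var (a3 + 1), rfl, rfl, by simp [Tm.subst, ns, h1, h2, Tm.code]⟩
  · obtain ⟨U, rfl⟩ := hp
    exact ⟨U, .zero, rfl, rfl, rfl⟩
  · obtain ⟨U, rfl⟩ := hp
    exact ⟨U, .one, rfl, rfl, rfl⟩
  · obtain ⟨⟨U, s, rfl, rfl, rfl⟩, U', t, h1, rfl, rfl⟩ := hp
    obtain rfl := Tm.code_inj h1
    exact ⟨U, .add s t, rfl, rfl, rfl⟩
  · obtain ⟨⟨U, s, rfl, rfl, rfl⟩, U', t, h1, rfl, rfl⟩ := hp
    obtain rfl := Tm.code_inj h1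
    exact ⟨U, .mul s t, rfl, rfl, rfl⟩
  · obtain ⟨⟨U, s, rfl, rfl, rfl⟩, U', t, h1, rfl, rfl⟩ := hp
    obtain rfl := Tm.code_inj h1
    exact ⟨U, .eq s t, rfl, rfl, rfl⟩
  · obtain ⟨⟨U, s, rfl, rfl, rfl⟩, U', t, h1, rfl, rfl⟩ := hp
    obtain rfl := Tm.code_inj h1
    exact ⟨U, .lt s t, rfl, rfl, rfl⟩
  · obtain ⟨U, s, rfl, rfl, rfl⟩ := hp
    exact ⟨U, .mem s a7, rfl, rfl, by simp [Fm.subst, ss, hc, Fm.code]⟩
  · obtain ⟨U, s, rfl, rfl, rfl⟩ := hp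
    exact ⟨U, .mem s a3, rfl, rfl, by simp [Fm.subst, ss, Fm.code]⟩
  · obtain ⟨U, s, rfl, rfl, rfl⟩ := hp
    have h1 : ¬ a7 + 1 < a3 := by omega
    have h2 : ¬ a7 + 1 = a3 := by omega
    exact ⟨U, .mem s (a7 + 1), rfl, rfl, by simp [Fm.subst, ss, h1, h2, Fm.code]⟩
  · obtain ⟨U, φ, rfl, rfl, rfl⟩ := hp
    exact ⟨U, .neg φ, rfl, rfl, rfl⟩
  · obtain ⟨⟨U, s, rfl, rfl, rfl⟩, U', t, h1, rfl, rfl⟩ := hp
    obtain rfl := Tm.code_inj h1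
    exact ⟨U, .imp s t, rfl, rfl, rfl⟩
  · obtain ⟨⟨U, s, h0, rfl, rfl⟩, U', φ, h1, rfl, rfl⟩ := hp
    obtain rfl := Tm.code_inj (s := .var 1) h0
    obtain rfl := Tm.code_inj h1
    refine ⟨s, .all φ, rfl, rfl, ?_⟩
    rw [Fm.subst_all, up_ns, ns_shift]
    rfl
  · obtain ⟨U, φ, rfl, rfl, rfl⟩ := hp
    refine ⟨U, .allS φ, rfl, rfl, ?_⟩
    rw [Fm.subst_allS, upS_ss]
    rfl
  · obtain ⟨U, φ, rfl, rfl, rfl⟩ := hp
    exact ⟨φ, rfl⟩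
  · obtain ⟨⟨φ, rfl⟩, ψ, rfl⟩ := hp
    exact ⟨_, .k φ ψ, rfl⟩
  · obtain ⟨⟨φ, rfl⟩, ⟨ψ, rfl⟩, χ, rfl⟩ := hp
    exact ⟨_, .s φ ψ χ, rfl⟩
  · obtain ⟨⟨φ, rfl⟩, ψ, rfl⟩ := hp
    exact ⟨_, .contra φ ψ, rfl⟩
  · obtain ⟨U, φ, rfl, rfl, rfl⟩ := hp
    rw [ns_inst, ss_id]
    exact ⟨_, .allE φ U, rfl⟩
  · obtain ⟨⟨φ, rfl⟩, ψ, rfl⟩ := hp
    exact ⟨_, .allK φ ψ, rfl⟩
  · obtain ⟨U, φ, h0, rfl, rfl⟩ := hp
    obtain rfl := Tm.code_inj (s := .var 1) h0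
    rw [ns_shift, ss_id]
    exact ⟨_, .allV φ, rfl⟩
  · obtain ⟨U, φ, h0, rfl, rfl⟩ := hp
    obtain rfl := Tm.code_inj (s := .var 0) h0
    rw [ns_id, ss_inst]
    exact ⟨_, .allSE φ a2, rfl⟩
  · obtain ⟨⟨φ, rfl⟩, ψ, rfl⟩ := hp
    exact ⟨_, .allSK φ ψ, rfl⟩
  · obtain ⟨U, φ, h0, rfl, rfl⟩ := hp
    obtain rfl := Tm.code_inj (s := .var 0) h0
    rw [ns_id, ss_shift]
    exact ⟨_, .allSV φ, rfl⟩
  · obtain ⟨t, rfl⟩ := hp
    exact ⟨_, .refl t, rfl⟩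
  · obtain ⟨⟨U, φ, rfl, rfl, rfl⟩, U', ψ, rfl, h1, rfl⟩ := hp
    obtain rfl := Fm.code_inj h1
    rw [ns_inst, ns_inst, ss_id]
    exact ⟨_, .eqE U U' φ, rfl⟩
  · obtain ⟨φ, h1, rfl⟩ := hp
    exact ⟨_, .gen h1, rfl⟩
  · obtain ⟨φ, h1, rfl⟩ := hp
    exact ⟨_, .genS h1, rfl⟩
  · obtain ⟨φ, h1, rfl⟩ := hc
    exact ⟨φ, .hyp h1, rfl⟩
  · obtain ⟨φ, h1, rfl⟩ := hp
    exact ⟨_, .ax h1, rfl⟩
  · obtain ⟨⟨χ, h1, h2⟩, φ, h3, rfl⟩ := hp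
    cases χ <;> simp only [Fm.code, pr_eq, Nat.reduceEqDiff, false_and, true_and] at h2
    obtain rfl := Fm.code_inj h2.1
    exact ⟨_, .mp h1 h3, h2.2⟩

end

end Pool.Agent.H974Z.SOA
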