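import Pool.Agent.H974Z.SOA.Der

/-! Arithmetisation of derivability, second half. -/

set_option autoImplicit false
set_option linter.unusedSimpArgs false

namespace Pool.Agent.H974Z.SOA

variable {A : Set ℕ}

theorem gen_tm (t : Tm) : Gen dr 38 A (pr 4 t.code) := by
  induction t with
  | var i =>
    refine Gen.use 0 (by norm_num) i 0 0 0 0 0 0 0 0 0 ?_
    simp only [dr, List.mem_cons, List.not_mem_nil, or_false, forall_eq_or_imp, forall_eq,
      val_tg, val_tg2, val_jt, val_jf, val_num_std, val_var_std, val_add_std, val_one_std, ten0,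
      ten1, ten2, ten3, ten4, ten5, ten6, ten7, ten8, ten9, sat_tt, sat_lt_std, sat_mem_std,
      true_and, IsEmpty.forall_iff, implies_true, and_true, Tm.code, Fm.code, Tm.subst, Fm.subst]
  | zero =>
    refine Gen.use 1 (by norm_num) 0 0 0 0 0 0 0 0 0 0 ?_
    simp only [dr, List.mem_cons, List.not_mem_nil, or_false, forall_eq_or_imp, forall_eq,
      val_tg, val_tg2, val_jt, val_jf, val_num_std, val_var_std, val_add_std, val_one_std, ten0,
      ten1, ten2, ten3, ten4, ten5, ten6, ten7, ten8, ten9, sat_tt, sat_lt_std, sat_mem_std,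
      true_and, IsEmpty.forall_iff, implies_true, and_true, Tm.code, Fm.code, Tm.subst, Fm.subst]
  | one =>
    refine Gen.use 2 (by norm_num) 0 0 0 0 0 0 0 0 0 0 ?_
    simp only [dr, List.mem_cons, List.not_mem_nil, or_false, forall_eq_or_imp, forall_eq,
      val_tg, val_tg2, val_jt, val_jf, val_num_std, val_var_std, val_add_std, val_one_std, ten0,
      ten1, ten2, ten3, ten4, ten5, ten6, ten7, ten8, ten9, sat_tt, sat_lt_std, sat_mem_std,
      true_and, IsEmpty.forall_iff, implies_true, and_true, Tm.code, Fm.code, Tm.subst, Fm.subst]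
  | add s t ihs iht =>
    refine Gen.use 3 (by norm_num) s.code t.code 0 0 0 0 0 0 0 0 ?_
    simp only [dr, List.mem_cons, List.not_mem_nil, or_false, forall_eq_or_imp, forall_eq,
      val_tg, val_tg2, val_jt, val_jf, val_num_std, val_var_std, val_add_std, val_one_std, ten0,
      ten1, ten2, ten3, ten4, ten5, ten6, ten7, ten8, ten9, sat_tt, sat_lt_std, sat_mem_std,
      true_and, IsEmpty.forall_iff, implies_true, and_true, Tm.code, Fm.code, Tm.subst, Fm.subst]
    exact ⟨ihs, iht⟩
  | mul s t ihs iht =>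
    refine Gen.use 4 (by norm_num) s.code t.code 0 0 0 0 0 0 0 0 ?_
    simp only [dr, List.mem_cons, List.not_mem_nil, or_false, forall_eq_or_imp, forall_eq,
      val_tg, val_tg2, val_jt, val_jf, val_num_std, val_var_std, val_add_std, val_one_std, ten0,
      ten1, ten2, ten3, ten4, ten5, ten6, ten7, ten8, ten9, sat_tt, sat_lt_std, sat_mem_std,
      true_and, IsEmpty.forall_iff, implies_true, and_true, Tm.code, Fm.code, Tm.subst, Fm.subst]
    exact ⟨ihs, iht⟩

theorem gen_jt (k e : ℕ) (U s : Tm) :
    Gen dr 38 A (JT k U.code e s.code (s.subst (ns k U e)).code) := by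
  induction s with
  | var i =>
    rcases lt_trichotomy i k with h | h | h
    · have e1 : (Tm.var i).subst (ns k U e) = .var i := by simp [Tm.subst, ns, h]
      rw [e1]
      refine Gen.use 5 (by norm_num) k U.code e i 0 0 0 0 0 0 ?_
      simp only [dr, List.mem_cons, List.not_mem_nil, or_false, forall_eq_or_imp, forall_eq,
      val_tg, val_tg2, val_jt, val_jf, val_num_std, val_var_std, val_add_std, val_one_std, ten0,
      ten1, ten2, ten3, ten4, ten5, ten6, ten7, ten8, ten9, sat_tt, sat_lt_std, sat_mem_std,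
      true_and, IsEmpty.forall_iff, implies_true, and_true, Tm.code, Fm.code, Tm.subst, Fm.subst]
      exact ⟨h, gen_tm U⟩
    · have e1 : (Tm.var i).subst (ns k U e) = U := by simp [Tm.subst, ns, h]
      rw [e1, h]
      refine Gen.use 6 (by norm_num) k U.code e 0 0 0 0 0 0 0 ?_
      simp only [dr, List.mem_cons, List.not_mem_nil, or_false, forall_eq_or_imp, forall_eq,
      val_tg, val_tg2, val_jt, val_jf, val_num_std, val_var_std, val_add_std, val_one_std, ten0,
      ten1, ten2, ten3, ten4, ten5, ten6, ten7, ten8, ten9, sat_tt, sat_lt_std, sat_mem_std,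
      true_and, IsEmpty.forall_iff, implies_true, and_true, Tm.code, Fm.code, Tm.subst, Fm.subst]
      exact gen_tm U
    · obtain ⟨j, rfl⟩ : ∃ j, i = j + 1 := ⟨i - 1, by omega⟩
      have h1 : ¬ j + 1 < k := by omega
      have h2 : ¬ j + 1 = k := by omega
      have e1 : (Tm.var (j + 1)).subst (ns k U e) = .var (j + e) := by simp [Tm.subst, ns, h1, h2]
      rw [e1]
      refine Gen.use 7 (by norm_num) k U.code e j 0 0 0 0 0 0 ?_
      simp only [dr, List.mem_cons, List.not_mem_nil, or_false, forall_eq_or_imp, forall_eq,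
      val_tg, val_tg2, val_jt, val_jf, val_num_std, val_var_std, val_add_std, val_one_std, ten0,
      ten1, ten2, ten3, ten4, ten5, ten6, ten7, ten8, ten9, sat_tt, sat_lt_std, sat_mem_std,
      true_and, IsEmpty.forall_iff, implies_true, and_true, Tm.code, Fm.code, Tm.subst, Fm.subst]
      exact ⟨h, gen_tm U⟩
  | zero =>
    refine Gen.use 8 (by norm_num) k U.code e 0 0 0 0 0 0 0 ?_
    simp only [dr, List.mem_cons, List.not_mem_nil, or_false, forall_eq_or_imp, forall_eq,
      val_tg, val_tg2, val_jt, val_jf, val_num_std, val_var_std, val_add_std, val_one_std, ten0,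
      ten1, ten2, ten3, ten4, ten5, ten6, ten7, ten8, ten9, sat_tt, sat_lt_std, sat_mem_std,
      true_and, IsEmpty.forall_iff, implies_true, and_true, Tm.code, Fm.code, Tm.subst, Fm.subst]
    exact gen_tm U
  | one =>
    refine Gen.use 9 (by norm_num) k U.code e 0 0 0 0 0 0 0 ?_
    simp only [dr, List.mem_cons, List.not_mem_nil, or_false, forall_eq_or_imp, forall_eq,
      val_tg, val_tg2, val_jt, val_jf, val_num_std, val_var_std, val_add_std, val_one_std, ten0,
      ten1, ten2, ten3, ten4, ten5, ten6, ten7, ten8, ten9, sat_tt, sat_lt_std, sat_mem_std,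
      true_and, IsEmpty.forall_iff, implies_true, and_true, Tm.code, Fm.code, Tm.subst, Fm.subst]
    exact gen_tm U
  | add s t ihs iht =>
    refine Gen.use 10 (by norm_num) k U.code e s.code t.code (s.subst (ns k U e)).code (t.subst (ns k U e)).code 0 0 0 ?_
    simp only [dr, List.mem_cons, List.not_mem_nil, or_false, forall_eq_or_imp, forall_eq,
      val_tg, val_tg2, val_jt, val_jf, val_num_std, val_var_std, val_add_std, val_one_std, ten0,
      ten1, ten2, ten3, ten4, ten5, ten6, ten7, ten8, ten9, sat_tt, sat_lt_std, sat_mem_std,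
      true_and, IsEmpty.forall_iff, implies_true, and_true, Tm.code, Fm.code, Tm.subst, Fm.subst]
    exact ⟨ihs, iht⟩
  | mul s t ihs iht =>
    refine Gen.use 11 (by norm_num) k U.code e s.code t.code (s.subst (ns k U e)).code (t.subst (ns k U e)).code 0 0 0 ?_
    simp only [dr, List.mem_cons, List.not_mem_nil, or_false, forall_eq_or_imp, forall_eq,
      val_tg, val_tg2, val_jt, val_jf, val_num_std, val_var_std, val_add_std, val_one_std, ten0,
      ten1, ten2, ten3, ten4, ten5, ten6, ten7, ten8, ten9, sat_tt, sat_lt_std, sat_mem_std,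
      true_and, IsEmpty.forall_iff, implies_true, and_true, Tm.code, Fm.code, Tm.subst, Fm.subst]
    exact ⟨ihs, iht⟩

theorem gen_jf (φ : Fm) : ∀ (k e k' u' e' : ℕ) (U : Tm), Gen dr 38 A
    (JF k U.code e k' u' e' φ.code (φ.subst (ns k U e) (ss k' u' e')).code) := by
  induction φ with
  | eq s t =>
    intro k e k' u' e' U
    refine Gen.use 12 (by norm_num) k U.code e k' u' e' s.code t.code (s.subst (ns k U e)).code (t.subst (ns k U e)).code ?_
    simp only [dr, List.mem_cons, List.not_mem_nil, or_false, forall_eq_or_imp, forall_eq,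
      val_tg, val_tg2, val_jt, val_jf, val_num_std, val_var_std, val_add_std, val_one_std, ten0,
      ten1, ten2, ten3, ten4, ten5, ten6, ten7, ten8, ten9, sat_tt, sat_lt_std, sat_mem_std,
      true_and, IsEmpty.forall_iff, implies_true, and_true, Tm.code, Fm.code, Tm.subst, Fm.subst]
    exact ⟨gen_jt _ _ _ _, gen_jt _ _ _ _⟩
  | lt s t =>
    intro k e k' u' e' U
    refine Gen.use 13 (by norm_num) k U.code e k' u' e' s.code t.code (s.subst (ns k U e)).code (t.subst (ns k U e)).code ?_
    simp only [dr, List.mem_cons, List.not_mem_nil, or_false, forall_eq_or_imp, forall_eq,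
      val_tg, val_tg2, val_jt, val_jf, val_num_std, val_var_std, val_add_std, val_one_std, ten0,
      ten1, ten2, ten3, ten4, ten5, ten6, ten7, ten8, ten9, sat_tt, sat_lt_std, sat_mem_std,
      true_and, IsEmpty.forall_iff, implies_true, and_true, Tm.code, Fm.code, Tm.subst, Fm.subst]
    exact ⟨gen_jt _ _ _ _, gen_jt _ _ _ _⟩
  | mem t i =>
    intro k e k' u' e' U
    rcases lt_trichotomy i k' with h | h | h
    · have e1 : ss k' u' e' i = i := by simp [ss, h]
      refine Gen.use 14 (by norm_num) k U.code e k' u' e' t.code i (t.subst (ns k U e)).code 0 ?_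
      simp only [dr, List.mem_cons, List.not_mem_nil, or_false, forall_eq_or_imp, forall_eq,
      val_tg, val_tg2, val_jt, val_jf, val_num_std, val_var_std, val_add_std, val_one_std, ten0,
      ten1, ten2, ten3, ten4, ten5, ten6, ten7, ten8, ten9, sat_tt, sat_lt_std, sat_mem_std,
      true_and, IsEmpty.forall_iff, implies_true, and_true, Tm.code, Fm.code, Tm.subst, Fm.subst, e1]
      exact ⟨h, gen_jt _ _ _ _⟩
    · subst h
      have e1 : ss i u' e' i = u' := by simp [ss]
      refine Gen.use 15 (by norm_num) k U.code e i u' e' t.code 0 (t.subst (ns k U e)).code 0 ?_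
      simp only [dr, List.mem_cons, List.not_mem_nil, or_false, forall_eq_or_imp, forall_eq,
      val_tg, val_tg2, val_jt, val_jf, val_num_std, val_var_std, val_add_std, val_one_std, ten0,
      ten1, ten2, ten3, ten4, ten5, ten6, ten7, ten8, ten9, sat_tt, sat_lt_std, sat_mem_std,
      true_and, IsEmpty.forall_iff, implies_true, and_true, Tm.code, Fm.code, Tm.subst, Fm.subst, e1]
      exact gen_jt _ _ _ _
    · obtain ⟨j, rfl⟩ : ∃ j, i = j + 1 := ⟨i - 1, by omega⟩
      have h1 : ¬ j + 1 < k' := by omega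
      have h2 : ¬ j + 1 = k' := by omega
      have e1 : ss k' u' e' (j + 1) = j + e' := by simp [ss, h1, h2]
      refine Gen.use 16 (by norm_num) k U.code e k' u' e' t.code j (t.subst (ns k U e)).code 0 ?_
      simp only [dr, List.mem_cons, List.not_mem_nil, or_false, forall_eq_or_imp, forall_eq,
      val_tg, val_tg2, val_jt, val_jf, val_num_std, val_var_std, val_add_std, val_one_std, ten0,
      ten1, ten2, ten3, ten4, ten5, ten6, ten7, ten8, ten9, sat_tt, sat_lt_std, sat_mem_std,
      true_and, IsEmpty.forall_iff, implies_true, and_true, Tm.code, Fm.code, Tm.subst, Fm.subst, e1]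
      exact ⟨h, gen_jt _ _ _ _⟩
  | neg φ ih =>
    intro k e k' u' e' U
    refine Gen.use 17 (by norm_num) k U.code e k' u' e' φ.code (φ.subst (ns k U e) (ss k' u' e')).code 0 0 ?_
    simp only [dr, List.mem_cons, List.not_mem_nil, or_false, forall_eq_or_imp, forall_eq,
      val_tg, val_tg2, val_jt, val_jf, val_num_std, val_var_std, val_add_std, val_one_std, ten0,
      ten1, ten2, ten3, ten4, ten5, ten6, ten7, ten8, ten9, sat_tt, sat_lt_std, sat_mem_std,
      true_and, IsEmpty.forall_iff, implies_true, and_true, Tm.code, Fm.code, Tm.subst, Fm.subst]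
    exact ih _ _ _ _ _ _
  | imp φ ψ ih ih' =>
    intro k e k' u' e' U
    refine Gen.use 18 (by norm_num) k U.code e k' u' e' φ.code ψ.code (φ.subst (ns k U e) (ss k' u' e')).code (ψ.subst (ns k U e) (ss k' u' e')).code ?_
    simp only [dr, List.mem_cons, List.not_mem_nil, or_false, forall_eq_or_imp, forall_eq,
      val_tg, val_tg2, val_jt, val_jf, val_num_std, val_var_std, val_add_std, val_one_std, ten0,
      ten1, ten2, ten3, ten4, ten5, ten6, ten7, ten8, ten9, sat_tt, sat_lt_std, sat_mem_std,
      true_and, IsEmpty.forall_iff, implies_true, and_true, Tm.code, Fm.code, Tm.subst, Fm.subst]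
    exact ⟨ih _ _ _ _ _ _, ih' _ _ _ _ _ _⟩
  | all φ ih =>
    intro k e k' u' e' U
    rw [Fm.subst_all, up_ns]
    have h1 := gen_jt (A := A) 0 2 (.var 1) U
    rw [ns_shift] at h1
    refine Gen.use 19 (by norm_num) k U.code e k' u' e' φ.code (φ.subst (ns (k + 1) U.shift e) (ss k' u' e')).code U.shift.code 0 ?_
    simp only [dr, List.mem_cons, List.not_mem_nil, or_false, forall_eq_or_imp, forall_eq,
      val_tg, val_tg2, val_jt, val_jf, val_num_std, val_var_std, val_add_std, val_one_std, ten0,
      ten1, ten2, ten3, ten4, ten5, ten6, ten7, ten8, ten9, sat_tt, sat_lt_std, sat_mem_std,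
      true_and, IsEmpty.forall_iff, implies_true, and_true, Tm.code, Fm.code, Tm.subst, Fm.subst]
    exact ⟨h1, ih _ _ _ _ _ _⟩
  | allS φ ih =>
    intro k e k' u' e' U
    rw [Fm.subst_allS, upS_ss]
    refine Gen.use 20 (by norm_num) k U.code e k' u' e' φ.code (φ.subst (ns k U e) (ss (k' + 1) (u' + 1) e')).code 0 0 ?_
    simp only [dr, List.mem_cons, List.not_mem_nil, or_false, forall_eq_or_imp, forall_eq,
      val_tg, val_tg2, val_jt, val_jf, val_num_std, val_var_std, val_add_std, val_one_std, ten0,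
      ten1, ten2, ten3, ten4, ten5, ten6, ten7, ten8, ten9, sat_tt, sat_lt_std, sat_mem_std,
      true_and, IsEmpty.forall_iff, implies_true, and_true, Tm.code, Fm.code, Tm.subst, Fm.subst]
    exact ih _ _ _ _ _ _

theorem gen_fm (φ : Fm) : Gen dr 38 A (pr 5 φ.code) := by
  refine Gen.use 21 (by norm_num) 0 Tm.zero.code 0 0 0 0 φ.code (φ.subst (ns 0 .zero 0) (ss 0 0 0)).code 0 0 ?_
  simp only [dr, List.mem_cons, List.not_mem_nil, or_false, forall_eq_or_imp, forall_eq,
      val_tg, val_tg2, val_jt, val_jf, val_num_std, val_var_std, val_add_std, val_one_std, ten0,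
      ten1, ten2, ten3, ten4, ten5, ten6, ten7, ten8, ten9, sat_tt, sat_lt_std, sat_mem_std,
      true_and, IsEmpty.forall_iff, implies_true, and_true, Tm.code, Fm.code, Tm.subst, Fm.subst]
  exact gen_jf φ 0 0 0 0 0 .zero

theorem gen_ax {φ : Fm} (h : Ax φ) : Gen dr 38 A (pr 2 φ.code) := by
  induction h with
  | k φ ψ =>
    refine Gen.use 22 (by norm_num) φ.code ψ.code 0 0 0 0 0 0 0 0 ?_
    simp only [dr, List.mem_cons, List.not_mem_nil, or_false, forall_eq_or_imp, forall_eq,
      val_tg, val_tg2, val_jt, val_jf, val_num_std, val_var_std, val_add_std, val_one_std, ten0,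
      ten1, ten2, ten3, ten4, ten5, ten6, ten7, ten8, ten9, sat_tt, sat_lt_std, sat_mem_std,
      true_and, IsEmpty.forall_iff, implies_true, and_true, Tm.code, Fm.code, Tm.subst, Fm.subst]
    exact ⟨gen_fm φ, gen_fm ψ⟩
  | s φ ψ χ =>
    refine Gen.use 23 (by norm_num) φ.code ψ.code χ.code 0 0 0 0 0 0 0 ?_
    simp only [dr, List.mem_cons, List.not_mem_nil, or_false, forall_eq_or_imp, forall_eq,
      val_tg, val_tg2, val_jt, val_jf, val_num_std, val_var_std, val_add_std, val_one_std, ten0,
      ten1, ten2, ten3, ten4, ten5, ten6, ten7, ten8, ten9, sat_tt, sat_lt_std, sat_mem_std,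
      true_and, IsEmpty.forall_iff, implies_true, and_true, Tm.code, Fm.code, Tm.subst, Fm.subst]
    exact ⟨gen_fm φ, gen_fm ψ, gen_fm χ⟩
  | contra φ ψ =>
    refine Gen.use 24 (by norm_num) φ.code ψ.code 0 0 0 0 0 0 0 0 ?_
    simp only [dr, List.mem_cons, List.not_mem_nil, or_false, forall_eq_or_imp, forall_eq,
      val_tg, val_tg2, val_jt, val_jf, val_num_std, val_var_std, val_add_std, val_one_std, ten0,
      ten1, ten2, ten3, ten4, ten5, ten6, ten7, ten8, ten9, sat_tt, sat_lt_std, sat_mem_std,
      true_and, IsEmpty.forall_iff, implies_true, and_true, Tm.code, Fm.code, Tm.subst, Fm.subst]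
    exact ⟨gen_fm φ, gen_fm ψ⟩
  | allE φ t =>
    have h1 := gen_jf (A := A) φ 0 0 0 0 1 t
    rw [ns_inst, ss_id] at h1
    refine Gen.use 25 (by norm_num) φ.code (φ.inst t).code t.code 0 0 0 0 0 0 0 ?_
    simp only [dr, List.mem_cons, List.not_mem_nil, or_false, forall_eq_or_imp, forall_eq,
      val_tg, val_tg2, val_jt, val_jf, val_num_std, val_var_std, val_add_std, val_one_std, ten0,
      ten1, ten2, ten3, ten4, ten5, ten6, ten7, ten8, ten9, sat_tt, sat_lt_std, sat_mem_std,
      true_and, IsEmpty.forall_iff, implies_true, and_true, Tm.code, Fm.code, Tm.subst, Fm.subst]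
    exact h1
  | allK φ ψ =>
    refine Gen.use 26 (by norm_num) φ.code ψ.code 0 0 0 0 0 0 0 0 ?_
    simp only [dr, List.mem_cons, List.not_mem_nil, or_false, forall_eq_or_imp, forall_eq,
      val_tg, val_tg2, val_jt, val_jf, val_num_std, val_var_std, val_add_std, val_one_std, ten0,
      ten1, ten2, ten3, ten4, ten5, ten6, ten7, ten8, ten9, sat_tt, sat_lt_std, sat_mem_std,
      true_and, IsEmpty.forall_iff, implies_true, and_true, Tm.code, Fm.code, Tm.subst, Fm.subst]
    exact ⟨gen_fm φ, gen_fm ψ⟩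
  | allV φ =>
    have h1 := gen_jf (A := A) φ 0 2 0 0 1 (.var 1)
    rw [ns_shift, ss_id] at h1
    refine Gen.use 27 (by norm_num) φ.code φ.lift.code 0 0 0 0 0 0 0 0 ?_
    simp only [dr, List.mem_cons, List.not_mem_nil, or_false, forall_eq_or_imp, forall_eq,
      val_tg, val_tg2, val_jt, val_jf, val_num_std, val_var_std, val_add_std, val_one_std, ten0,
      ten1, ten2, ten3, ten4, ten5, ten6, ten7, ten8, ten9, sat_tt, sat_lt_std, sat_mem_std,
      true_and, IsEmpty.forall_iff, implies_true, and_true, Tm.code, Fm.code, Tm.subst, Fm.subst]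
    exact h1
  | allSE φ j =>
    have h1 := gen_jf (A := A) φ 0 1 0 j 0 (.var 0)
    rw [ns_id, ss_inst] at h1
    refine Gen.use 28 (by norm_num) φ.code (φ.instS j).code j 0 0 0 0 0 0 0 ?_
    simp only [dr, List.mem_cons, List.not_mem_nil, or_false, forall_eq_or_imp, forall_eq,
      val_tg, val_tg2, val_jt, val_jf, val_num_std, val_var_std, val_add_std, val_one_std, ten0,
      ten1, ten2, ten3, ten4, ten5, ten6, ten7, ten8, ten9, sat_tt, sat_lt_std, sat_mem_std,
      true_and, IsEmpty.forall_iff, implies_true, and_true, Tm.code, Fm.code, Tm.subst, Fm.subst]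
    exact h1
  | allSK φ ψ =>
    refine Gen.use 29 (by norm_num) φ.code ψ.code 0 0 0 0 0 0 0 0 ?_
    simp only [dr, List.mem_cons, List.not_mem_nil, or_false, forall_eq_or_imp, forall_eq,
      val_tg, val_tg2, val_jt, val_jf, val_num_std, val_var_std, val_add_std, val_one_std, ten0,
      ten1, ten2, ten3, ten4, ten5, ten6, ten7, ten8, ten9, sat_tt, sat_lt_std, sat_mem_std,
      true_and, IsEmpty.forall_iff, implies_true, and_true, Tm.code, Fm.code, Tm.subst, Fm.subst]
    exact ⟨gen_fm φ, gen_fm ψ⟩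
  | allSV φ =>
    have h1 := gen_jf (A := A) φ 0 1 0 1 2 (.var 0)
    rw [ns_id, ss_shift] at h1
    refine Gen.use 30 (by norm_num) φ.code φ.liftS.code 0 0 0 0 0 0 0 0 ?_
    simp only [dr, List.mem_cons, List.not_mem_nil, or_false, forall_eq_or_imp, forall_eq,
      val_tg, val_tg2, val_jt, val_jf, val_num_std, val_var_std, val_add_std, val_one_std, ten0,
      ten1, ten2, ten3, ten4, ten5, ten6, ten7, ten8, ten9, sat_tt, sat_lt_std, sat_mem_std,
      true_and, IsEmpty.forall_iff, implies_true, and_true, Tm.code, Fm.code, Tm.subst, Fm.subst]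
    exact h1
  | refl t =>
    refine Gen.use 31 (by norm_num) t.code 0 0 0 0 0 0 0 0 0 ?_
    simp only [dr, List.mem_cons, List.not_mem_nil, or_false, forall_eq_or_imp, forall_eq,
      val_tg, val_tg2, val_jt, val_jf, val_num_std, val_var_std, val_add_std, val_one_std, ten0,
      ten1, ten2, ten3, ten4, ten5, ten6, ten7, ten8, ten9, sat_tt, sat_lt_std, sat_mem_std,
      true_and, IsEmpty.forall_iff, implies_true, and_true, Tm.code, Fm.code, Tm.subst, Fm.subst]
    exact gen_tm t
  | eqE s t φ =>
    have h1 := gen_jf (A := A) φ 0 0 0 0 1 s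
    have h2 := gen_jf (A := A) φ 0 0 0 0 1 t
    rw [ns_inst, ss_id] at h1 h2
    refine Gen.use 32 (by norm_num) s.code t.code φ.code (φ.inst s).code (φ.inst t).code 0 0 0 0 0 ?_
    simp only [dr, List.mem_cons, List.not_mem_nil, or_false, forall_eq_or_imp, forall_eq,
      val_tg, val_tg2, val_jt, val_jf, val_num_std, val_var_std, val_add_std, val_one_std, ten0,
      ten1, ten2, ten3, ten4, ten5, ten6, ten7, ten8, ten9, sat_tt, sat_lt_std, sat_mem_std,
      true_and, IsEmpty.forall_iff, implies_true, and_true, Tm.code, Fm.code, Tm.subst, Fm.subst]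
    exact ⟨h1, h2⟩
  | @gen φ _ ih =>
    refine Gen.use 33 (by norm_num) φ.code 0 0 0 0 0 0 0 0 0 ?_
    simp only [dr, List.mem_cons, List.not_mem_nil, or_false, forall_eq_or_imp, forall_eq,
      val_tg, val_tg2, val_jt, val_jf, val_num_std, val_var_std, val_add_std, val_one_std, ten0,
      ten1, ten2, ten3, ten4, ten5, ten6, ten7, ten8, ten9, sat_tt, sat_lt_std, sat_mem_std,
      true_and, IsEmpty.forall_iff, implies_true, and_true, Tm.code, Fm.code, Tm.subst, Fm.subst]
    exact ih
  | @genS φ _ ih =>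
    refine Gen.use 34 (by norm_num) φ.code 0 0 0 0 0 0 0 0 0 ?_
    simp only [dr, List.mem_cons, List.not_mem_nil, or_false, forall_eq_or_imp, forall_eq,
      val_tg, val_tg2, val_jt, val_jf, val_num_std, val_var_std, val_add_std, val_one_std, ten0,
      ten1, ten2, ten3, ten4, ten5, ten6, ten7, ten8, ten9, sat_tt, sat_lt_std, sat_mem_std,
      true_and, IsEmpty.forall_iff, implies_true, and_true, Tm.code, Fm.code, Tm.subst, Fm.subst]
    exact ih

theorem gen_prov {T : Set Fm} {φ : Fm} (h : Prov T φ) :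
    Gen dr 38 (Fm.code '' T) (pr 3 φ.code) := by
  induction h with
  | @hyp φ h =>
    refine Gen.use 35 (by norm_num) φ.code 0 0 0 0 0 0 0 0 0 ?_
    simp only [dr, List.mem_cons, List.not_mem_nil, or_false, forall_eq_or_imp, forall_eq,
      val_tg, val_tg2, val_jt, val_jf, val_num_std, val_var_std, val_add_std, val_one_std, ten0,
      ten1, ten2, ten3, ten4, ten5, ten6, ten7, ten8, ten9, sat_tt, sat_lt_std, sat_mem_std,
      true_and, IsEmpty.forall_iff, implies_true, and_true, Tm.code, Fm.code, Tm.subst, Fm.subst]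
    exact ⟨φ, h, rfl⟩
  | @ax φ h =>
    refine Gen.use 36 (by norm_num) φ.code 0 0 0 0 0 0 0 0 0 ?_
    simp only [dr, List.mem_cons, List.not_mem_nil, or_false, forall_eq_or_imp, forall_eq,
      val_tg, val_tg2, val_jt, val_jf, val_num_std, val_var_std, val_add_std, val_one_std, ten0,
      ten1, ten2, ten3, ten4, ten5, ten6, ten7, ten8, ten9, sat_tt, sat_lt_std, sat_mem_std,
      true_and, IsEmpty.forall_iff, implies_true, and_true, Tm.code, Fm.code, Tm.subst, Fm.subst]
    exact gen_ax h
  | @mp φ ψ _ _ ih1 ih2 =>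
    refine Gen.use 37 (by norm_num) φ.code ψ.code 0 0 0 0 0 0 0 0 ?_
    simp only [dr, List.mem_cons, List.not_mem_nil, or_false, forall_eq_or_imp, forall_eq,
      val_tg, val_tg2, val_jt, val_jf, val_num_std, val_var_std, val_add_std, val_one_std, ten0,
      ten1, ten2, ten3, ten4, ten5, ten6, ten7, ten8, ten9, sat_tt, sat_lt_std, sat_mem_std,
      true_and, IsEmpty.forall_iff, implies_true, and_true, Tm.code, Fm.code, Tm.subst, Fm.subst]
    exact ⟨ih1, ih2⟩

theorem SD.normal {R : ℕ → Set ℕ → Prop} (h : SD fun v A => R (v 0) A) :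
    ∃ φ, SigPos φ ∧ φ.Bd 1 1 ∧ ∀ n A, TrueAt φ n A ↔ R n A := by
  obtain ⟨φ, h1, h2⟩ := h
  obtain ⟨n, hn⟩ := φ.exists_bd
  refine ⟨φ.subst (fun _ => .var 0) fun _ => 0, h1.subst _ _,
    Fm.bd_subst (fun _ _ => Nat.one_pos) (fun _ _ => Nat.one_pos) hn, fun n A => ?_⟩
  unfold TrueAt
  rw [sat_subst]
  exact h2 _ _

theorem exists_derivPred : ∃ Φ, IsDerivPred Φ := by
  obtain ⟨Φ, h1, h2, h3⟩ := SD.normal (R := fun n A => Gen dr 38 A (pr 3 n))
    (SD.gen dr_sig 38 ((TD.const 3).pr (TD.var 0)))
  refine ⟨Φ, h1.arith, h2, h1.pol, fun T _ φ => (h3 _ _).trans ⟨fun h => ?_, gen_prov⟩⟩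
  obtain ⟨ψ, h4, h5⟩ := sem3.1 (gen_sound h)
  rwa [Fm.code_inj h5]

end Pool.Agent.H974Z.SOA
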