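import Pool.Agent.H974Z.SOA.Compl

/-! Models of ACA0 and the diagonal argument. -/

set_option autoImplicit false

namespace Pool.Agent.H974Z.SOA

/-- the semantic content of the axioms of ACA0 -/
structure IsACA (M : Model) : Prop where
  succ_ne : ∀ a, M.add a M.one ≠ M.zero
  succ_inj : ∀ a b, M.add a M.one = M.add b M.one → a = b
  add_zero : ∀ a, M.add a M.zero = a
  add_succ : ∀ a b, M.add a (M.add b M.one) = M.add (M.add a b) M.one
  mul_zero : ∀ a, M.mul a M.zero = M.zero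
  mul_succ : ∀ a b, M.mul a (M.add b M.one) = M.add (M.mul a b) a
  not_lt_zero : ∀ a, ¬ M.lt a M.zero
  lt_succ : ∀ a b, M.lt a (M.add b M.one) ↔ M.lt a b ∨ a = b
  ind : ∀ A ∈ M.sets, M.zero ∈ A → (∀ a ∈ A, M.add a M.one ∈ A) → ∀ a, a ∈ A
  compr : ∀ φ : Fm, φ.Arith → ∀ (v : ℕ → M.Num) (V : ℕ → Set M.Num), SetAsg M V →
    {a | Sat M (cons a v) V φ} ∈ M.sets

variable {M : Model}

theorem sat_all_iter (n : ℕ) : ∀ (ψ : Fm) (v : ℕ → M.Num) (V : ℕ → Set M.Num),
    Sat M v V (Fm.all^[n] ψ) → ∀ w : ℕ → M.Num,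
      Sat M (fun i => if i < n then w i else v (i - n)) V ψ := by
  induction n with
  | zero => intro ψ v V h w; simpa using h
  | succ n ih =>
    intro ψ v V h w
    rw [Function.iterate_succ_apply] at h
    have h1 := ih ψ.all v V h (fun i => w (i + 1)) (w 0)
    have e : cons (w 0) (fun i => if i < n then w (i + 1) else v (i - n)) =
        fun i => if i < n + 1 then w i else v (i - (n + 1)) := by
      funext i
      cases i with
      | zero => simp
      | succ i => simp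
    rwa [e] at h1

theorem sat_allS_iter (n : ℕ) : ∀ (ψ : Fm) (v : ℕ → M.Num) (V : ℕ → Set M.Num),
    Sat M v V (Fm.allS^[n] ψ) → ∀ W : ℕ → Set M.Num, SetAsg M W →
      Sat M v (fun i => if i < n then W i else V (i - n)) ψ := by
  induction n with
  | zero => intro ψ v V h w _; simpa using h
  | succ n ih =>
    intro ψ v V h w hw
    rw [Function.iterate_succ_apply] at h
    have h1 := ih ψ.allS v V h (fun i => w (i + 1)) (fun j => hw _) (w 0) (hw 0)
    have e : cons (w 0) (fun i => if i < n then w (i + 1) else V (i - n)) =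
        fun i => if i < n + 1 then w i else V (i - (n + 1)) := by
      funext i
      cases i with
      | zero => simp
      | succ i => simp
    rwa [e] at h1

theorem isACA_of {v : ℕ → M.Num} {V : ℕ → Set M.Num} (h : ∀ ψ ∈ ACA0, Sat M v V ψ) : IsACA M := by
  have hb : ∀ ψ ∈ basicAxioms, Sat M v V ψ := fun ψ hψ => h ψ (Or.inl hψ)
  simp only [basicAxioms, List.mem_cons, List.not_mem_nil, or_false, forall_eq_or_imp,
    forall_eq] at hb
  obtain ⟨h1, h2, h3, h4, h5, h6, h7, h8, h9⟩ := hb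
  refine ⟨h1, h2, h3, h4, h5, h6, h7, fun a b => ?_, fun A hA h0 hs => ?_, ?_⟩
  · have := h8 a b
    simpa [Sat, Tm.val] using this
  · have := h9 A hA
    simp only [Sat, sat_and, Tm.val, cons_zero] at this
    exact this ⟨h0, hs⟩
  · intro φ hφ w W hW
    obtain ⟨n, hn⟩ := φ.exists_bd
    have hn' : φ.Bd (n + 1) n := hn.mono (Nat.le_succ n) le_rfl
    have h10 := h _ (Or.inr ⟨φ, n, n, hφ, hn', rfl⟩)
    have h11 := sat_all_iter n _ _ _ (sat_allS_iter n _ _ _ h10 W hW) w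
    simp only [Fm.compr, sat_exS, Sat, sat_iff, Tm.val, cons_zero, sat_liftS] at h11
    obtain ⟨A, hA, h12⟩ := h11
    have : A = {a | Sat M (cons a w) W φ} := by
      ext a
      rw [h12 a]
      exact sat_congr (cons_congr a fun i hi => by simp [hi]) (fun j hj => by simp [hj]) hn'
    rw [← this]
    exact hA

/-- the standard numbers in a structure -/
def Model.nat (M : Model) : ℕ → M.Num
  | 0 => M.zero
  | n + 1 => M.add (M.nat n) M.one

theorem val_num (v : ℕ → M.Num) (n : ℕ) : (num n).val M v = M.nat n := by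
  induction n with
  | zero => rfl
  | succ n ih => simp only [num, Tm.val, ih, Model.nat]

theorem std_nat (n : ℕ) : std.nat n = n := by
  induction n with
  | zero => rfl
  | succ n ih => show std.nat n + 1 = n + 1; rw [ih]

/-- pairing in a structure -/
def Model.pr (M : Model) (a b : M.Num) : M.Num := M.add (M.mul (M.add a b) (M.add a b)) a

/-- the pairing term -/
def prT (s t : Tm) : Tm := .add (.mul (.add s t) (.add s t)) s

@[simp] theorem val_prT (v : ℕ → M.Num) (s t : Tm) :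
    (prT s t).val M v = M.pr (s.val M v) (t.val M v) := rfl

theorem std_pr (a b : ℕ) : std.pr a b = pr a b := rfl

theorem prT_bd {n : ℕ} {s t : Tm} (hs : s.Bd n) (ht : t.Bd n) : (prT s t).Bd n :=
  ⟨⟨⟨hs, ht⟩, hs, ht⟩, hs⟩

namespace IsACA

theorem nat_add (h : IsACA M) (a b : ℕ) : M.nat (a + b) = M.add (M.nat a) (M.nat b) := by
  induction b with
  | zero => exact (h.add_zero _).symm
  | succ b ih =>
    show M.add (M.nat (a + b)) M.one = M.add (M.nat a) (M.add (M.nat b) M.one)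
    rw [h.add_succ, ih]

theorem nat_mul (h : IsACA M) (a b : ℕ) : M.nat (a * b) = M.mul (M.nat a) (M.nat b) := by
  induction b with
  | zero => exact (h.mul_zero _).symm
  | succ b ih =>
    show M.nat (a * b + a) = M.mul (M.nat a) (M.add (M.nat b) M.one)
    rw [h.mul_succ, h.nat_add, ih]

theorem nat_pr (h : IsACA M) (a b : ℕ) : M.nat (pr a b) = M.pr (M.nat a) (M.nat b) := by
  unfold pr Model.pr
  rw [h.nat_add, h.nat_mul, h.nat_add]

end IsACA

/-- every atomic formula `t ∈ Y` is replaced by `(u, t) ∈ Z` -/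
def secF : Tm → Fm → Fm
  | _, .eq s t => .eq s t
  | _, .lt s t => .lt s t
  | u, .mem t _ => .mem (prT u t) 0
  | u, .neg φ => .neg (secF u φ)
  | u, .imp φ ψ => .imp (secF u φ) (secF u ψ)
  | u, .all φ => .all (secF u.shift φ)
  | u, .allS φ => .allS (secF u φ)

theorem secF_arith {φ : Fm} : ∀ {u : Tm}, φ.Arith → (secF u φ).Arith := by
  induction φ with
  | eq s t => intro _ _; trivial
  | lt s t => intro _ _; trivial
  | mem t j => intro _ _; trivial
  | neg φ ih => intro _ h; exact ih h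
  | imp φ ψ ih ih' => intro _ h; exact ⟨ih h.1, ih' h.2⟩
  | all φ ih => intro _ h; exact ih h
  | allS φ _ => intro _ h; exact h.elim

theorem secF_bd {φ : Fm} : ∀ {u : Tm} {n m : ℕ}, φ.Arith → u.Bd n → φ.Bd n m →
    (secF u φ).Bd n 1 := by
  induction φ with
  | eq s t => intro _ _ _ _ _ h; exact h
  | lt s t => intro _ _ _ _ _ h; exact h
  | mem t j => intro _ _ _ _ hu h; exact ⟨prT_bd hu h.1, Nat.one_pos⟩
  | neg φ ih => intro _ _ _ h hu hb; exact ih h hu hb
  | imp φ ψ ih ih' => intro _ _ _ h hu hb; exact ⟨ih h.1 hu hb.1, ih' h.2 hu hb.2⟩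
  | all φ ih => intro _ _ _ h hu hb; exact ih h (Tm.bd_shift hu) hb
  | allS φ _ => intro _ _ _ h; exact h.elim

theorem sat_secF {φ : Fm} : ∀ {u : Tm} {v : ℕ → M.Num} {V : ℕ → Set M.Num}, φ.Arith →
    (Sat M v V (secF u φ) ↔ Sat M v (fun _ => {w | M.pr (u.val M v) w ∈ V 0}) φ) := by
  induction φ with
  | eq s t => intro _ _ _ _; rfl
  | lt s t => intro _ _ _ _; rfl
  | mem t j => intro _ _ _ _; rfl
  | neg φ ih => intro _ _ _ h; simp only [secF, Sat, ih h]
  | imp φ ψ ih ih' => intro _ _ _ h; simp only [secF, Sat, ih h.1, ih' h.2]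
  | all φ ih => intro _ _ _ h; simp only [secF, Sat, ih h, Tm.val_shift]
  | allS φ _ => intro _ _ _ h; exact h.elim

theorem plug_arith {τ : Fm} (hτ : τ.Arith) {φ : Fm} : φ.Arith → (plug τ φ).Arith := by
  induction φ with
  | eq s t => intro _; trivial
  | lt s t => intro _; trivial
  | mem t j => intro _; exact Fm.arith_subst hτ
  | neg φ ih => intro h; exact ih h
  | imp φ ψ ih ih' => intro h; exact ⟨ih h.1, ih' h.2⟩
  | all φ ih => intro h; exact ih h
  | allS φ _ => intro h; exact h.elim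

theorem plug_bd {τ : Fm} {k : ℕ} (hτ : τ.Bd 1 k) {φ : Fm} : ∀ {n m : ℕ}, φ.Arith → φ.Bd n m →
    (plug τ φ).Bd n k := by
  induction φ with
  | eq s t => intro _ _ _ h; exact h
  | lt s t => intro _ _ _ h; exact h
  | mem t j =>
    intro _ _ _ h
    refine Fm.bd_subst (n := 1) (m := k) ?_ (fun _ hj => hj) hτ
    intro i hi
    obtain rfl : i = 0 := by omega
    exact h.1
  | neg φ ih => intro _ _ h hb; exact ih h hb
  | imp φ ψ ih ih' => intro _ _ h hb; exact ⟨ih h.1 hb.1, ih' h.2 hb.2⟩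
  | all φ ih => intro _ _ h hb; exact ih h hb
  | allS φ _ => intro _ _ h; exact h.elim

theorem sat_cons_one {τ : Fm} {k : ℕ} (hτ : τ.Bd 1 k) (a : M.Num) (v : ℕ → M.Num)
    (V : ℕ → Set M.Num) : Sat M (cons a v) V τ ↔ Sat M (fun _ => a) V τ := by
  refine sat_congr (n := 1) (m := k) ?_ (fun _ _ => rfl) hτ
  intro i hi
  obtain rfl : i = 0 := by omega
  rfl

theorem sat_plug {τ : Fm} {k : ℕ} (hτ : τ.Bd 1 k) {φ : Fm} :
    ∀ {v : ℕ → M.Num} {V : ℕ → Set M.Num}, φ.Arith →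
    (Sat M v V (plug τ φ) ↔ Sat M v (fun _ => {y | Sat M (fun _ => y) V τ}) φ) := by
  induction φ with
  | eq s t => intro _ _ _; rfl
  | lt s t => intro _ _ _; rfl
  | mem t j => intro _ _ _; simp only [plug, sat_inst, sat_cons_one hτ]; rfl
  | neg φ ih => intro _ _ h; simp only [plug, Sat, ih h]
  | imp φ ψ ih ih' => intro _ _ h; simp only [plug, Sat, ih h.1, ih' h.2]
  | all φ ih => intro _ _ h; simp only [plug, Sat, ih h]
  | allS φ _ => intro _ _ h; exact h.elim

theorem sat_mono {φ : Fm} : ∀ {v : ℕ → M.Num} {V V' : ℕ → Set M.Num}, φ.Arith →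
    (∀ j, V j ⊆ V' j) →
    (φ.Pol true → Sat M v V φ → Sat M v V' φ) ∧ (φ.Pol false → Sat M v V' φ → Sat M v V φ) := by
  induction φ with
  | eq s t => intro _ _ _ _ _; exact ⟨fun _ h => h, fun _ h => h⟩
  | lt s t => intro _ _ _ _ _; exact ⟨fun _ h => h, fun _ h => h⟩
  | mem t j => intro _ _ _ _ hV; exact ⟨fun _ h => hV j h, fun h => by simp [Fm.Pol] at h⟩
  | neg φ ih =>
    intro _ _ _ h hV
    exact ⟨fun hp h1 h2 => h1 ((ih h hV).2 hp h2), fun hp h1 h2 => h1 ((ih h hV).1 hp h2)⟩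
  | imp φ ψ ih ih' =>
    intro _ _ _ h hV
    exact ⟨fun hp h1 h2 => (ih' h.2 hV).1 hp.2 (h1 ((ih h.1 hV).2 hp.1 h2)),
      fun hp h1 h2 => (ih' h.2 hV).2 hp.2 (h1 ((ih h.1 hV).1 hp.1 h2))⟩
  | all φ ih =>
    intro _ _ _ h hV
    exact ⟨fun hp h1 a => (ih h hV).1 hp (h1 a), fun hp h1 a => (ih h hV).2 hp (h1 a)⟩
  | allS φ _ => intro _ _ _ h; exact h.elim

/-- the section with index `0` of `Z` is backward closed for the recursion computing the codes
of the numerals -/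
def backF : Fm :=
  .all (.all (.imp (.mem (prT .zero (prT (.var 1) (.var 0))) 0)
    (((Fm.eq (.var 1) .zero).and (.eq (.var 0) (num (Tm.code .zero)))).or
      (((Fm.eq (.var 3) (.add (.var 1) .one)).and
        ((Fm.eq (.var 2) (prT (num 3) (prT (.var 0) (num (Tm.code .one))))).and
          (.mem (prT .zero (prT (.var 1) (.var 0))) 0))).ex.ex))))

theorem sat_backF {v : ℕ → M.Num} {V : ℕ → Set M.Num} : Sat M v V backF ↔
    ∀ i z, M.pr M.zero (M.pr i z) ∈ V 0 → (i = M.zero ∧ z = M.nat (Tm.code .zero)) ∨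
      ∃ i' z', i = M.add i' M.one ∧ z = M.pr (M.nat 3) (M.pr z' (M.nat (Tm.code .one))) ∧
        M.pr M.zero (M.pr i' z') ∈ V 0 := by
  simp only [backF, Sat, sat_or, sat_and, sat_ex, val_prT, Tm.val, val_num, cons_zero, cons_one,
    cons_two, cons_three]

theorem backF_unique (h : IsACA M) {v : ℕ → M.Num} {V : ℕ → Set M.Num} (hb : Sat M v V backF)
    (n : ℕ) : ∀ z, M.pr M.zero (M.pr (M.nat n) z) ∈ V 0 → z = M.nat (num n).code := by
  rw [sat_backF] at hb
  induction n with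
  | zero =>
    intro z hz
    rcases hb _ _ hz with h1 | ⟨i, z', h1, _⟩
    · exact h1.2
    · exact absurd h1.symm (h.succ_ne i)
  | succ n ih =>
    intro z hz
    rcases hb _ _ hz with h1 | ⟨i, z', h1, h2, h3⟩
    · exact absurd h1.1 (h.succ_ne _)
    · have : M.nat n = i := h.succ_inj _ _ h1
      subst this
      rw [h2, ih z' h3]
      simp only [num, Tm.code, h.nat_pr]

/-- the term computing the code of the diagonal sentence -/
def diagT : Tm :=
  prT (num 6) (prT (num 5) (prT (num 4)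
    (prT (prT (num 0) (prT (num (pr 0 0)) (.var 0))) (prT (num 3) (.var 1)))))

/-- the matrix of the diagonal sentence -/
def matF (Φ θ : Fm) : Fm :=
  backF.and (((Fm.mem (prT .zero (prT (.var 1) (.var 0))) 0).and
    ((plug (secF (.add (.var 0) .one) θ) Φ).inst diagT)).ex)

/-- the diagonal sentence -/
def diagF (μ : Fm) : Fm := .allS (.all (.imp (.eq (.var 0) (num μ.code)) μ.neg))

theorem diagT_val (h : IsACA M) (μ : Fm) (v : ℕ → M.Num) :
    diagT.val M (cons (M.nat (num μ.code).code) (cons (M.nat μ.code) v)) =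
      M.nat (diagF μ).code := by
  simp only [diagT, val_prT, val_num, Tm.val, cons_zero, cons_one, diagF, Fm.code, Tm.code,
    h.nat_pr]

theorem std_isACA : IsACA std := by
  refine ⟨fun a => Nat.succ_ne_zero a, fun a b h => Nat.succ_injective h, fun a => rfl,
    fun a b => rfl, fun a => rfl, fun a b => rfl, fun a => Nat.not_lt_zero a,
    fun a b => Nat.lt_succ_iff_lt_or_eq, fun A _ h0 hs a => ?_, fun _ _ _ _ _ => trivial⟩
  induction a with
  | zero => exact h0
  | succ a ih => exact hs a ih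

theorem backF_arith : backF.Arith := by
  simp [backF, Fm.Arith, Fm.and, Fm.or, Fm.ex]

theorem backF_bd : backF.Bd 1 1 := by
  simp [backF, Fm.Bd, Fm.and, Fm.or, Fm.ex, prT, Tm.Bd, num_bd]

theorem matF_arith {Φ θ : Fm} (hΦ : Φ.Arith) (hθ : θ.Arith) : (matF Φ θ).Arith :=
  ⟨backF_arith, trivial, Fm.arith_subst (plug_arith (secF_arith hθ) hΦ)⟩

theorem matF_bd {Φ θ : Fm} (hΦ : Φ.Arith) (hθ : θ.Arith) (hΦ' : Φ.Bd 1 1) (hθ' : θ.Bd 1 1) :
    (matF Φ θ).Bd 1 1 := by
  refine ⟨backF_bd, ?_, ?_⟩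
  · simp [Fm.Bd, prT, Tm.Bd]
  · refine Fm.bd_subst (n := 1) (m := 1) ?_ (fun _ hj => hj)
      (plug_bd (secF_bd hθ (by simp [Tm.Bd]) hθ') hΦ hΦ')
    intro i hi
    obtain rfl : i = 0 := by omega
    simp [diagT, prT, Tm.Bd, num_bd]

theorem sat_matF {Φ θ : Fm} (hΦ : Φ.Arith) (hθ : θ.Arith) (hΦ' : Φ.Bd 1 1) (hθ' : θ.Bd 1 1)
    {v : ℕ → M.Num} {V : ℕ → Set M.Num} : Sat M v V (matF Φ θ) ↔
      Sat M v V backF ∧ ∃ z, M.pr M.zero (M.pr (v 0) z) ∈ V 0 ∧
        Sat M (fun _ => diagT.val M (cons z v))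
          (fun _ => {y | Sat M (fun _ => y) (fun _ => {w | M.pr (M.add y M.one) w ∈ V 0}) θ}) Φ := by
  simp only [matF, sat_and, sat_ex, Sat, val_prT, Tm.val, cons_zero, cons_one, sat_inst,
    sat_plug (secF_bd hθ (show (Tm.add (.var 0) .one).Bd 1 by simp [Tm.Bd]) hθ') hΦ,
    sat_cons_one hΦ', sat_secF hθ]

/-- The main theorem. -/
theorem main {Φ P Tr : Fm} (hΦ : IsDerivPred Φ) (hP : IsPi11Pred P) (hTr : IsTruthPred Tr)
    {T : Set Fm} (hT : ∀ ψ ∈ T, ψ.IsSentence) (hA : ∀ ψ ∈ ACA0, Prov T ψ)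
    (hs : ∀ φ : Fm, φ.IsPi11 → φ.IsSentence → Prov T φ → TrueAt φ 0 ∅)
    {τ : Fm} (hτ : τ.IsSigma11) (hτb : τ.Bd 1 0)
    (hdef : ∀ n : ℕ, TrueAt τ n ∅ ↔ ∃ ψ ∈ T, ψ.code = n) :
    ¬ Prov T (soundness Φ P Tr τ) := by
  intro hpr
  obtain ⟨θ, hθ, rfl⟩ := hτ
  have hθb : θ.Bd 1 1 := hτb
  obtain ⟨hΦa, hΦb, hΦp, hΦs⟩ := hΦ
  obtain ⟨μ, hμa, hμb, hμ⟩ : ∃ μ : Fm, μ.Arith ∧ μ.Bd 1 1 ∧
      ∀ (M : Model) (v : ℕ → M.Num) (V : ℕ → Set M.Num), Sat M v V μ ↔
      Sat M v V backF ∧ ∃ z, M.pr M.zero (M.pr (v 0) z) ∈ V 0 ∧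
        Sat M (fun _ => diagT.val M (cons z v))
          (fun _ => {y | Sat M (fun _ => y) (fun _ => {w | M.pr (M.add y M.one) w ∈ V 0}) θ}) Φ :=
    ⟨matF Φ θ, matF_arith hΦa hθ, matF_bd hΦa hθ hΦb hθb, fun _ _ _ => sat_matF hΦa hθ hΦb hθb⟩
  have hγ1 : (diagF μ).IsPi11 :=
    ⟨.all (.imp (.eq (.var 0) (num μ.code)) μ.neg), ⟨trivial, hμa⟩, rfl⟩
  have hγ2 : (diagF μ).IsSentence := ⟨⟨Nat.one_pos, num_bd _ _⟩, hμb⟩
  have hγ : Prov T (diagF μ) := by
    apply completeness hT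
    intro M v V hV hM
    have hA' : ∀ ψ ∈ ACA0, Sat M v V ψ := fun ψ hψ => soundness_thm (hA ψ hψ) hV hM
    have h : IsACA M := isACA_of hA'
    by_contra hn
    apply hn
    have e1 := soundness_thm (hTr.2.2 _ hγ1 hγ2) hV hA'
    rw [sat_iff, sat_inst, val_num] at e1
    rw [← e1]
    have e2 := soundness_thm (hP.2.2.2 _ hγ1 hγ2) hV hA'
    rw [sat_inst, val_num] at e2
    refine soundness_thm hpr hV hM _ e2 ?_
    rw [sat_plug hτb hΦa, sat_cons_one hΦb]
    simp only [diagF, Sat, not_forall, not_not, Tm.val, cons_zero, val_num] at hn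
    obtain ⟨Z, hZ, x, rfl, h1⟩ := hn
    rw [hμ] at h1
    obtain ⟨h2, z, h3, h4⟩ := h1
    have hz := backF_unique h h2 _ z h3
    subst hz
    rw [diagT_val h] at h4
    refine (sat_mono hΦa ?_).1 hΦp h4
    intro _ y hy
    simp only [Set.mem_ofPred_eq, sat_exS, cons_zero] at hy ⊢
    refine ⟨{w | M.pr (M.add y M.one) w ∈ Z}, ?_, ?_⟩
    · exact h.compr (.mem (prT (.add (.var 1) .one) (.var 0)) 0) trivial (fun _ => y) (cons Z V)
        (hV.cons hZ)
    · refine (sat_congr (n := 1) (m := 1) (fun _ _ => rfl) ?_ hθb).1 hy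
      intro j hj
      obtain rfl : j = 0 := by omega
      rfl
  have htrue := hs _ hγ1 hγ2 hγ
  have hch : ∀ y : ℕ, ∃ Y : Set ℕ, y ∈ Fm.code '' T → Sat std (fun _ => y) (fun _ => Y) θ := by
    intro y
    by_cases hy : y ∈ Fm.code '' T
    · have := (hdef y).2 hy
      unfold TrueAt at this
      rw [sat_exS] at this
      obtain ⟨Y, _, hY⟩ := this
      refine ⟨Y, fun _ => (sat_congr (n := 1) (m := 1) (fun _ _ => rfl) ?_ hθb).1 hY⟩
      intro j hj
      obtain rfl : j = 0 := by omega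
      rfl
    · exact ⟨∅, fun h => absurd h hy⟩
  choose Y hY using hch
  let Z : Set ℕ := {c | (∃ i, c = pr 0 (pr i (num i).code)) ∨ ∃ y w, c = pr (y + 1) w ∧ w ∈ Y y}
  have hsec : ∀ y : ℕ, {w : ℕ | pr (y + 1) w ∈ Z} = Y y := by
    intro y
    ext w
    simp only [Z, Set.mem_ofPred_eq, pr_eq]
    constructor
    · rintro (⟨i, h1, _⟩ | ⟨y', w', ⟨h1, rfl⟩, h2⟩)
      · omega
      · obtain rfl : y = y' := by omega
        exact h2
    · intro h1
      exact Or.inr ⟨y, w, ⟨rfl, rfl⟩, h1⟩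
  have h5 := htrue Z trivial μ.code (by
    show (μ.code : ℕ) = (num μ.code).val std _
    rw [val_num, std_nat])
  apply h5
  rw [hμ]
  refine ⟨?_, (num μ.code).code, Or.inl ⟨_, rfl⟩, ?_⟩
  · rw [sat_backF]
    intro i z hz
    have hz' : pr 0 (pr i z) ∈ Z := hz
    simp only [Z, Set.mem_ofPred_eq, pr_eq] at hz'
    rcases hz' with ⟨i', _, rfl, rfl⟩ | ⟨y, w, ⟨h1, _⟩, _⟩
    · cases i with
      | zero => exact Or.inl ⟨rfl, (std_nat _).symm⟩
      | succ i =>
        refine Or.inr ⟨i, (num i).code, rfl, ?_, Or.inl ⟨i, rfl⟩⟩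
        rw [std_nat, std_nat]
        rfl
    · omega
  · have e3 := diagT_val std_isACA μ (fun _ => (0 : ℕ))
    rw [std_nat, std_nat, std_nat] at e3
    have e4 : {y : ℕ | Sat std (fun _ => y) (fun _ => {w : ℕ | pr (y + 1) w ∈ Z}) θ} =
        Fm.code '' T := by
      ext y
      rw [Set.mem_ofPred_eq, hsec]
      refine ⟨fun h1 => (hdef y).1 ?_, hY y⟩
      unfold TrueAt
      rw [sat_exS]
      refine ⟨Y y, trivial, (sat_congr (n := 1) (m := 1) (fun _ _ => rfl) ?_ hθb).1 h1⟩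
      intro j hj
      obtain rfl : j = 0 := by omega
      rfl
    have e5 := (hΦs T hT _).2 hγ
    unfold TrueAt at e5
    rw [← e4, ← e3] at e5
    exact e5

end Pool.Agent.H974Z.SOA
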