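import Pool.Agent.H974Z.SOA.Der2

/-! A formula for the codes of Pi-1-1 sentences. -/

set_option autoImplicit false
set_option linter.unusedSimpArgs false

namespace Pool.Agent.H974Z.SOA

open Tm in
/-- the rules -/
def pr11 : ℕ → Rule
  | 0 => ⟨.lt (var 1) (var 0), tg2 0 (var 0) (tg 0 (var 1)), []⟩
  | 1 => ⟨tt, tg2 0 (var 0) (tg 1 (num 0)), []⟩
  | 2 => ⟨tt, tg2 0 (var 0) (tg 2 (num 0)), []⟩
  | 3 => ⟨tt, tg2 0 (var 0) (tg2 3 (var 1) (var 2)), [tg2 0 (var 0) (var 1), tg2 0 (var 0) (var 2)]⟩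
  | 4 => ⟨tt, tg2 0 (var 0) (tg2 4 (var 1) (var 2)), [tg2 0 (var 0) (var 1), tg2 0 (var 0) (var 2)]⟩
  | 5 => ⟨tt, tg2 1 (var 0) (tg2 0 (var 1) (var 2)), [tg2 0 (var 0) (var 1), tg2 0 (var 0) (var 2)]⟩
  | 6 => ⟨tt, tg2 1 (var 0) (tg2 1 (var 1) (var 2)), [tg2 0 (var 0) (var 1), tg2 0 (var 0) (var 2)]⟩
  | 7 => ⟨tt, tg2 1 (var 0) (tg2 2 (var 1) (num 0)), [tg2 0 (var 0) (var 1)]⟩
  | 8 => ⟨tt, tg2 1 (var 0) (tg 3 (var 1)), [tg2 1 (var 0) (var 1)]⟩
  | 9 => ⟨tt, tg2 1 (var 0) (tg2 4 (var 1) (var 2)), [tg2 1 (var 0) (var 1), tg2 1 (var 0) (var 2)]⟩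
  | 10 => ⟨tt, tg2 1 (var 0) (tg 5 (var 1)), [tg2 1 (add (var 0) one) (var 1)]⟩
  | _ => ⟨tt, zero, []⟩

theorem pr11_sig (k : ℕ) : SigPos (pr11 k).cond := by
  unfold pr11
  split <;> first | exact .eq _ _ | exact .lt _ _

/-- the meaning of the judgements -/
def Sem2 (y : ℕ) : Prop :=
  (∃ n, ∃ t : Tm, t.Bd n ∧ y = pr 0 (pr n t.code)) ∨
    ∃ n, ∃ φ : Fm, φ.Arith ∧ φ.Bd n 1 ∧ y = pr 1 (pr n φ.code)

theorem sem2_0 {n c : ℕ} : Sem2 (pr 0 (pr n c)) ↔ ∃ t : Tm, t.Bd n ∧ c = t.code := by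
  simp only [Sem2, pr_eq]
  constructor
  · rintro (⟨n, t, h1, -, rfl, h2⟩ | h)
    · exact ⟨t, h1, h2⟩
    · simp at h
  · rintro ⟨t, h1, h2⟩
    exact Or.inl ⟨n, t, h1, trivial, rfl, h2⟩

theorem sem2_1 {n c : ℕ} : Sem2 (pr 1 (pr n c)) ↔ ∃ φ : Fm, φ.Arith ∧ φ.Bd n 1 ∧ c = φ.code := by
  simp only [Sem2, pr_eq]
  constructor
  · rintro (h | ⟨n, t, h0, h1, -, rfl, h2⟩)
    · simp at h
    · exact ⟨t, h0, h1, h2⟩
  · rintro ⟨t, h0, h1, h2⟩
    exact Or.inr ⟨n, t, h0, h1, trivial, rfl, h2⟩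

variable {A : Set ℕ}

theorem gen2_sound {y : ℕ} (h : Gen pr11 11 A y) : Sem2 y := by
  refine Gen.ind (S := Sem2) ?_ h
  intro k hk a0 a1 a2 a3 a4 a5 a6 a7 a8 a9 hc hp
  interval_cases k
  all_goals
    simp only [pr11, List.mem_cons, List.not_mem_nil, or_false, forall_eq_or_imp, forall_eq,
      val_tg, val_tg2, val_num_std, val_var_std, val_add_std, val_one_std, ten0,
      ten1, ten2, sem2_0, sem2_1, sat_lt_std] at hc hp ⊢
  · exact ⟨.var a1, hc, rfl⟩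
  · exact ⟨.zero, trivial, rfl⟩
  · exact ⟨.one, trivial, rfl⟩
  · obtain ⟨⟨s, h1, rfl⟩, t, h2, rfl⟩ := hp
    exact ⟨.add s t, ⟨h1, h2⟩, rfl⟩
  · obtain ⟨⟨s, h1, rfl⟩, t, h2, rfl⟩ := hp
    exact ⟨.mul s t, ⟨h1, h2⟩, rfl⟩
  · obtain ⟨⟨s, h1, rfl⟩, t, h2, rfl⟩ := hp
    exact ⟨.eq s t, trivial, ⟨h1, h2⟩, rfl⟩
  · obtain ⟨⟨s, h1, rfl⟩, t, h2, rfl⟩ := hp
    exact ⟨.lt s t, trivial, ⟨h1, h2⟩, rfl⟩
  · obtain ⟨s, h1, rfl⟩ := hp
    exact ⟨.mem s 0, trivial, ⟨h1, Nat.one_pos⟩, rfl⟩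
  · obtain ⟨φ, h1, h2, rfl⟩ := hp
    exact ⟨.neg φ, h1, h2, rfl⟩
  · obtain ⟨⟨φ, h1, h2, rfl⟩, ψ, h3, h4, rfl⟩ := hp
    exact ⟨.imp φ ψ, ⟨h1, h3⟩, ⟨h2, h4⟩, rfl⟩
  · obtain ⟨φ, h1, h2, rfl⟩ := hp
    exact ⟨.all φ, h1, h2, rfl⟩

theorem gen2_tm {n : ℕ} {t : Tm} (h : t.Bd n) : Gen pr11 11 A (pr 0 (pr n t.code)) := by
  induction t with
  | var i =>
    refine Gen.use 0 (by norm_num) n i 0 0 0 0 0 0 0 0 ?_
    simp only [pr11, List.mem_cons, List.not_mem_nil, or_false, forall_eq_or_imp, forall_eq,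
      val_tg, val_tg2, val_num_std, val_var_std, val_add_std, val_one_std, ten0,
      ten1, ten2, ten3, ten4, ten5, ten6, ten7, ten8, ten9, sat_tt, sat_lt_std, sat_mem_std,
      true_and, IsEmpty.forall_iff, implies_true, and_true, Tm.code, Fm.code]
    exact h
  | zero =>
    refine Gen.use 1 (by norm_num) n 0 0 0 0 0 0 0 0 0 ?_
    simp only [pr11, List.mem_cons, List.not_mem_nil, or_false, forall_eq_or_imp, forall_eq,
      val_tg, val_tg2, val_num_std, val_var_std, val_add_std, val_one_std, ten0,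
      ten1, ten2, ten3, ten4, ten5, ten6, ten7, ten8, ten9, sat_tt, sat_lt_std, sat_mem_std,
      true_and, IsEmpty.forall_iff, implies_true, and_true, Tm.code, Fm.code]
  | one =>
    refine Gen.use 2 (by norm_num) n 0 0 0 0 0 0 0 0 0 ?_
    simp only [pr11, List.mem_cons, List.not_mem_nil, or_false, forall_eq_or_imp, forall_eq,
      val_tg, val_tg2, val_num_std, val_var_std, val_add_std, val_one_std, ten0,
      ten1, ten2, ten3, ten4, ten5, ten6, ten7, ten8, ten9, sat_tt, sat_lt_std, sat_mem_std,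
      true_and, IsEmpty.forall_iff, implies_true, and_true, Tm.code, Fm.code]
  | add s t ihs iht =>
    refine Gen.use 3 (by norm_num) n s.code t.code 0 0 0 0 0 0 0 ?_
    simp only [pr11, List.mem_cons, List.not_mem_nil, or_false, forall_eq_or_imp, forall_eq,
      val_tg, val_tg2, val_num_std, val_var_std, val_add_std, val_one_std, ten0,
      ten1, ten2, ten3, ten4, ten5, ten6, ten7, ten8, ten9, sat_tt, sat_lt_std, sat_mem_std,
      true_and, IsEmpty.forall_iff, implies_true, and_true, Tm.code, Fm.code]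
    exact ⟨ihs h.1, iht h.2⟩
  | mul s t ihs iht =>
    refine Gen.use 4 (by norm_num) n s.code t.code 0 0 0 0 0 0 0 ?_
    simp only [pr11, List.mem_cons, List.not_mem_nil, or_false, forall_eq_or_imp, forall_eq,
      val_tg, val_tg2, val_num_std, val_var_std, val_add_std, val_one_std, ten0,
      ten1, ten2, ten3, ten4, ten5, ten6, ten7, ten8, ten9, sat_tt, sat_lt_std, sat_mem_std,
      true_and, IsEmpty.forall_iff, implies_true, and_true, Tm.code, Fm.code]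
    exact ⟨ihs h.1, iht h.2⟩

theorem gen2_fm {φ : Fm} : ∀ {n : ℕ}, φ.Arith → φ.Bd n 1 → Gen pr11 11 A (pr 1 (pr n φ.code)) := by
  induction φ with
  | eq s t =>
    intro n _ h
    refine Gen.use 5 (by norm_num) n s.code t.code 0 0 0 0 0 0 0 ?_
    simp only [pr11, List.mem_cons, List.not_mem_nil, or_false, forall_eq_or_imp, forall_eq,
      val_tg, val_tg2, val_num_std, val_var_std, val_add_std, val_one_std, ten0,
      ten1, ten2, ten3, ten4, ten5, ten6, ten7, ten8, ten9, sat_tt, sat_lt_std, sat_mem_std,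
      true_and, IsEmpty.forall_iff, implies_true, and_true, Tm.code, Fm.code]
    exact ⟨gen2_tm h.1, gen2_tm h.2⟩
  | lt s t =>
    intro n _ h
    refine Gen.use 6 (by norm_num) n s.code t.code 0 0 0 0 0 0 0 ?_
    simp only [pr11, List.mem_cons, List.not_mem_nil, or_false, forall_eq_or_imp, forall_eq,
      val_tg, val_tg2, val_num_std, val_var_std, val_add_std, val_one_std, ten0,
      ten1, ten2, ten3, ten4, ten5, ten6, ten7, ten8, ten9, sat_tt, sat_lt_std, sat_mem_std,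
      true_and, IsEmpty.forall_iff, implies_true, and_true, Tm.code, Fm.code]
    exact ⟨gen2_tm h.1, gen2_tm h.2⟩
  | mem t j =>
    intro n _ h
    obtain rfl : j = 0 := Nat.lt_one_iff.1 h.2
    refine Gen.use 7 (by norm_num) n t.code 0 0 0 0 0 0 0 0 ?_
    simp only [pr11, List.mem_cons, List.not_mem_nil, or_false, forall_eq_or_imp, forall_eq,
      val_tg, val_tg2, val_num_std, val_var_std, val_add_std, val_one_std, ten0,
      ten1, ten2, ten3, ten4, ten5, ten6, ten7, ten8, ten9, sat_tt, sat_lt_std, sat_mem_std,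
      true_and, IsEmpty.forall_iff, implies_true, and_true, Tm.code, Fm.code]
    exact gen2_tm h.1
  | neg φ ih =>
    intro n h0 h
    refine Gen.use 8 (by norm_num) n φ.code 0 0 0 0 0 0 0 0 ?_
    simp only [pr11, List.mem_cons, List.not_mem_nil, or_false, forall_eq_or_imp, forall_eq,
      val_tg, val_tg2, val_num_std, val_var_std, val_add_std, val_one_std, ten0,
      ten1, ten2, ten3, ten4, ten5, ten6, ten7, ten8, ten9, sat_tt, sat_lt_std, sat_mem_std,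
      true_and, IsEmpty.forall_iff, implies_true, and_true, Tm.code, Fm.code]
    exact ih h0 h
  | imp φ ψ ih ih' =>
    intro n h0 h
    refine Gen.use 9 (by norm_num) n φ.code ψ.code 0 0 0 0 0 0 0 ?_
    simp only [pr11, List.mem_cons, List.not_mem_nil, or_false, forall_eq_or_imp, forall_eq,
      val_tg, val_tg2, val_num_std, val_var_std, val_add_std, val_one_std, ten0,
      ten1, ten2, ten3, ten4, ten5, ten6, ten7, ten8, ten9, sat_tt, sat_lt_std, sat_mem_std,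
      true_and, IsEmpty.forall_iff, implies_true, and_true, Tm.code, Fm.code]
    exact ⟨ih h0.1 h.1, ih' h0.2 h.2⟩
  | all φ ih =>
    intro n h0 h
    refine Gen.use 10 (by norm_num) n φ.code 0 0 0 0 0 0 0 0 ?_
    simp only [pr11, List.mem_cons, List.not_mem_nil, or_false, forall_eq_or_imp, forall_eq,
      val_tg, val_tg2, val_num_std, val_var_std, val_add_std, val_one_std, ten0,
      ten1, ten2, ten3, ten4, ten5, ten6, ten7, ten8, ten9, sat_tt, sat_lt_std, sat_mem_std,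
      true_and, IsEmpty.forall_iff, implies_true, and_true, Tm.code, Fm.code]
    exact ih h0 h
  | allS φ _ => intro n h0; exact h0.elim

theorem isACA'_of {M : Model} {v : ℕ → M.Num} {V : ℕ → Set M.Num} (hV : SetAsg M V)
    (h : ∀ ψ ∈ ACA0, Sat M v V ψ) : IsACA' M := ⟨isACA_of h, V 0, hV 0⟩

theorem bd_all_iter (n : ℕ) : ∀ {k m : ℕ} {ψ : Fm}, ψ.Bd (k + n) m → (Fm.all^[n] ψ).Bd k m := by
  induction n with
  | zero => intro k m ψ h; exact h
  | succ n ih =>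
    intro k m ψ h
    rw [Function.iterate_succ_apply]
    exact ih h

theorem bd_allS_iter (n : ℕ) : ∀ {k m : ℕ} {ψ : Fm}, ψ.Bd k (m + n) → (Fm.allS^[n] ψ).Bd k m := by
  induction n with
  | zero => intro k m ψ h; exact h
  | succ n ih =>
    intro k m ψ h
    rw [Function.iterate_succ_apply]
    exact ih h

theorem aca_sentence : ∀ ψ ∈ ACA0, ψ.IsSentence := by
  rintro ψ (h | ⟨φ, n, m, _, h2, rfl⟩)
  · simp only [basicAxioms, List.mem_cons, List.not_mem_nil, or_false] at h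
    rcases h with rfl | rfl | rfl | rfl | rfl | rfl | rfl | rfl | rfl <;>
      simp [Fm.IsSentence, Fm.Bd, Tm.Bd, Fm.iff, Fm.and, Fm.or]
  · apply bd_allS_iter
    apply bd_all_iter
    rw [Nat.zero_add, Nat.zero_add]
    have h3 : φ.liftS.Bd (n + 1) (m + 1) :=
      Fm.bd_subst (σ := Tm.var) (fun _ hi => hi) (fun _ hj => Nat.succ_lt_succ hj) h2
    exact ⟨⟨⟨Nat.succ_pos _, Nat.succ_pos _⟩, h3⟩, h3, Nat.succ_pos _, Nat.succ_pos _⟩

theorem exists_pi11Pred : ∃ P, IsPi11Pred P := by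
  obtain ⟨φ, h1, h2, h3⟩ := SD.normal
    (R := fun n A => ∃ y, n = pr 6 y ∧ Gen pr11 11 A (pr 1 (pr 0 y)))
    (SD.ex (SD.and (SD.eq (TD.var _) ((TD.const 6).pr (TD.var 0)))
      (SD.gen pr11_sig 11 ((TD.const 1).pr ((TD.const 0).pr (TD.var 0))))))
  have hb : (Fm.lt (.var 0) .zero).Bd 1 0 := ⟨Nat.one_pos, trivial⟩
  have h4 : ∀ n, TrueAt φ n ∅ ↔ ∃ ψ : Fm, ψ.IsPi11 ∧ ψ.IsSentence ∧ ψ.code = n := by
    intro n
    rw [h3]
    constructor
    · rintro ⟨y, rfl, h⟩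
      obtain ⟨θ, h5, h6, rfl⟩ := sem2_1.1 (gen2_sound h)
      exact ⟨θ.allS, ⟨θ, h5, rfl⟩, h6, rfl⟩
    · rintro ⟨_, ⟨θ, h5, rfl⟩, h6, rfl⟩
      exact ⟨θ.code, rfl, gen2_fm h5 h6⟩
  refine ⟨plug (.lt (.var 0) .zero) φ, plug_arith (τ := .lt (.var 0) .zero) trivial h1.arith, plug_bd hb h1.arith h2,
    fun n => ?_, fun ψ h5 h6 => ?_⟩
  · rw [← h4]
    unfold TrueAt
    rw [sat_plug hb h1.arith]
    have : {y : ℕ | Sat std (fun _ => y) (fun _ => ∅) (.lt (.var 0) .zero)} = ∅ := by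
      ext y
      simp [Tm.val]
    rw [this]
  · apply completeness aca_sentence
    intro M v V hV hM
    have h := isACA'_of hV hM
    rw [sat_inst, val_num, sat_plug hb h1.arith, sat_cons_one h2]
    exact h1.persist h (fun _ => ψ.code) _ ((h4 _).2 ⟨ψ, h5, h6, rfl⟩)

end Pool.Agent.H974Z.SOA
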