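import Pool.Agent.H974Z.SOA.Arith

/-! Positive existential formulas with bounded universal quantifiers; inductive definitions. -/

set_option autoImplicit false

namespace Pool.Agent.H974Z.SOA

/-- positive Sigma formulas -/
inductive SigPos : Fm → Prop
  | eq (s t : Tm) : SigPos (.eq s t)
  | lt (s t : Tm) : SigPos (.lt s t)
  | mem (t : Tm) (j : ℕ) : SigPos (.mem t j)
  | and {φ ψ : Fm} : SigPos φ → SigPos ψ → SigPos (φ.and ψ)
  | or {φ ψ : Fm} : SigPos φ → SigPos ψ → SigPos (φ.or ψ)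
  | ex {φ : Fm} : SigPos φ → SigPos φ.ex
  | ball (t : Tm) {φ : Fm} : SigPos φ → SigPos (.all (.imp (.lt (.var 0) t.shift) φ))

theorem SigPos.arith {φ : Fm} (h : SigPos φ) : φ.Arith := by
  induction h with
  | eq s t => trivial
  | lt s t => trivial
  | mem t j => trivial
  | and _ _ ih ih' => exact ⟨ih, ih'⟩
  | or _ _ ih ih' => exact ⟨ih, ih'⟩
  | ex _ ih => exact ih
  | ball t _ ih => exact ⟨trivial, ih⟩

theorem SigPos.pol {φ : Fm} (h : SigPos φ) : φ.Pol true := by
  induction h with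
  | eq s t => trivial
  | lt s t => trivial
  | mem t j => rfl
  | and _ _ ih ih' => exact ⟨ih, ih'⟩
  | or _ _ ih ih' => exact ⟨ih, ih'⟩
  | ex _ ih => exact ih
  | ball t _ ih => exact ⟨trivial, ih⟩

theorem SigPos.subst {φ : Fm} (h : SigPos φ) : ∀ (σ : ℕ → Tm) (ρ : ℕ → ℕ),
    SigPos (φ.subst σ ρ) := by
  induction h with
  | eq s t => intro σ ρ; exact .eq _ _
  | lt s t => intro σ ρ; exact .lt _ _
  | mem t j => intro σ ρ; exact .mem _ _
  | and _ _ ih ih' => intro σ ρ; exact .and (ih σ ρ) (ih' σ ρ)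
  | or _ _ ih ih' => intro σ ρ; exact .or (ih σ ρ) (ih' σ ρ)
  | ex _ ih => intro σ ρ; exact .ex (ih _ ρ)
  | @ball t φ _ ih =>
    intro σ ρ
    have e : t.shift.subst (up σ) = (t.subst σ).shift := by
      unfold up
      rw [Tm.shift_subst_cons]
      unfold Tm.shift
      rw [Tm.subst_subst]
    show SigPos (.all (.imp (.lt (.var 0) (t.shift.subst (up σ))) (φ.subst (up σ) ρ)))
    rw [e]
    exact .ball _ (ih _ _)

variable {M : Model}

theorem SigPos.persist (h : IsACA' M) {φ : Fm} (hφ : SigPos φ) :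
    ∀ (v : ℕ → ℕ) (V : ℕ → Set M.Num), Sat std v (fun _ => ∅) φ →
      Sat M (fun i => M.nat (v i)) V φ := by
  have e : ∀ (a : ℕ) (v : ℕ → ℕ), cons (M.nat a) (fun i => M.nat (v i)) =
      fun i => M.nat (cons a v i) := by
    intro a v
    funext i
    cases i <;> rfl
  induction hφ with
  | eq s t =>
    intro v V h1
    show _ = _
    rw [h.val_nat, h.val_nat]
    exact congrArg _ h1
  | lt s t =>
    intro v V h1
    show M.lt _ _
    rw [h.val_nat, h.val_nat]
    exact h.nat_lt h1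
  | mem t j => intro v V h1; exact h1.elim
  | and _ _ ih ih' =>
    intro v V h1
    rw [sat_and] at h1 ⊢
    exact ⟨ih v V h1.1, ih' v V h1.2⟩
  | or _ _ ih ih' =>
    intro v V h1
    rw [sat_or] at h1 ⊢
    exact h1.imp (ih v V) (ih' v V)
  | ex _ ih =>
    intro v V h1
    rw [sat_ex] at h1 ⊢
    obtain ⟨a, ha⟩ := h1
    exact ⟨M.nat a, by rw [e]; exact ih _ V ha⟩
  | ball t _ ih =>
    intro v V h1 x hx
    have hx' : M.lt x (t.shift.val M (cons x fun i => M.nat (v i))) := hx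
    rw [Tm.val_shift, h.val_nat] at hx'
    obtain ⟨a, ha, rfl⟩ := h.lt_nat hx'
    rw [e]
    refine ih _ V (h1 a ?_)
    show a < t.shift.val std (cons a v)
    rw [Tm.val_shift]
    exact ha

/-- functions given by terms -/
def TD (f : (ℕ → ℕ) → ℕ) : Prop := ∃ t : Tm, ∀ v, t.val std v = f v

/-- relations given by positive Sigma formulas -/
def SD (R : (ℕ → ℕ) → Set ℕ → Prop) : Prop :=
  ∃ φ, SigPos φ ∧ ∀ (v : ℕ → ℕ) (A : Set ℕ), Sat std v (fun _ => A) φ ↔ R v A

theorem TD.var (i : ℕ) : TD fun v => v i := ⟨.var i, fun _ => rfl⟩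

theorem TD.const (c : ℕ) : TD fun _ => c := ⟨num c, fun v => by rw [val_num, std_nat]⟩

theorem TD.add {f g : (ℕ → ℕ) → ℕ} (hf : TD f) (hg : TD g) : TD fun v => f v + g v := by
  obtain ⟨s, hs⟩ := hf
  obtain ⟨t, ht⟩ := hg
  exact ⟨.add s t, fun v => by simp only [Tm.val, hs, ht]⟩

theorem TD.mul {f g : (ℕ → ℕ) → ℕ} (hf : TD f) (hg : TD g) : TD fun v => f v * g v := by
  obtain ⟨s, hs⟩ := hf
  obtain ⟨t, ht⟩ := hg
  exact ⟨.mul s t, fun v => by simp only [Tm.val, hs, ht]⟩

theorem TD.pr {f g : (ℕ → ℕ) → ℕ} (hf : TD f) (hg : TD g) : TD fun v => pr (f v) (g v) :=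
  ((hf.add hg).mul (hf.add hg)).add hf

theorem TD.term (t : Tm) {F : ℕ → (ℕ → ℕ) → ℕ} (hF : ∀ i, TD (F i)) :
    TD fun v => t.val std fun i => F i v := by
  choose σ hσ using hF
  exact ⟨t.subst σ, fun v => by rw [Tm.val_subst]; simp only [hσ]⟩

theorem SD.congr {R R' : (ℕ → ℕ) → Set ℕ → Prop} (h : SD R) (e : ∀ v A, R v A ↔ R' v A) :
    SD R' := by
  obtain ⟨φ, h1, h2⟩ := h
  exact ⟨φ, h1, fun v A => (h2 v A).trans (e v A)⟩

theorem SD.eq {f g : (ℕ → ℕ) → ℕ} (hf : TD f) (hg : TD g) : SD fun v _ => f v = g v := by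
  obtain ⟨s, hs⟩ := hf
  obtain ⟨t, ht⟩ := hg
  exact ⟨.eq s t, .eq s t, fun v A => by simp only [Sat, hs, ht]⟩

theorem SD.lt {f g : (ℕ → ℕ) → ℕ} (hf : TD f) (hg : TD g) : SD fun v _ => f v < g v := by
  obtain ⟨s, hs⟩ := hf
  obtain ⟨t, ht⟩ := hg
  exact ⟨.lt s t, .lt s t, fun v A => by simp only [Sat, hs, ht]⟩

theorem SD.and {R R' : (ℕ → ℕ) → Set ℕ → Prop} (h : SD R) (h' : SD R') :
    SD fun v A => R v A ∧ R' v A := by
  obtain ⟨φ, h1, h2⟩ := h
  obtain ⟨ψ, h3, h4⟩ := h'
  exact ⟨φ.and ψ, .and h1 h3, fun v A => by rw [sat_and, h2, h4]⟩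

theorem SD.or {R R' : (ℕ → ℕ) → Set ℕ → Prop} (h : SD R) (h' : SD R') :
    SD fun v A => R v A ∨ R' v A := by
  obtain ⟨φ, h1, h2⟩ := h
  obtain ⟨ψ, h3, h4⟩ := h'
  exact ⟨φ.or ψ, .or h1 h3, fun v A => by rw [sat_or, h2, h4]⟩

theorem SD.ex' {R : (ℕ → ℕ) → Set ℕ → Prop} (h : SD R) :
    SD fun v A => ∃ a, R (cons a v) A := by
  obtain ⟨φ, h1, h2⟩ := h
  exact ⟨φ.ex, .ex h1, fun v A => by simp only [sat_ex, h2]⟩

theorem SD.ex {R : ℕ → (ℕ → ℕ) → Set ℕ → Prop}
    (h : SD fun v A => R (v 0) (fun i => v (i + 1)) A) : SD fun v A => ∃ a, R a v A :=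
  h.ex'

theorem SD.ball {R : ℕ → (ℕ → ℕ) → Set ℕ → Prop} {f : (ℕ → ℕ) → ℕ} (hf : TD f)
    (h : SD fun v A => R (v 0) (fun i => v (i + 1)) A) :
    SD fun v A => ∀ a, a < f v → R a v A := by
  obtain ⟨φ, h1, h2⟩ := h
  obtain ⟨t, ht⟩ := hf
  refine ⟨_, .ball t h1, fun v A => ?_⟩
  have e : ∀ a : ℕ, t.shift.val std (cons a v) = f v := fun a =>
    (Tm.val_shift (M := std) v a t).trans (ht v)
  simp only [Sat, Tm.val, cons_zero, e, h2, cons_succ]

theorem SD.subst {R : (ℕ → ℕ) → Set ℕ → Prop} (h : SD R) {F : ℕ → (ℕ → ℕ) → ℕ}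
    (hF : ∀ i, TD (F i)) : SD fun v A => R (fun i => F i v) A := by
  obtain ⟨φ, h1, h2⟩ := h
  choose σ hσ using hF
  exact ⟨φ.subst σ id, h1.subst _ _, fun v A => by rw [sat_subst]; simp only [hσ, h2]⟩

theorem SD.sat {φ : Fm} (h : SigPos φ) : SD fun v A => Sat std v (fun _ => A) φ :=
  ⟨φ, h, fun _ _ => Iff.rfl⟩

theorem SD.true : SD fun _ _ => True := (SD.eq (TD.const 0) (TD.const 0)).congr (by simp)

theorem SD.false : SD fun _ _ => False := (SD.lt (TD.const 0) (TD.const 0)).congr (by simp)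

theorem SD.finEx {R : ℕ → (ℕ → ℕ) → Set ℕ → Prop} (h : ∀ k, SD (R k)) (N : ℕ) :
    SD fun v A => ∃ k, k < N ∧ R k v A := by
  induction N with
  | zero => exact SD.false.congr (by simp)
  | succ N ih =>
    refine (ih.or (h N)).congr fun v A => ?_
    constructor
    · rintro (⟨k, h1, h2⟩ | h1)
      · exact ⟨k, by omega, h2⟩
      · exact ⟨N, by omega, h1⟩
    · rintro ⟨k, h1, h2⟩
      rcases Nat.lt_succ_iff_lt_or_eq.1 h1 with h3 | rfl
      · exact Or.inl ⟨k, h3, h2⟩
      · exact Or.inr h2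

theorem SD.listAll {α : Type} {R : α → (ℕ → ℕ) → Set ℕ → Prop} (h : ∀ t, SD (R t)) (l : List α) :
    SD fun v A => ∀ t ∈ l, R t v A := by
  induction l with
  | nil => exact SD.true.congr (by simp)
  | cons a l ih => exact ((h a).and ih).congr (by simp)

/-- a list in front of a sequence -/
def appL : List ℕ → (ℕ → ℕ) → ℕ → ℕ
  | [], v => v
  | a :: l, v => cons a (appL l v)

theorem SD.exL (m : ℕ) : ∀ {R : (ℕ → ℕ) → Set ℕ → Prop}, SD R →
    SD fun v A => ∃ l : List ℕ, l.length = m ∧ R (appL l v) A := by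
  induction m with
  | zero =>
    intro R h
    refine h.congr fun v A => ⟨fun h1 => ⟨[], rfl, h1⟩, ?_⟩
    rintro ⟨l, h1, h2⟩
    rw [List.length_eq_zero_iff] at h1
    subst h1
    exact h2
  | succ m ih =>
    intro R h
    refine (ih h.ex').congr fun v A => ?_
    constructor
    · rintro ⟨l, h1, a, h2⟩
      exact ⟨a :: l, by simp [h1], h2⟩
    · rintro ⟨l, h1, h2⟩
      cases l with
      | nil => simp at h1
      | cons a l => exact ⟨l, by simpa using h1, a, h2⟩

theorem appL_add (l : List ℕ) (v : ℕ → ℕ) (i : ℕ) : appL l v (i + l.length) = v i := by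
  induction l with
  | nil => rfl
  | cons a l ih => exact ih

theorem appL_trunc (l : List ℕ) (v : ℕ → ℕ) :
    (fun i => if i < l.length then appL l v i else 0) = appL l fun _ => 0 := by
  induction l with
  | nil => funext i; simp [appL]
  | cons a l ih =>
    funext i
    cases i with
    | zero => simp [appL]
    | succ i => simpa [appL] using congrFun ih i

/-- a rule: side condition, conclusion, premises -/
structure Rule where
  cond : Fm
  concl : Tm
  prems : List Tm

/-- `y` follows by one of the rules from elements of `S` -/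
def Just (rule : ℕ → Rule) (N : ℕ) (A : Set ℕ) (y : ℕ) (S : ℕ → Prop) : Prop :=
  ∃ k, k < N ∧ ∃ l : List ℕ, l.length = 10 ∧
    Sat std (appL l fun _ => 0) (fun _ => A) (rule k).cond ∧
      y = (rule k).concl.val std (appL l fun _ => 0) ∧
      ∀ t ∈ (rule k).prems, S (t.val std (appL l fun _ => 0))

theorem Just.mono {rule : ℕ → Rule} {N : ℕ} {A : Set ℕ} {y : ℕ} {S S' : ℕ → Prop}
    (h : Just rule N A y S) (hS : ∀ z, S z → S' z) : Just rule N A y S' := by
  obtain ⟨k, h1, l, h2, h3, h4, h5⟩ := h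
  exact ⟨k, h1, l, h2, h3, h4, fun t ht => hS _ (h5 t ht)⟩

theorem SD.just {rule : ℕ → Rule} (hr : ∀ k, SigPos (rule k).cond) (N : ℕ)
    {Y : (ℕ → ℕ) → ℕ} (hY : TD Y) {G : ℕ → (ℕ → ℕ) → Prop}
    (hG : SD fun v _ => G (v 0) fun i => v (i + 1)) :
    SD fun v A => Just rule N A (Y v) fun z => G z v := by
  refine SD.finEx (fun k => ?_) N
  have hF : ∀ i, TD fun w : ℕ → ℕ => if i < 10 then w i else 0 := by
    intro i
    by_cases hi : i < 10
    · simp only [hi, if_true]; exact TD.var i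
    · simp only [hi, if_false]; exact TD.const 0
  obtain ⟨ty, hty⟩ := hY
  have h1 : SD fun w A => Sat std (fun i => if i < 10 then w i else 0) (fun _ => A) (rule k).cond ∧
      ty.val std (fun i => w (i + 10)) =
        (rule k).concl.val std (fun i => if i < 10 then w i else 0) ∧
      ∀ t ∈ (rule k).prems,
        G (t.val std fun i => if i < 10 then w i else 0) fun i => w (i + 10) := by
    refine ((SD.sat (hr k)).subst hF).and ((SD.eq (TD.term _ fun i => TD.var _)
      (TD.term _ hF)).and (SD.listAll (fun t => ?_) _))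
    have hF2 : ∀ i, TD fun w : ℕ → ℕ =>
        cons (t.val std fun i => if i < 10 then w i else 0) (fun i => w (i + 10)) i := by
      intro i
      cases i with
      | zero => exact TD.term _ hF
      | succ i => exact TD.var _
    exact hG.subst hF2
  refine (SD.exL 10 h1).congr fun v A => exists_congr fun l => and_congr_right fun hl => ?_
  have e1 := appL_trunc l v
  have e2 : (fun i => appL l v (i + 10)) = v := by
    funext i
    rw [← hl]
    exact appL_add l v i
  rw [hl] at e1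
  rw [e1, e2, hty]

/-- the set generated by the rules -/
inductive Gen (rule : ℕ → Rule) (N : ℕ) (A : Set ℕ) : ℕ → Prop
  | mk (k : ℕ) (hk : k < N) (l : List ℕ) (hl : l.length = 10)
      (hc : Sat std (appL l fun _ => 0) (fun _ => A) (rule k).cond)
      (hp : ∀ t ∈ (rule k).prems, Gen rule N A (t.val std (appL l fun _ => 0))) :
      Gen rule N A ((rule k).concl.val std (appL l fun _ => 0))

/-- derivations as lists -/
def Good (rule : ℕ → Rule) (N : ℕ) (A : Set ℕ) : List ℕ → Prop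
  | [] => True
  | y :: l => Good rule N A l ∧ Just rule N A y fun z => z ∈ l

section
variable {rule : ℕ → Rule} {N : ℕ} {A : Set ℕ}

theorem Good.append {l1 l2 : List ℕ} (h1 : Good rule N A l1) (h2 : Good rule N A l2) :
    Good rule N A (l1 ++ l2) := by
  induction l1 with
  | nil => exact h2
  | cons y l ih => exact ⟨ih h1.1, h1.2.mono fun z hz => List.mem_append_left _ hz⟩

theorem Gen.good {y : ℕ} (h : Gen rule N A y) : ∃ l, Good rule N A l ∧ y ∈ l := by
  induction h with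
  | mk k hk l hl hc _ ih =>
    have h1 : ∀ L : List Tm, (∀ t ∈ L, t ∈ (rule k).prems) → ∃ l', Good rule N A l' ∧
        ∀ t ∈ L, t.val std (appL l fun _ => 0) ∈ l' := by
      intro L
      induction L with
      | nil => intro _; exact ⟨[], trivial, by simp⟩
      | cons t L ihL =>
        intro hL
        obtain ⟨l1, h1, h2⟩ := ihL fun t ht => hL t (List.mem_cons_of_mem _ ht)
        obtain ⟨l2, h3, h4⟩ := ih t (hL t List.mem_cons_self)
        refine ⟨l1 ++ l2, h1.append h3, fun t' ht' => ?_⟩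
        rcases List.mem_cons.1 ht' with rfl | ht'
        · exact List.mem_append_right _ h4
        · exact List.mem_append_left _ (h2 t' ht')
    obtain ⟨l', h2, h3⟩ := h1 _ fun _ h => h
    exact ⟨_ :: l', ⟨h2, k, hk, l, hl, hc, rfl, h3⟩, List.mem_cons_self⟩

theorem Good.idx {l : List ℕ} (h : Good rule N A l) : ∀ i, i < l.length →
    Just rule N A (l.getD i 0) fun z => ∃ j, i < j ∧ j < l.length ∧ l.getD j 0 = z := by
  induction l with
  | nil => intro i hi; simp at hi
  | cons y l ih =>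
    intro i hi
    cases i with
    | zero =>
      refine h.2.mono fun z hz => ?_
      obtain ⟨j, hj, rfl⟩ := List.mem_iff_getElem.1 hz
      exact ⟨j + 1, by omega, by simpa using hj, by simp [hj]⟩
    | succ i =>
      refine (ih h.1 i (by simpa using hi)).mono ?_
      rintro z ⟨j, h1, h2, h3⟩
      exact ⟨j + 1, by omega, by simpa using h2, by simpa using h3⟩

theorem gen_iff {x : ℕ} : Gen rule N A x ↔ ∃ c d n : ℕ,
    (∃ i, i < n ∧ c % ((i + 1) * d + 1) = x) ∧ ∀ i, i < n → ∃ y, c % ((i + 1) * d + 1) = y ∧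
      Just rule N A y fun z => ∃ j, i < j ∧ j < n ∧ c % ((j + 1) * d + 1) = z := by
  constructor
  · intro h
    obtain ⟨l, h1, h2⟩ := h.good
    have hb : ∀ i, i < l.length →
        (Nat.unbeta l).unpair.1 % ((i + 1) * (Nat.unbeta l).unpair.2 + 1) = l.getD i 0 := by
      intro i hi
      have := Nat.beta_unbeta_coe l ⟨i, hi⟩
      simp only [Nat.beta] at this
      rw [this]
      simp [hi]
    refine ⟨(Nat.unbeta l).unpair.1, (Nat.unbeta l).unpair.2, l.length, ?_, fun i hi => ⟨_, hb i hi, ?_⟩⟩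
    · obtain ⟨j, hj, rfl⟩ := List.mem_iff_getElem.1 h2
      exact ⟨j, hj, by rw [hb j hj]; simp [hj]⟩
    · refine (h1.idx i hi).mono ?_
      rintro z ⟨j, h3, h4, h5⟩
      exact ⟨j, h3, h4, by rw [hb j h4, h5]⟩
  · rintro ⟨c, d, n, ⟨i, hi, rfl⟩, h⟩
    have : ∀ m i, i < n → n - i ≤ m → Gen rule N A (c % ((i + 1) * d + 1)) := by
      intro m
      induction m with
      | zero => intro i h1 h2; omega
      | succ m ih =>
        intro i h1 h2
        obtain ⟨y, h3, k, hk, l, hl, hc, h4, h5⟩ := h i h1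
        rw [h3, h4]
        refine Gen.mk k hk l hl hc fun t ht => ?_
        obtain ⟨j, h6, h7, h8⟩ := h5 t ht
        rw [← h8]
        exact ih j h7 (by omega)
    exact this _ i hi le_rfl

end

theorem SD.mod {c m y : (ℕ → ℕ) → ℕ} (hc : TD c) (hm : TD m) (hy : TD y) :
    SD fun v _ => c v % (m v + 1) = y v := by
  obtain ⟨tc, htc⟩ := hc
  obtain ⟨tm, htm⟩ := hm
  obtain ⟨ty, hty⟩ := hy
  have h1 : SD fun v _ => ∃ q, tc.val std v = q * (tm.val std v + 1) + ty.val std v ∧
      ty.val std v < tm.val std v + 1 := by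
    refine SD.ex (SD.and (SD.eq (TD.term _ fun i => TD.var _) ?_) (SD.lt ?_ ?_))
    · exact ((TD.var 0).mul ((TD.term _ fun i => TD.var _).add (TD.const 1))).add
        (TD.term _ fun i => TD.var _)
    · exact TD.term _ fun i => TD.var _
    · exact (TD.term _ fun i => TD.var _).add (TD.const 1)
  refine h1.congr fun v _ => ?_
  rw [htc, htm, hty]
  constructor
  · rintro ⟨q, h2, h3⟩
    rw [h2, Nat.add_comm, Nat.add_mul_mod_self_right, Nat.mod_eq_of_lt h3]
  · intro h2
    refine ⟨c v / (m v + 1), ?_, ?_⟩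
    · rw [← h2, Nat.mul_comm]
      exact (Nat.div_add_mod _ _).symm
    · rw [← h2]
      exact Nat.mod_lt _ (Nat.succ_pos _)

theorem SD.gen {rule : ℕ → Rule} (hr : ∀ k, SigPos (rule k).cond) (N : ℕ)
    {X : (ℕ → ℕ) → ℕ} (hX : TD X) : SD fun v A => Gen rule N A (X v) := by
  have h1 : SD fun v A => Gen rule N A (v 0) := by
    refine SD.congr ?_ fun v A => gen_iff.symm
    have hm : ∀ a b c d : ℕ, SD fun v _ => v a % ((v b + 1) * v c + 1) = v d := fun a b c d =>
      SD.mod (TD.var a) (((TD.var b).add (TD.const 1)).mul (TD.var c)) (TD.var d)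
    refine SD.ex (SD.ex (SD.ex (SD.and (SD.ex (SD.and (SD.lt (TD.var _) (TD.var _)) (hm _ _ _ _)))
      (SD.ball (TD.var _) (SD.ex (SD.and (hm _ _ _ _) ?_))))))
    refine SD.just hr N (TD.var 0)
      (G := fun z v => ∃ j, v 1 < j ∧ j < v 2 ∧ v 4 % ((j + 1) * v 3 + 1) = z) ?_
    exact SD.ex (SD.and (SD.lt (TD.var _) (TD.var _))
      (SD.and (SD.lt (TD.var _) (TD.var _)) (hm _ _ _ _)))
  exact h1.subst (F := fun _ => X) fun _ => hX

end Pool.Agent.H974Z.SOA
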