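import Pool.Agent.H974Z.SOA.Defs

/-! Substitution lemmas, satisfaction lemmas, soundness. -/

set_option autoImplicit false

namespace Pool.Agent.H974Z.SOA

@[simp] theorem cons_zero {α : Type} (a : α) (v : ℕ → α) : cons a v 0 = a := rfl
@[simp] theorem cons_succ {α : Type} (a : α) (v : ℕ → α) (n : ℕ) : cons a v (n + 1) = v n := rfl
@[simp] theorem cons_one {α : Type} (a : α) (v : ℕ → α) : cons a v 1 = v 0 := rfl
@[simp] theorem cons_two {α : Type} (a : α) (v : ℕ → α) : cons a v 2 = v 1 := rfl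
@[simp] theorem cons_three {α : Type} (a : α) (v : ℕ → α) : cons a v 3 = v 2 := rfl
@[simp] theorem cons_four {α : Type} (a : α) (v : ℕ → α) : cons a v 4 = v 3 := rfl
@[simp] theorem cons_five {α : Type} (a : α) (v : ℕ → α) : cons a v 5 = v 4 := rfl
@[simp] theorem cons_six {α : Type} (a : α) (v : ℕ → α) : cons a v 6 = v 5 := rfl
@[simp] theorem cons_seven {α : Type} (a : α) (v : ℕ → α) : cons a v 7 = v 6 := rfl
@[simp] theorem cons_eight {α : Type} (a : α) (v : ℕ → α) : cons a v 8 = v 7 := rfl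
@[simp] theorem cons_nine {α : Type} (a : α) (v : ℕ → α) : cons a v 9 = v 8 := rfl

theorem Tm.subst_subst (σ σ' : ℕ → Tm) (t : Tm) :
    (t.subst σ).subst σ' = t.subst fun i => (σ i).subst σ' := by
  induction t with
  | var i => rfl
  | zero => rfl
  | one => rfl
  | add s t ihs iht => simp only [Tm.subst, ihs, iht]
  | mul s t ihs iht => simp only [Tm.subst, ihs, iht]

@[simp] theorem Tm.subst_var (t : Tm) : t.subst Tm.var = t := by
  induction t with
  | var i => rfl
  | zero => rfl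
  | one => rfl
  | add s t ihs iht => simp only [Tm.subst, ihs, iht]
  | mul s t ihs iht => simp only [Tm.subst, ihs, iht]

theorem Tm.shift_subst_cons (t u : Tm) (σ : ℕ → Tm) : t.shift.subst (cons u σ) = t.subst σ := by
  unfold Tm.shift
  rw [Tm.subst_subst]
  rfl

/-- lifting of a substitution under a number quantifier -/
def up (σ : ℕ → Tm) : ℕ → Tm := cons (.var 0) fun i => (σ i).shift

/-- lifting of a renaming under a set quantifier -/
def upS (ρ : ℕ → ℕ) : ℕ → ℕ := cons 0 fun j => ρ j + 1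

theorem Fm.subst_all (σ : ℕ → Tm) (ρ : ℕ → ℕ) (φ : Fm) :
    φ.all.subst σ ρ = (φ.subst (up σ) ρ).all := rfl

theorem Fm.subst_allS (σ : ℕ → Tm) (ρ : ℕ → ℕ) (φ : Fm) :
    φ.allS.subst σ ρ = (φ.subst σ (upS ρ)).allS := rfl

theorem up_comp (σ σ' : ℕ → Tm) :
    (fun i => (up σ i).subst (up σ')) = up fun i => (σ i).subst σ' := by
  funext i
  cases i with
  | zero => rfl
  | succ i =>
    show (σ i).shift.subst (cons _ _) = ((σ i).subst σ').shift
    rw [Tm.shift_subst_cons]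
    unfold Tm.shift
    rw [Tm.subst_subst]

theorem upS_comp (ρ ρ' : ℕ → ℕ) : (fun j => upS ρ' (upS ρ j)) = upS fun j => ρ' (ρ j) := by
  funext j
  cases j <;> rfl

theorem Fm.subst_subst (φ : Fm) : ∀ (σ σ' : ℕ → Tm) (ρ ρ' : ℕ → ℕ),
    (φ.subst σ ρ).subst σ' ρ' = φ.subst (fun i => (σ i).subst σ') fun j => ρ' (ρ j) := by
  induction φ with
  | eq s t => intro σ σ' ρ ρ'; simp only [Fm.subst, Tm.subst_subst]
  | lt s t => intro σ σ' ρ ρ'; simp only [Fm.subst, Tm.subst_subst]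
  | mem t j => intro σ σ' ρ ρ'; simp only [Fm.subst, Tm.subst_subst]
  | neg φ ih => intro σ σ' ρ ρ'; simp only [Fm.subst, ih]
  | imp φ ψ ih ih' => intro σ σ' ρ ρ'; simp only [Fm.subst, ih, ih']
  | all φ ih =>
    intro σ σ' ρ ρ'
    rw [Fm.subst_all, Fm.subst_all, Fm.subst_all, ih, up_comp]
  | allS φ ih =>
    intro σ σ' ρ ρ'
    rw [Fm.subst_allS, Fm.subst_allS, Fm.subst_allS, ih, upS_comp]

theorem up_var : up Tm.var = Tm.var := by
  funext i
  cases i <;> rfl

theorem upS_id : upS (fun j => j) = fun j => j := by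
  funext i
  cases i <;> rfl

@[simp] theorem Fm.subst_id (φ : Fm) : φ.subst Tm.var (fun j => j) = φ := by
  induction φ with
  | eq s t => simp only [Fm.subst, Tm.subst_var]
  | lt s t => simp only [Fm.subst, Tm.subst_var]
  | mem t j => simp only [Fm.subst, Tm.subst_var]
  | neg φ ih => simp only [Fm.subst, ih]
  | imp φ ψ ih ih' => simp only [Fm.subst, ih, ih']
  | all φ ih => rw [Fm.subst_all, up_var, ih]
  | allS φ ih => rw [Fm.subst_allS, upS_id, ih]

theorem Tm.subst_congr {n : ℕ} {σ σ' : ℕ → Tm} (h : ∀ i < n, σ i = σ' i) (t : Tm) (ht : t.Bd n) :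
    t.subst σ = t.subst σ' := by
  induction t with
  | var i => exact h i ht
  | zero => rfl
  | one => rfl
  | add s t ihs iht => simp only [Tm.subst, ihs ht.1, iht ht.2]
  | mul s t ihs iht => simp only [Tm.subst, ihs ht.1, iht ht.2]

theorem Fm.subst_congr (φ : Fm) : ∀ {n m : ℕ} {σ σ' : ℕ → Tm} {ρ ρ' : ℕ → ℕ},
    (∀ i < n, σ i = σ' i) → (∀ j < m, ρ j = ρ' j) → φ.Bd n m → φ.subst σ ρ = φ.subst σ' ρ' := by
  induction φ with
  | eq s t =>
    intro n m σ σ' ρ ρ' h _ hb
    simp only [Fm.subst, Tm.subst_congr h s hb.1, Tm.subst_congr h t hb.2]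
  | lt s t =>
    intro n m σ σ' ρ ρ' h _ hb
    simp only [Fm.subst, Tm.subst_congr h s hb.1, Tm.subst_congr h t hb.2]
  | mem t j =>
    intro n m σ σ' ρ ρ' h h' hb
    simp only [Fm.subst, Tm.subst_congr h t hb.1, h' j hb.2]
  | neg φ ih => intro n m σ σ' ρ ρ' h h' hb; simp only [Fm.subst, ih h h' hb]
  | imp φ ψ ih ih' =>
    intro n m σ σ' ρ ρ' h h' hb; simp only [Fm.subst, ih h h' hb.1, ih' h h' hb.2]
  | all φ ih =>
    intro n m σ σ' ρ ρ' h h' hb
    rw [Fm.subst_all, Fm.subst_all, ih (n := n + 1) (σ' := up σ') _ h' hb]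
    intro i hi
    cases i with
    | zero => rfl
    | succ i => show (σ i).shift = (σ' i).shift; rw [h i (by omega)]
  | allS φ ih =>
    intro n m σ σ' ρ ρ' h h' hb
    rw [Fm.subst_allS, Fm.subst_allS, ih (m := m + 1) (ρ' := upS ρ') h _ hb]
    intro i hi
    cases i with
    | zero => rfl
    | succ i => show ρ i + 1 = ρ' i + 1; rw [h' i (by omega)]

theorem Tm.Bd.mono {n n' : ℕ} (h : n ≤ n') {t : Tm} (ht : t.Bd n) : t.Bd n' := by
  induction t with
  | var i => exact lt_of_lt_of_le ht h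
  | zero => trivial
  | one => trivial
  | add s t ihs iht => exact ⟨ihs ht.1, iht ht.2⟩
  | mul s t ihs iht => exact ⟨ihs ht.1, iht ht.2⟩

theorem Fm.Bd.mono {φ : Fm} : ∀ {n n' m m' : ℕ}, n ≤ n' → m ≤ m' → φ.Bd n m → φ.Bd n' m' := by
  induction φ with
  | eq s t => intro n n' m m' h _ hb; exact ⟨hb.1.mono h, hb.2.mono h⟩
  | lt s t => intro n n' m m' h _ hb; exact ⟨hb.1.mono h, hb.2.mono h⟩
  | mem t j => intro n n' m m' h h' hb; exact ⟨hb.1.mono h, lt_of_lt_of_le hb.2 h'⟩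
  | neg φ ih => intro n n' m m' h h' hb; exact ih h h' hb
  | imp φ ψ ih ih' => intro n n' m m' h h' hb; exact ⟨ih h h' hb.1, ih' h h' hb.2⟩
  | all φ ih => intro n n' m m' h h' hb; exact ih (Nat.succ_le_succ h) h' hb
  | allS φ ih => intro n n' m m' h h' hb; exact ih h (Nat.succ_le_succ h') hb

theorem Tm.exists_bd (t : Tm) : ∃ n, t.Bd n := by
  induction t with
  | var i => exact ⟨i + 1, Nat.lt_succ_self i⟩
  | zero => exact ⟨0, trivial⟩
  | one => exact ⟨0, trivial⟩
  | add s t ihs iht =>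
    obtain ⟨a, ha⟩ := ihs
    obtain ⟨b, hb⟩ := iht
    exact ⟨max a b, ha.mono (le_max_left _ _), hb.mono (le_max_right _ _)⟩
  | mul s t ihs iht =>
    obtain ⟨a, ha⟩ := ihs
    obtain ⟨b, hb⟩ := iht
    exact ⟨max a b, ha.mono (le_max_left _ _), hb.mono (le_max_right _ _)⟩

theorem Fm.exists_bd (φ : Fm) : ∃ n, φ.Bd n n := by
  induction φ with
  | eq s t =>
    obtain ⟨a, ha⟩ := s.exists_bd
    obtain ⟨b, hb⟩ := t.exists_bd
    exact ⟨max a b, ha.mono (le_max_left _ _), hb.mono (le_max_right _ _)⟩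
  | lt s t =>
    obtain ⟨a, ha⟩ := s.exists_bd
    obtain ⟨b, hb⟩ := t.exists_bd
    exact ⟨max a b, ha.mono (le_max_left _ _), hb.mono (le_max_right _ _)⟩
  | mem t j =>
    obtain ⟨a, ha⟩ := t.exists_bd
    exact ⟨max a (j + 1), ha.mono (le_max_left _ _),
      lt_of_lt_of_le (Nat.lt_succ_self j) (le_max_right _ _)⟩
  | neg φ ih => exact ih
  | imp φ ψ ih ih' =>
    obtain ⟨a, ha⟩ := ih
    obtain ⟨b, hb⟩ := ih'
    exact ⟨max a b, ha.mono (le_max_left _ _) (le_max_left _ _),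
      hb.mono (le_max_right _ _) (le_max_right _ _)⟩
  | all φ ih =>
    obtain ⟨a, ha⟩ := ih
    exact ⟨a, Fm.Bd.mono (φ := φ) (Nat.le_succ a) le_rfl ha⟩
  | allS φ ih =>
    obtain ⟨a, ha⟩ := ih
    exact ⟨a, Fm.Bd.mono (φ := φ) le_rfl (Nat.le_succ a) ha⟩

theorem Tm.bd_subst {n n' : ℕ} {σ : ℕ → Tm} (h : ∀ i < n, (σ i).Bd n') {t : Tm} (ht : t.Bd n) :
    (t.subst σ).Bd n' := by
  induction t with
  | var i => exact h i ht
  | zero => trivial
  | one => trivial
  | add s t ihs iht => exact ⟨ihs ht.1, iht ht.2⟩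
  | mul s t ihs iht => exact ⟨ihs ht.1, iht ht.2⟩

theorem Tm.bd_shift {n : ℕ} {t : Tm} (ht : t.Bd n) : t.shift.Bd (n + 1) :=
  Tm.bd_subst (σ := fun i => .var (i + 1)) (n' := n + 1) (fun _ hi => Nat.succ_lt_succ hi) ht

theorem Fm.bd_subst {φ : Fm} : ∀ {n n' m m' : ℕ} {σ : ℕ → Tm} {ρ : ℕ → ℕ},
    (∀ i < n, (σ i).Bd n') → (∀ j < m, ρ j < m') → φ.Bd n m → (φ.subst σ ρ).Bd n' m' := by
  induction φ with
  | eq s t => intro n n' m m' σ ρ h _ hb; exact ⟨Tm.bd_subst h hb.1, Tm.bd_subst h hb.2⟩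
  | lt s t => intro n n' m m' σ ρ h _ hb; exact ⟨Tm.bd_subst h hb.1, Tm.bd_subst h hb.2⟩
  | mem t j => intro n n' m m' σ ρ h h' hb; exact ⟨Tm.bd_subst h hb.1, h' j hb.2⟩
  | neg φ ih => intro n n' m m' σ ρ h h' hb; exact ih h h' hb
  | imp φ ψ ih ih' => intro n n' m m' σ ρ h h' hb; exact ⟨ih h h' hb.1, ih' h h' hb.2⟩
  | all φ ih =>
    intro n n' m m' σ ρ h h' hb
    refine ih (n := n + 1) (n' := n' + 1) ?_ h' hb
    intro i hi
    cases i with
    | zero => exact Nat.succ_pos _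
    | succ i => exact Tm.bd_shift (h i (by omega))
  | allS φ ih =>
    intro n n' m m' σ ρ h h' hb
    refine ih (m := m + 1) (m' := m' + 1) h ?_ hb
    intro i hi
    cases i with
    | zero => exact Nat.succ_pos _
    | succ i => exact Nat.succ_lt_succ (h' i (by omega))

theorem Fm.arith_subst {φ : Fm} : ∀ {σ : ℕ → Tm} {ρ : ℕ → ℕ}, φ.Arith → (φ.subst σ ρ).Arith := by
  induction φ with
  | eq s t => intro _ _ _; trivial
  | lt s t => intro _ _ _; trivial
  | mem t j => intro _ _ _; trivial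
  | neg φ ih => intro _ _ h; exact ih h
  | imp φ ψ ih ih' => intro _ _ h; exact ⟨ih h.1, ih' h.2⟩
  | all φ ih => intro _ _ h; exact ih h
  | allS φ _ => intro _ _ h; exact h.elim

theorem Fm.pol_subst {φ : Fm} : ∀ {b : Bool} {σ : ℕ → Tm} {ρ : ℕ → ℕ},
    φ.Pol b → (φ.subst σ ρ).Pol b := by
  induction φ with
  | eq s t => intro _ _ _ _; trivial
  | lt s t => intro _ _ _ _; trivial
  | mem t j => intro _ _ _ h; exact h
  | neg φ ih => intro _ _ _ h; exact ih h
  | imp φ ψ ih ih' => intro _ _ _ h; exact ⟨ih h.1, ih' h.2⟩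
  | all φ ih => intro _ _ _ h; exact ih h
  | allS φ ih => intro _ _ _ h; exact ih h

theorem num_bd (n k : ℕ) : (num n).Bd k := by
  induction n with
  | zero => trivial
  | succ n ih => exact ⟨ih, trivial⟩

theorem num_subst (n : ℕ) (σ : ℕ → Tm) : (num n).subst σ = num n := by
  induction n with
  | zero => rfl
  | succ n ih => simp only [num, Tm.subst, ih]

/-! ### Satisfaction -/

variable {M : Model}

theorem Tm.val_subst (v : ℕ → M.Num) (σ : ℕ → Tm) (t : Tm) :
    (t.subst σ).val M v = t.val M fun i => (σ i).val M v := by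
  induction t with
  | var i => rfl
  | zero => rfl
  | one => rfl
  | add s t ihs iht => simp only [Tm.subst, Tm.val, ihs, iht]
  | mul s t ihs iht => simp only [Tm.subst, Tm.val, ihs, iht]

@[simp] theorem Tm.val_shift (v : ℕ → M.Num) (a : M.Num) (t : Tm) :
    t.shift.val M (cons a v) = t.val M v := by
  unfold Tm.shift
  rw [Tm.val_subst]
  rfl

theorem sat_subst (φ : Fm) : ∀ (v : ℕ → M.Num) (V : ℕ → Set M.Num) (σ : ℕ → Tm) (ρ : ℕ → ℕ),
    Sat M v V (φ.subst σ ρ) ↔ Sat M (fun i => (σ i).val M v) (fun j => V (ρ j)) φ := by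
  induction φ with
  | eq s t => intro v V σ ρ; simp only [Fm.subst, Sat, Tm.val_subst]
  | lt s t => intro v V σ ρ; simp only [Fm.subst, Sat, Tm.val_subst]
  | mem t j => intro v V σ ρ; simp only [Fm.subst, Sat, Tm.val_subst]
  | neg φ ih => intro v V σ ρ; simp only [Fm.subst, Sat, ih]
  | imp φ ψ ih ih' => intro v V σ ρ; simp only [Fm.subst, Sat, ih, ih']
  | all φ ih =>
    intro v V σ ρ
    rw [Fm.subst_all]
    simp only [Sat, ih]
    refine forall_congr' fun a => ?_
    have : (fun i => (up σ i).val M (cons a v)) = cons a fun i => (σ i).val M v := by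
      funext i
      cases i with
      | zero => rfl
      | succ i => exact Tm.val_shift v a (σ i)
    rw [this]
  | allS φ ih =>
    intro v V σ ρ
    rw [Fm.subst_allS]
    simp only [Sat, ih]
    refine forall_congr' fun A => forall_congr' fun _ => ?_
    have : (fun j => cons A V (upS ρ j)) = cons A fun j => V (ρ j) := by
      funext i
      cases i <;> rfl
    rw [this]

theorem sat_inst (φ : Fm) (t : Tm) (v : ℕ → M.Num) (V : ℕ → Set M.Num) :
    Sat M v V (φ.inst t) ↔ Sat M (cons (t.val M v) v) V φ := by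
  unfold Fm.inst
  rw [sat_subst]
  have : (fun i => (cons t Tm.var i).val M v) = cons (t.val M v) v := by
    funext i
    cases i <;> rfl
  rw [this]
  rfl

theorem sat_instS (φ : Fm) (j : ℕ) (v : ℕ → M.Num) (V : ℕ → Set M.Num) :
    Sat M v V (φ.instS j) ↔ Sat M v (cons (V j) V) φ := by
  unfold Fm.instS
  rw [sat_subst]
  have : (fun i => V (cons j id i)) = cons (V j) V := by
    funext i
    cases i <;> rfl
  rw [this]
  rfl

theorem sat_lift (φ : Fm) (a : M.Num) (v : ℕ → M.Num) (V : ℕ → Set M.Num) :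
    Sat M (cons a v) V φ.lift ↔ Sat M v V φ := by
  unfold Fm.lift
  rw [sat_subst]
  rfl

theorem sat_liftS (φ : Fm) (A : Set M.Num) (v : ℕ → M.Num) (V : ℕ → Set M.Num) :
    Sat M v (cons A V) φ.liftS ↔ Sat M v V φ := by
  unfold Fm.liftS
  rw [sat_subst]
  rfl

@[simp] theorem sat_and {φ ψ : Fm} {v : ℕ → M.Num} {V : ℕ → Set M.Num} :
    Sat M v V (φ.and ψ) ↔ Sat M v V φ ∧ Sat M v V ψ := by
  simp only [Fm.and, Sat]; tauto

@[simp] theorem sat_or {φ ψ : Fm} {v : ℕ → M.Num} {V : ℕ → Set M.Num} :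
    Sat M v V (φ.or ψ) ↔ Sat M v V φ ∨ Sat M v V ψ := by
  simp only [Fm.or, Sat]; tauto

@[simp] theorem sat_iff {φ ψ : Fm} {v : ℕ → M.Num} {V : ℕ → Set M.Num} :
    Sat M v V (φ.iff ψ) ↔ (Sat M v V φ ↔ Sat M v V ψ) := by
  simp only [Fm.iff, sat_and, Sat]; tauto

@[simp] theorem sat_ex {φ : Fm} {v : ℕ → M.Num} {V : ℕ → Set M.Num} :
    Sat M v V φ.ex ↔ ∃ a, Sat M (cons a v) V φ := by
  simp only [Fm.ex, Sat, not_forall, not_not]

@[simp] theorem sat_exS {φ : Fm} {v : ℕ → M.Num} {V : ℕ → Set M.Num} :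
    Sat M v V φ.exS ↔ ∃ A ∈ M.sets, Sat M v (cons A V) φ := by
  simp only [Fm.exS, Sat, not_forall, not_not, exists_prop]

theorem Tm.val_congr {n : ℕ} {v v' : ℕ → M.Num} (h : ∀ i < n, v i = v' i) {t : Tm} (ht : t.Bd n) :
    t.val M v = t.val M v' := by
  induction t with
  | var i => exact h i ht
  | zero => rfl
  | one => rfl
  | add s t ihs iht => simp only [Tm.val, ihs ht.1, iht ht.2]
  | mul s t ihs iht => simp only [Tm.val, ihs ht.1, iht ht.2]

theorem cons_congr {α : Type} {n : ℕ} {v v' : ℕ → α} (a : α) (h : ∀ i < n, v i = v' i) :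
    ∀ i < n + 1, cons a v i = cons a v' i := by
  intro i hi
  cases i with
  | zero => rfl
  | succ i => exact h i (by omega)

theorem sat_congr {φ : Fm} : ∀ {n m : ℕ} {v v' : ℕ → M.Num} {V V' : ℕ → Set M.Num},
    (∀ i < n, v i = v' i) → (∀ j < m, V j = V' j) → φ.Bd n m → (Sat M v V φ ↔ Sat M v' V' φ) := by
  induction φ with
  | eq s t =>
    intro n m v v' V V' h _ hb
    simp only [Sat, Tm.val_congr h hb.1, Tm.val_congr h hb.2]
  | lt s t =>
    intro n m v v' V V' h _ hb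
    simp only [Sat, Tm.val_congr h hb.1, Tm.val_congr h hb.2]
  | mem t j =>
    intro n m v v' V V' h h' hb
    simp only [Sat, Tm.val_congr h hb.1, h' j hb.2]
  | neg φ ih => intro n m v v' V V' h h' hb; simp only [Sat, ih h h' hb]
  | imp φ ψ ih ih' => intro n m v v' V V' h h' hb; simp only [Sat, ih h h' hb.1, ih' h h' hb.2]
  | all φ ih =>
    intro n m v v' V V' h h' hb
    exact forall_congr' fun a => ih (cons_congr a h) h' hb
  | allS φ ih =>
    intro n m v v' V V' h h' hb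
    exact forall_congr' fun A => forall_congr' fun _ => ih h (cons_congr A h') hb

/-- assignments of the set variables inside the structure -/
def SetAsg (M : Model) (V : ℕ → Set M.Num) : Prop := ∀ j, V j ∈ M.sets

theorem SetAsg.cons {V : ℕ → Set M.Num} (h : SetAsg M V) {A : Set M.Num} (hA : A ∈ M.sets) :
    SetAsg M (cons A V) := by
  intro j
  cases j with
  | zero => exact hA
  | succ j => exact h j

theorem ax_sound {φ : Fm} (h : Ax φ) : ∀ (v : ℕ → M.Num) (V : ℕ → Set M.Num), SetAsg M V →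
    Sat M v V φ := by
  induction h with
  | k φ ψ => intro v V _ h _; exact h
  | s φ ψ χ => intro v V _ h1 h2 h3; exact h1 h3 (h2 h3)
  | contra φ ψ => intro v V _ h1 h2; by_contra h3; exact h1 h3 h2
  | allE φ t => intro v V _ h; exact (sat_inst φ t v V).2 (h _)
  | allK φ ψ => intro v V _ h1 h2 a; exact h1 a (h2 a)
  | allV φ => intro v V _ h a; exact (sat_lift φ a v V).2 h
  | allSE φ j => intro v V hV h; exact (sat_instS φ j v V).2 (h _ (hV j))
  | allSK φ ψ => intro v V _ h1 h2 A hA; exact h1 A hA (h2 A hA)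
  | allSV φ => intro v V _ h A _; exact (sat_liftS φ A v V).2 h
  | refl t => intro v V _; rfl
  | eqE s t φ =>
    intro v V _ h1 h2
    have h1' : s.val M v = t.val M v := h1
    rw [sat_inst] at h2 ⊢
    rw [← h1']
    exact h2
  | gen _ ih => intro v V hV a; exact ih _ _ hV
  | genS _ ih => intro v V hV A hA; exact ih _ _ (hV.cons hA)

theorem soundness_thm {T : Set Fm} {φ : Fm} (h : Prov T φ) {v : ℕ → M.Num} {V : ℕ → Set M.Num}
    (hV : SetAsg M V) (hT : ∀ ψ ∈ T, Sat M v V ψ) : Sat M v V φ := by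
  induction h with
  | hyp h => exact hT _ h
  | ax h => exact ax_sound h v V hV
  | mp _ _ ih1 ih2 => exact ih1 ih2

theorem pr_inj {a b c d : ℕ} (h : pr a b = pr c d) : a = c ∧ b = d := by
  unfold pr at h
  rcases lt_trichotomy (a + b) (c + d) with h1 | h1 | h1
  · exfalso; nlinarith
  · rw [h1] at h; omega
  · exfalso; nlinarith

@[simp] theorem pr_eq {a b c d : ℕ} : pr a b = pr c d ↔ a = c ∧ b = d :=
  ⟨pr_inj, fun h => by rw [h.1, h.2]⟩

theorem Tm.code_inj : ∀ {s t : Tm}, s.code = t.code → s = t := by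
  intro s
  induction s with
  | var i => intro t h; cases t <;> simp_all [Tm.code]
  | zero => intro t h; cases t <;> simp_all [Tm.code]
  | one => intro t h; cases t <;> simp_all [Tm.code]
  | add a b iha ihb =>
    intro t h; cases t <;> simp [Tm.code] at h
    rw [iha h.1, ihb h.2]
  | mul a b iha ihb =>
    intro t h; cases t <;> simp [Tm.code] at h
    rw [iha h.1, ihb h.2]

theorem Fm.code_inj : ∀ {φ ψ : Fm}, φ.code = ψ.code → φ = ψ := by
  intro φ
  induction φ with
  | eq s t => intro ψ h; cases ψ <;> simp [Fm.code] at h; rw [Tm.code_inj h.1, Tm.code_inj h.2]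
  | lt s t => intro ψ h; cases ψ <;> simp [Fm.code] at h; rw [Tm.code_inj h.1, Tm.code_inj h.2]
  | mem t j => intro ψ h; cases ψ <;> simp [Fm.code] at h; rw [Tm.code_inj h.1, h.2]
  | neg φ ih => intro ψ h; cases ψ <;> simp [Fm.code] at h; rw [ih h]
  | imp φ χ ih ih' => intro ψ h; cases ψ <;> simp [Fm.code] at h; rw [ih h.1, ih' h.2]
  | all φ ih => intro ψ h; cases ψ <;> simp [Fm.code] at h; rw [ih h]
  | allS φ ih => intro ψ h; cases ψ <;> simp [Fm.code] at h; rw [ih h]

end Pool.Agent.H974Z.SOA
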