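import Pool.Agent.H974Z.SOA.P11

/-! A Pi-1-1 partial truth predicate. -/

set_option autoImplicit false

namespace Pool.Agent.H974Z.SOA

/-- functions given by terms, uniformly in the structure -/
def TM (f : (M : Model) → (ℕ → M.Num) → M.Num) : Prop := ∃ t : Tm, ∀ M v, t.val M v = f M v

/-- relations given by arithmetical formulas, uniformly in the structure -/
def AD (R : (M : Model) → (ℕ → M.Num) → Set M.Num → Prop) : Prop :=
  ∃ φ : Fm, φ.Arith ∧ ∀ M v V, Sat M v V φ ↔ R M v (V 0)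

theorem TM.var (i : ℕ) : TM fun _ v => v i := ⟨.var i, fun _ _ => rfl⟩
theorem TM.zero : TM fun M _ => M.zero := ⟨.zero, fun _ _ => rfl⟩
theorem TM.one : TM fun M _ => M.one := ⟨.one, fun _ _ => rfl⟩
theorem TM.nat (c : ℕ) : TM fun M _ => M.nat c := ⟨num c, fun _ v => val_num v c⟩

section
variable {f g : (M : Model) → (ℕ → M.Num) → M.Num}
  {R R' : (M : Model) → (ℕ → M.Num) → Set M.Num → Prop}

theorem TM.add (hf : TM f) (hg : TM g) : TM fun M v => M.add (f M v) (g M v) := by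
  obtain ⟨s, hs⟩ := hf
  obtain ⟨t, ht⟩ := hg
  exact ⟨.add s t, fun M v => by simp only [Tm.val, hs, ht]⟩

theorem TM.mul (hf : TM f) (hg : TM g) : TM fun M v => M.mul (f M v) (g M v) := by
  obtain ⟨s, hs⟩ := hf
  obtain ⟨t, ht⟩ := hg
  exact ⟨.mul s t, fun M v => by simp only [Tm.val, hs, ht]⟩

theorem TM.pr (hf : TM f) (hg : TM g) : TM fun M v => M.pr (f M v) (g M v) :=
  ((hf.add hg).mul (hf.add hg)).add hf

theorem TM.term (t : Tm) {F : ℕ → (M : Model) → (ℕ → M.Num) → M.Num} (hF : ∀ i, TM (F i)) :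
    TM fun M v => t.val M fun i => F i M v := by
  choose σ hσ using hF
  exact ⟨t.subst σ, fun M v => by rw [Tm.val_subst]; simp only [hσ]⟩

theorem AD.congr (h : AD R) (e : ∀ M v A, R M v A ↔ R' M v A) : AD R' := by
  obtain ⟨φ, h1, h2⟩ := h
  exact ⟨φ, h1, fun M v A => (h2 M v A).trans (e M v _)⟩

theorem AD.eq (hf : TM f) (hg : TM g) : AD fun M v _ => f M v = g M v := by
  obtain ⟨s, hs⟩ := hf
  obtain ⟨t, ht⟩ := hg
  exact ⟨.eq s t, trivial, fun M v A => by simp only [Sat, hs, ht]⟩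

theorem AD.lt (hf : TM f) (hg : TM g) : AD fun M v _ => M.lt (f M v) (g M v) := by
  obtain ⟨s, hs⟩ := hf
  obtain ⟨t, ht⟩ := hg
  exact ⟨.lt s t, trivial, fun M v A => by simp only [Sat, hs, ht]⟩

theorem AD.mem (hf : TM f) : AD fun M v A => f M v ∈ A := by
  obtain ⟨s, hs⟩ := hf
  exact ⟨.mem s 0, trivial, fun M v A => by simp only [Sat, hs]⟩

theorem AD.not (h : AD R) : AD fun M v A => ¬ R M v A := by
  obtain ⟨φ, h1, h2⟩ := h
  exact ⟨φ.neg, h1, fun M v A => by simp only [Sat, h2]⟩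

theorem AD.imp (h : AD R) (h' : AD R') : AD fun M v A => R M v A → R' M v A := by
  obtain ⟨φ, h1, h2⟩ := h
  obtain ⟨ψ, h3, h4⟩ := h'
  exact ⟨φ.imp ψ, ⟨h1, h3⟩, fun M v A => by simp only [Sat, h2, h4]⟩

theorem AD.and (h : AD R) (h' : AD R') : AD fun M v A => R M v A ∧ R' M v A :=
  (h.imp h'.not).not.congr fun _ _ _ => by tauto

theorem AD.or (h : AD R) (h' : AD R') : AD fun M v A => R M v A ∨ R' M v A :=
  (h.not.imp h').congr fun _ _ _ => by tauto

theorem AD.all' (h : AD R) : AD fun M v A => ∀ a, R M (cons a v) A := by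
  obtain ⟨φ, h1, h2⟩ := h
  exact ⟨φ.all, h1, fun M v A => by simp only [Sat, h2]⟩

theorem AD.ex' (h : AD R) : AD fun M v A => ∃ a, R M (cons a v) A :=
  h.not.all'.not.congr fun _ _ _ => by simp

theorem AD.subst (h : AD R) {F : ℕ → (M : Model) → (ℕ → M.Num) → M.Num} (hF : ∀ i, TM (F i)) :
    AD fun M v A => R M (fun i => F i M v) A := by
  obtain ⟨φ, h1, h2⟩ := h
  choose σ hσ using hF
  exact ⟨φ.subst σ id, Fm.arith_subst h1, fun M v A => by rw [sat_subst]; simp only [hσ, h2, id]⟩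

end

theorem AD.all {R : (M : Model) → M.Num → (ℕ → M.Num) → Set M.Num → Prop}
    (h : AD fun M v A => R M (v 0) (fun i => v (i + 1)) A) : AD fun M v A => ∀ a, R M a v A :=
  h.all'

theorem AD.ex {R : (M : Model) → M.Num → (ℕ → M.Num) → Set M.Num → Prop}
    (h : AD fun M v A => R M (v 0) (fun i => v (i + 1)) A) : AD fun M v A => ∃ a, R M a v A :=
  h.ex'

theorem AD.sat {φ : Fm} (h : φ.Arith) : AD fun M v A => Sat M v (fun _ => A) φ :=
  ⟨φ.subst .var fun _ => 0, Fm.arith_subst h, fun M v V => by rw [sat_subst]; rfl⟩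

theorem AD.false : AD fun _ _ _ => False := (AD.eq TM.zero TM.zero).not.congr (by simp)

theorem AD.finEx {α : Type} {R : α → (M : Model) → (ℕ → M.Num) → Set M.Num → Prop}
    (h : ∀ a, AD (R a)) {S : Set α} (hS : S.Finite) : AD fun M v A => ∃ a ∈ S, R a M v A := by
  induction S, hS using Set.Finite.induction_on with
  | empty => exact AD.false.congr (by simp)
  | @insert a s _ _ ih => exact ((h a).or ih).congr (by simp)

/-- a list in front of a sequence -/
def appM {α : Type} : List α → (ℕ → α) → ℕ → α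
  | [], v => v
  | a :: l, v => cons a (appM l v)

/-- the code of a list -/
def enc (M : Model) : List M.Num → M.Num
  | [] => M.zero
  | a :: l => M.pr a (enc M l)

/-- the assignment given by a list -/
def asg (M : Model) (l : List M.Num) : ℕ → M.Num := appM l fun _ => M.zero

theorem AD.exL (n : ℕ) : ∀ {R : (M : Model) → (ℕ → M.Num) → Set M.Num → Prop}, AD R →
    AD fun M v A => ∃ l : List M.Num, l.length = n ∧ R M (appM l v) A := by
  induction n with
  | zero =>
    intro R h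
    refine h.congr fun M v A => ⟨fun h1 => ⟨[], rfl, h1⟩, ?_⟩
    rintro ⟨l, h1, h2⟩
    rw [List.length_eq_zero_iff] at h1
    subst h1
    exact h2
  | succ m ih =>
    intro R h
    refine (ih h.ex').congr fun M v A => ?_
    constructor
    · rintro ⟨l, h1, a, h2⟩
      exact ⟨a :: l, by simp [h1], h2⟩
    · rintro ⟨l, h1, h2⟩
      cases l with
      | nil => simp at h1
      | cons a l => exact ⟨l, by simpa using h1, a, h2⟩

theorem appM_len {α : Type} (l : List α) (v : ℕ → α) : appM l v l.length = v 0 := by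
  induction l with
  | nil => rfl
  | cons a l ih => exact ih

theorem appM_trunc {α : Type} (l : List α) (v : ℕ → α) (z : α) :
    (fun i => if i < l.length then appM l v i else z) = appM l fun _ => z := by
  induction l with
  | nil => funext i; simp [appM]
  | cons a l ih =>
    funext i
    cases i with
    | zero => simp [appM]
    | succ i => simpa [appM] using congrFun ih i

/-- the code of the first `n` values -/
def encN (M : Model) : ℕ → (ℕ → M.Num) → M.Num
  | 0, _ => M.zero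
  | n + 1, v => M.pr (v 0) (encN M n fun i => v (i + 1))

theorem TM.encN (n : ℕ) : TM fun M v => encN M n v := by
  induction n with
  | zero => exact TM.zero
  | succ n ih =>
    obtain ⟨t, ht⟩ := ih
    refine (TM.var 0).pr ?_
    have := TM.term t (F := fun i _ v => v (i + 1)) fun i => TM.var _
    simpa only [ht] using this

theorem encN_appM (M : Model) (l : List M.Num) (v : ℕ → M.Num) :
    encN M l.length (appM l v) = enc M l := by
  induction l with
  | nil => rfl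
  | cons a l ih => exact congrArg (M.pr a) ih

theorem AD.exList (n : ℕ) {R : (M : Model) → M.Num → M.Num → (ℕ → M.Num) → Set M.Num → Prop}
    (h : AD fun M v A => R M (v 0) (v 1) (fun i => v (i + 2)) A) :
    AD fun M v A => ∃ l : List M.Num, l.length = n ∧ R M (v 0) (enc M l) (asg M l) A := by
  have hF : ∀ i, TM fun M w =>
      cons (w n) (cons (encN M n w) fun j => if j < n then w j else M.zero) i := by
    intro i
    match i with
    | 0 => exact TM.var n
    | 1 => exact TM.encN n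
    | i + 2 =>
      by_cases hi : i < n
      · simp only [cons_succ, hi, if_true]; exact TM.var i
      · simp only [cons_succ, hi, if_false]; exact TM.zero
  refine (AD.exL n (h.subst hF)).congr fun M v A => exists_congr fun l =>
    and_congr_right fun hl => ?_
  subst hl
  simp only [cons_zero, cons_one, cons_succ, appM_len, encN_appM, appM_trunc, asg]

/-- judgement: membership in the set parameter -/
def JX (M : Model) (w : M.Num) : M.Num := M.pr (M.nat 0) w
/-- judgement: value of a term -/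
def JV (M : Model) (t s w : M.Num) : M.Num := M.pr (M.nat 1) (M.pr t (M.pr s w))
/-- judgement: truth -/
def JY (M : Model) (φ s : M.Num) : M.Num := M.pr (M.nat 2) (M.pr φ s)
/-- judgement: falsity -/
def JN (M : Model) (φ s : M.Num) : M.Num := M.pr (M.nat 3) (M.pr φ s)

/-- Hintikka sets -/
def Hint (M : Model) (Z : Set M.Num) : Prop :=
  (∀ a s w, JV M (M.pr (M.nat 0) M.zero) (M.pr a s) w ∈ Z → w = a) ∧
  (∀ i a s w, JV M (M.pr (M.nat 0) (M.add i M.one)) (M.pr a s) w ∈ Z →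
    JV M (M.pr (M.nat 0) i) s w ∈ Z) ∧
  (∀ i s w, JV M (M.pr (M.nat 1) i) s w ∈ Z → w = M.zero) ∧
  (∀ i s w, JV M (M.pr (M.nat 2) i) s w ∈ Z → w = M.one) ∧
  (∀ p q s w, JV M (M.pr (M.nat 3) (M.pr p q)) s w ∈ Z →
    ∃ x y, JV M p s x ∈ Z ∧ JV M q s y ∈ Z ∧ w = M.add x y) ∧
  (∀ p q s w, JV M (M.pr (M.nat 4) (M.pr p q)) s w ∈ Z →
    ∃ x y, JV M p s x ∈ Z ∧ JV M q s y ∈ Z ∧ w = M.mul x y) ∧
  (∀ p q s, JY M (M.pr (M.nat 0) (M.pr p q)) s ∈ Z →
    ∃ x y, JV M p s x ∈ Z ∧ JV M q s y ∈ Z ∧ x = y) ∧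
  (∀ p q s, JN M (M.pr (M.nat 0) (M.pr p q)) s ∈ Z →
    ∃ x y, JV M p s x ∈ Z ∧ JV M q s y ∈ Z ∧ ¬ x = y) ∧
  (∀ p q s, JY M (M.pr (M.nat 1) (M.pr p q)) s ∈ Z →
    ∃ x y, JV M p s x ∈ Z ∧ JV M q s y ∈ Z ∧ M.lt x y) ∧
  (∀ p q s, JN M (M.pr (M.nat 1) (M.pr p q)) s ∈ Z →
    ∃ x y, JV M p s x ∈ Z ∧ JV M q s y ∈ Z ∧ ¬ M.lt x y) ∧
  (∀ p q s, JY M (M.pr (M.nat 2) (M.pr p q)) s ∈ Z → ∃ x, JV M p s x ∈ Z ∧ JX M x ∈ Z) ∧
  (∀ p q s, JN M (M.pr (M.nat 2) (M.pr p q)) s ∈ Z → ∃ x, JV M p s x ∈ Z ∧ ¬ JX M x ∈ Z) ∧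
  (∀ p s, JY M (M.pr (M.nat 3) p) s ∈ Z → JN M p s ∈ Z) ∧
  (∀ p s, JN M (M.pr (M.nat 3) p) s ∈ Z → JY M p s ∈ Z) ∧
  (∀ p q s, JY M (M.pr (M.nat 4) (M.pr p q)) s ∈ Z → JN M p s ∈ Z ∨ JY M q s ∈ Z) ∧
  (∀ p q s, JN M (M.pr (M.nat 4) (M.pr p q)) s ∈ Z → JY M p s ∈ Z ∧ JN M q s ∈ Z) ∧
  (∀ p s, JY M (M.pr (M.nat 5) p) s ∈ Z → ∀ a, JY M p (M.pr a s) ∈ Z) ∧
  (∀ p s, JN M (M.pr (M.nat 5) p) s ∈ Z → ∃ a, JN M p (M.pr a s) ∈ Z)

theorem AD.hint : AD fun M _ Z => Hint M Z := by
  unfold Hint JX JV JY JN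
  repeat' first
    | exact TM.var _
    | exact TM.zero
    | exact TM.one
    | exact TM.nat _
    | apply TM.pr
    | apply TM.add
    | apply TM.mul
    | apply AD.and
    | apply AD.or
    | apply AD.ex
    | apply AD.not
    | apply AD.all
    | apply AD.imp
    | apply AD.mem
    | apply AD.eq
    | apply AD.lt

variable {M : Model}

theorem IsACA'.pr_zero (h : IsACA' M) : M.pr M.zero M.zero = M.zero := by
  unfold Model.pr
  rw [h.add_zero, h.add_zero, h.mul_zero]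

theorem asg_nil : asg M [] = cons M.zero (asg M []) := by
  funext i
  cases i <;> rfl

theorem IsACA'.dec (h : IsACA' M) (l : List M.Num) : ∃ a l', enc M l = M.pr a (enc M l') ∧
    asg M l = cons a (asg M l') ∧ l'.length ≤ l.length := by
  cases l with
  | nil => exact ⟨M.zero, [], h.pr_zero.symm, asg_nil, le_rfl⟩
  | cons a l => exact ⟨a, l, rfl, rfl, Nat.le_succ _⟩

theorem hint_val (h : IsACA' M) {Z : Set M.Num} (hZ : Hint M Z) (t : Tm) :
    ∀ l w, JV M (M.nat t.code) (enc M l) w ∈ Z → w = t.val M (asg M l) := by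
  obtain ⟨c1, c2, c3, c4, c5, c6, -⟩ := hZ
  induction t with
  | var i =>
    induction i with
    | zero =>
      intro l w hw
      obtain ⟨a, l', e1, e2, -⟩ := h.dec l
      rw [e1, Tm.code, h.nat_pr] at hw
      rw [e2]
      exact c1 _ _ _ hw
    | succ i ih =>
      intro l w hw
      obtain ⟨a, l', e1, e2, -⟩ := h.dec l
      rw [e1, Tm.code, h.nat_pr] at hw
      rw [e2]
      refine ih l' w ?_
      rw [Tm.code, h.nat_pr]
      exact c2 _ _ _ _ hw
  | zero => intro l w hw; rw [Tm.code, h.nat_pr] at hw; exact c3 _ _ _ hw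
  | one => intro l w hw; rw [Tm.code, h.nat_pr] at hw; exact c4 _ _ _ hw
  | add s t ihs iht =>
    intro l w hw
    rw [Tm.code, h.nat_pr, h.nat_pr] at hw
    obtain ⟨x, y, h1, h2, rfl⟩ := c5 _ _ _ _ hw
    rw [ihs l x h1, iht l y h2]
    rfl
  | mul s t ihs iht =>
    intro l w hw
    rw [Tm.code, h.nat_pr, h.nat_pr] at hw
    obtain ⟨x, y, h1, h2, rfl⟩ := c6 _ _ _ _ hw
    rw [ihs l x h1, iht l y h2]
    rfl

theorem hint_sat (h : IsACA' M) {Z : Set M.Num} (hZ : Hint M Z) (φ : Fm) : φ.Arith → ∀ l,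
    (JY M (M.nat φ.code) (enc M l) ∈ Z → Sat M (asg M l) (fun _ => {w | JX M w ∈ Z}) φ) ∧
    (JN M (M.nat φ.code) (enc M l) ∈ Z → ¬ Sat M (asg M l) (fun _ => {w | JX M w ∈ Z}) φ) := by
  have hv := hint_val h hZ
  obtain ⟨-, -, -, -, -, -, c7, c8, c9, c10, c11, c12, c13, c14, c15, c16, c17, c18⟩ := hZ
  induction φ with
  | eq s t =>
    intro _ l
    simp only [Fm.code, h.nat_pr, Sat]
    constructor
    · intro hw
      obtain ⟨x, y, h1, h2, h3⟩ := c7 _ _ _ hw
      rwa [hv s l x h1, hv t l y h2] at h3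
    · intro hw
      obtain ⟨x, y, h1, h2, h3⟩ := c8 _ _ _ hw
      rwa [hv s l x h1, hv t l y h2] at h3
  | lt s t =>
    intro _ l
    simp only [Fm.code, h.nat_pr, Sat]
    constructor
    · intro hw
      obtain ⟨x, y, h1, h2, h3⟩ := c9 _ _ _ hw
      rwa [hv s l x h1, hv t l y h2] at h3
    · intro hw
      obtain ⟨x, y, h1, h2, h3⟩ := c10 _ _ _ hw
      rwa [hv s l x h1, hv t l y h2] at h3
  | mem t j =>
    intro _ l
    simp only [Fm.code, h.nat_pr, Sat]
    constructor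
    · intro hw
      obtain ⟨x, h1, h3⟩ := c11 _ _ _ hw
      rwa [hv t l x h1] at h3
    · intro hw
      obtain ⟨x, h1, h3⟩ := c12 _ _ _ hw
      rwa [hv t l x h1] at h3
  | neg φ ih =>
    intro ha l
    simp only [Fm.code, h.nat_pr, Sat, not_not]
    exact ⟨fun hw => (ih ha l).2 (c13 _ _ hw), fun hw => (ih ha l).1 (c14 _ _ hw)⟩
  | imp φ ψ ih ih' =>
    intro ha l
    simp only [Fm.code, h.nat_pr, Sat]
    constructor
    · intro hw h1
      rcases c15 _ _ _ hw with h2 | h2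
      · exact absurd h1 ((ih ha.1 l).2 h2)
      · exact (ih' ha.2 l).1 h2
    · intro hw h1
      obtain ⟨h2, h3⟩ := c16 _ _ _ hw
      exact (ih' ha.2 l).2 h3 (h1 ((ih ha.1 l).1 h2))
  | all φ ih =>
    intro ha l
    simp only [Fm.code, h.nat_pr, Sat]
    constructor
    · intro hw a
      exact (ih ha (a :: l)).1 (c17 _ _ hw a)
    · intro hw h1
      obtain ⟨a, h2⟩ := c18 _ _ hw
      exact (ih ha (a :: l)).2 h2 (h1 a)
  | allS φ _ => intro ha; exact ha.elim

end Pool.Agent.H974Z.SOA
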