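import Pool.Agent.H974Z.SOA.Tr

/-! A Pi-1-1 partial truth predicate, second half. -/

set_option autoImplicit false

namespace Pool.Agent.H974Z.SOA

/-- the true judgements of bounded complexity -/
def WW (M : Model) (K : ℕ) (X : Set M.Num) : Set M.Num :=
  {c | (∃ w, w ∈ X ∧ c = JX M w) ∨
    (∃ t : Tm, ∃ l : List M.Num, l.length + t.code ≤ K ∧
      c = JV M (M.nat t.code) (enc M l) (t.val M (asg M l))) ∨
    (∃ φ : Fm, ∃ l : List M.Num, l.length + φ.code ≤ K ∧ φ.Arith ∧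
      Sat M (asg M l) (fun _ => X) φ ∧ c = JY M (M.nat φ.code) (enc M l)) ∨
    (∃ φ : Fm, ∃ l : List M.Num, l.length + φ.code ≤ K ∧ φ.Arith ∧
      ¬ Sat M (asg M l) (fun _ => X) φ ∧ c = JN M (M.nat φ.code) (enc M l))}

theorem AD.bddEx {α : Type} {f : α → ℕ} (hf : Function.Injective f) (K : ℕ)
    {R : α → (M : Model) → M.Num → M.Num → (ℕ → M.Num) → Set M.Num → Prop}
    (h : ∀ a, AD fun M v A => R a M (v 0) (v 1) (fun i => v (i + 2)) A) :
    AD fun M v A => ∃ a, ∃ l : List M.Num, l.length + f a ≤ K ∧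
      R a M (v 0) (enc M l) (asg M l) A := by
  have hS : {p : α × ℕ | p.2 + f p.1 ≤ K}.Finite := by
    refine (((Set.finite_le_nat K).preimage hf.injOn).prod (Set.finite_le_nat K)).subset ?_
    rintro ⟨a, n⟩ hp
    simp only [Set.mem_ofPred_eq, Set.mem_prod, Set.mem_preimage] at hp ⊢
    omega
  refine (AD.finEx (fun p : α × ℕ => AD.exList p.2 (h p.1)) hS).congr fun M v A => ?_
  constructor
  · rintro ⟨⟨a, n⟩, h1, l, rfl, h2⟩
    exact ⟨a, l, h1, h2⟩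
  · rintro ⟨a, l, h1, h2⟩
    exact ⟨⟨a, l.length⟩, h1, l, rfl, h2⟩

theorem AD.arithSat (φ : Fm) (b : Bool) : AD fun M v A =>
    φ.Arith ∧ (if b then Sat M (fun i => v (i + 2)) (fun _ => A) φ
      else ¬ Sat M (fun i => v (i + 2)) (fun _ => A) φ) := by
  by_cases h : φ.Arith
  · have h1 := (AD.sat h).subst (F := fun i _ v => v (i + 2)) fun i => TM.var _
    cases b
    · exact h1.not.congr (by simp [h])
    · exact h1.congr (by simp [h])
  · exact AD.false.congr (by simp [h])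

theorem AD.ww (K : ℕ) : AD fun M v A => v 0 ∈ WW M K A := by
  unfold WW
  refine AD.or (AD.ex (AD.and (AD.mem (TM.var _)) (AD.eq (TM.var _) ((TM.nat 0).pr (TM.var _)))))
    (AD.or ?_ (AD.or ?_ ?_))
  · exact AD.bddEx (fun _ _ => Tm.code_inj) K
      (R := fun t M c s v _ => c = JV M (M.nat t.code) s (t.val M v)) fun t =>
      AD.eq (TM.var _) ((TM.nat 1).pr ((TM.nat _).pr ((TM.var _).pr
        (TM.term t fun i => TM.var _))))
  · refine AD.bddEx (fun _ _ => Fm.code_inj) K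
      (R := fun φ M c s v A => φ.Arith ∧ Sat M v (fun _ => A) φ ∧ c = JY M (M.nat φ.code) s)
      fun φ => ?_
    exact ((AD.arithSat φ Bool.true).and (AD.eq (TM.var 0) ((TM.nat 2).pr ((TM.nat φ.code).pr
      (TM.var 1))))).congr (by simp [and_assoc, JY])
  · refine AD.bddEx (fun _ _ => Fm.code_inj) K
      (R := fun φ M c s v A => φ.Arith ∧ ¬ Sat M v (fun _ => A) φ ∧ c = JN M (M.nat φ.code) s)
      fun φ => ?_
    exact ((AD.arithSat φ Bool.false).and (AD.eq (TM.var 0) ((TM.nat 3).pr ((TM.nat φ.code).pr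
      (TM.var 1))))).congr (by simp [and_assoc, JN])

variable {M : Model}

theorem AD.compr (h : IsACA' M) {R : (M : Model) → M.Num → Set M.Num → Prop}
    (hR : AD fun M v A => R M (v 0) A) {X : Set M.Num} (hX : X ∈ M.sets) :
    {a | R M a X} ∈ M.sets := by
  obtain ⟨φ, h1, h2⟩ := hR
  have := h.compr φ h1 (fun _ => M.zero) (fun _ => X) (fun _ => hX)
  simpa only [h2, cons_zero] using this

section
variable (h : IsACA' M) {K : ℕ} {X : Set M.Num}
include h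

theorem ww_X {w : M.Num} : JX M w ∈ WW M K X ↔ w ∈ X := by
  simp [WW, JX, JV, JY, JN, h.pr_eq, h.nat_eq]

theorem ww_V {c s w : M.Num} : JV M c s w ∈ WW M K X ↔ ∃ t : Tm, ∃ l : List M.Num,
    l.length + t.code ≤ K ∧ c = M.nat t.code ∧ s = enc M l ∧ w = t.val M (asg M l) := by
  simp [WW, JX, JV, JY, JN, h.pr_eq, h.nat_eq]

theorem ww_Y {c s : M.Num} : JY M c s ∈ WW M K X ↔ ∃ φ : Fm, ∃ l : List M.Num,
    l.length + φ.code ≤ K ∧ φ.Arith ∧ Sat M (asg M l) (fun _ => X) φ ∧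
      c = M.nat φ.code ∧ s = enc M l := by
  simp [WW, JX, JV, JY, JN, h.pr_eq, h.nat_eq]

theorem ww_N {c s : M.Num} : JN M c s ∈ WW M K X ↔ ∃ φ : Fm, ∃ l : List M.Num,
    l.length + φ.code ≤ K ∧ φ.Arith ∧ ¬ Sat M (asg M l) (fun _ => X) φ ∧
      c = M.nat φ.code ∧ s = enc M l := by
  simp [WW, JX, JV, JY, JN, h.pr_eq, h.nat_eq]

end

theorem le_pr1 (a b : ℕ) : a ≤ pr a b := by unfold pr; omega
theorem le_pr2 (a b : ℕ) : b ≤ pr a b := by unfold pr; nlinarith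
theorem lt_pr (a b : ℕ) : b < pr (a + 1) b := by unfold pr; nlinarith
theorem le_pr3 (k a b : ℕ) : a ≤ pr k (pr a b) := (le_pr1 a b).trans (le_pr2 _ _)
theorem le_pr4 (k a b : ℕ) : b ≤ pr k (pr a b) := (le_pr2 a b).trans (le_pr2 _ _)
theorem pr_succ (i : ℕ) : pr 0 i ≤ pr 0 (i + 1) := by unfold pr; nlinarith

theorem ww_hint (h : IsACA' M) (K : ℕ) (X : Set M.Num) : Hint M (WW M K X) := by
  have dec : ∀ (l : List M.Num) (a s : M.Num), M.pr a s = enc M l → ∃ l', s = enc M l' ∧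
      asg M l = cons a (asg M l') ∧ l'.length ≤ l.length := by
    intro l a s h1
    obtain ⟨a', l', e1, e2, e3⟩ := h.dec l
    rw [e1] at h1
    obtain ⟨rfl, rfl⟩ := h.pr_inj h1
    exact ⟨l', rfl, e2, e3⟩
  have two : ∀ (k : ℕ) (s t : Tm) (l : List M.Num), l.length + pr k (pr s.code t.code) ≤ K →
      JV M (M.nat s.code) (enc M l) (s.val M (asg M l)) ∈ WW M K X ∧
      JV M (M.nat t.code) (enc M l) (t.val M (asg M l)) ∈ WW M K X := by
    intro k s t l hl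
    have := le_pr3 k s.code t.code
    have := le_pr4 k s.code t.code
    exact ⟨(ww_V h).2 ⟨s, l, by omega, rfl, rfl, rfl⟩, (ww_V h).2 ⟨t, l, by omega, rfl, rfl, rfl⟩⟩
  refine ⟨?_, ?_, ?_, ?_, ?_, ?_, ?_, ?_, ?_, ?_, ?_, ?_, ?_, ?_, ?_, ?_, ?_, ?_⟩
  · intro a s w hw
    obtain ⟨t, l, h1, h2, h3, rfl⟩ := (ww_V h).1 hw
    cases t <;> simp only [Tm.code, h.nat_pr, h.pr_eq, h.nat_eq, Nat.reduceEqDiff, false_and,
      true_and] at h2
    obtain rfl := h.nat_inj (a := 0) h2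
    obtain ⟨l', -, e2, -⟩ := dec l a s h3
    rw [e2]
    rfl
  · intro i a s w hw
    obtain ⟨t, l, h1, h2, h3, rfl⟩ := (ww_V h).1 hw
    cases t <;> simp only [Tm.code, h.nat_pr, h.pr_eq, h.nat_eq, Nat.reduceEqDiff, false_and,
      true_and] at h2
    rename_i j
    cases j with
    | zero => exact absurd h2 (h.succ_ne _)
    | succ j =>
      obtain rfl := h.succ_inj _ _ h2
      obtain ⟨l', e1, e2, e3⟩ := dec l a s h3
      have := pr_succ j
      refine (ww_V h).2 ⟨.var j, l', ?_, (h.nat_pr _ _).symm, e1, by rw [e2]; rfl⟩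
      simp only [Tm.code] at h1 ⊢
      omega
  · intro i s w hw
    obtain ⟨t, l, h1, h2, h3, rfl⟩ := (ww_V h).1 hw
    cases t <;> simp only [Tm.code, h.nat_pr, h.pr_eq, h.nat_eq, Nat.reduceEqDiff, false_and,
      true_and] at h2
    rfl
  · intro i s w hw
    obtain ⟨t, l, h1, h2, h3, rfl⟩ := (ww_V h).1 hw
    cases t <;> simp only [Tm.code, h.nat_pr, h.pr_eq, h.nat_eq, Nat.reduceEqDiff, false_and,
      true_and] at h2
    rfl
  · intro p q s w hw
    obtain ⟨t, l, h1, h2, rfl, rfl⟩ := (ww_V h).1 hw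
    cases t <;> simp only [Tm.code, h.nat_pr, h.pr_eq, h.nat_eq, Nat.reduceEqDiff, false_and,
      true_and] at h2
    obtain ⟨rfl, rfl⟩ := h2
    exact ⟨_, _, (two _ _ _ _ h1).1, (two _ _ _ _ h1).2, rfl⟩
  · intro p q s w hw
    obtain ⟨t, l, h1, h2, rfl, rfl⟩ := (ww_V h).1 hw
    cases t <;> simp only [Tm.code, h.nat_pr, h.pr_eq, h.nat_eq, Nat.reduceEqDiff, false_and,
      true_and] at h2
    obtain ⟨rfl, rfl⟩ := h2
    exact ⟨_, _, (two _ _ _ _ h1).1, (two _ _ _ _ h1).2, rfl⟩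
  · intro p q s hw
    obtain ⟨φ, l, h1, h0, hs, h2, rfl⟩ := (ww_Y h).1 hw
    cases φ <;> simp only [Fm.code, h.nat_pr, h.pr_eq, h.nat_eq, Nat.reduceEqDiff, false_and,
      true_and] at h2
    obtain ⟨rfl, rfl⟩ := h2
    exact ⟨_, _, (two _ _ _ _ h1).1, (two _ _ _ _ h1).2, hs⟩
  · intro p q s hw
    obtain ⟨φ, l, h1, h0, hs, h2, rfl⟩ := (ww_N h).1 hw
    cases φ <;> simp only [Fm.code, h.nat_pr, h.pr_eq, h.nat_eq, Nat.reduceEqDiff, false_and,
      true_and] at h2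
    obtain ⟨rfl, rfl⟩ := h2
    exact ⟨_, _, (two _ _ _ _ h1).1, (two _ _ _ _ h1).2, hs⟩
  · intro p q s hw
    obtain ⟨φ, l, h1, h0, hs, h2, rfl⟩ := (ww_Y h).1 hw
    cases φ <;> simp only [Fm.code, h.nat_pr, h.pr_eq, h.nat_eq, Nat.reduceEqDiff, false_and,
      true_and] at h2
    obtain ⟨rfl, rfl⟩ := h2
    exact ⟨_, _, (two _ _ _ _ h1).1, (two _ _ _ _ h1).2, hs⟩
  · intro p q s hw
    obtain ⟨φ, l, h1, h0, hs, h2, rfl⟩ := (ww_N h).1 hw
    cases φ <;> simp only [Fm.code, h.nat_pr, h.pr_eq, h.nat_eq, Nat.reduceEqDiff, false_and,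
      true_and] at h2
    obtain ⟨rfl, rfl⟩ := h2
    exact ⟨_, _, (two _ _ _ _ h1).1, (two _ _ _ _ h1).2, hs⟩
  · intro p q s hw
    obtain ⟨φ, l, h1, h0, hs, h2, rfl⟩ := (ww_Y h).1 hw
    cases φ <;> simp only [Fm.code, h.nat_pr, h.pr_eq, h.nat_eq, Nat.reduceEqDiff, false_and,
      true_and] at h2
    obtain ⟨rfl, rfl⟩ := h2
    rename_i t j
    have := le_pr3 2 t.code j
    exact ⟨_, (ww_V h).2 ⟨t, l, by simp only [Fm.code] at h1; omega, rfl, rfl, rfl⟩,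
      (ww_X h).2 hs⟩
  · intro p q s hw
    obtain ⟨φ, l, h1, h0, hs, h2, rfl⟩ := (ww_N h).1 hw
    cases φ <;> simp only [Fm.code, h.nat_pr, h.pr_eq, h.nat_eq, Nat.reduceEqDiff, false_and,
      true_and] at h2
    obtain ⟨rfl, rfl⟩ := h2
    rename_i t j
    have := le_pr3 2 t.code j
    exact ⟨_, (ww_V h).2 ⟨t, l, by simp only [Fm.code] at h1; omega, rfl, rfl, rfl⟩,
      fun h3 => hs ((ww_X h).1 h3)⟩
  · intro p s hw
    obtain ⟨φ, l, h1, h0, hs, h2, rfl⟩ := (ww_Y h).1 hw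
    cases φ <;> simp only [Fm.code, h.nat_pr, h.pr_eq, h.nat_eq, Nat.reduceEqDiff, false_and,
      true_and] at h2
    subst h2
    rename_i φ
    have := le_pr2 3 φ.code
    exact (ww_N h).2 ⟨φ, l, by simp only [Fm.code] at h1; omega, h0, hs, rfl, rfl⟩
  · intro p s hw
    obtain ⟨φ, l, h1, h0, hs, h2, rfl⟩ := (ww_N h).1 hw
    cases φ <;> simp only [Fm.code, h.nat_pr, h.pr_eq, h.nat_eq, Nat.reduceEqDiff, false_and,
      true_and] at h2
    subst h2
    rename_i φ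
    have := le_pr2 3 φ.code
    exact (ww_Y h).2 ⟨φ, l, by simp only [Fm.code] at h1; omega, h0, not_not.1 hs, rfl, rfl⟩
  · intro p q s hw
    obtain ⟨φ, l, h1, h0, hs, h2, rfl⟩ := (ww_Y h).1 hw
    cases φ <;> simp only [Fm.code, h.nat_pr, h.pr_eq, h.nat_eq, Nat.reduceEqDiff, false_and,
      true_and] at h2
    obtain ⟨rfl, rfl⟩ := h2
    rename_i φ ψ
    have := le_pr3 4 φ.code ψ.code
    have := le_pr4 4 φ.code ψ.code
    simp only [Fm.code] at h1
    by_cases h3 : Sat M (asg M l) (fun _ => X) φ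
    · exact Or.inr ((ww_Y h).2 ⟨ψ, l, by omega, h0.2, hs h3, rfl, rfl⟩)
    · exact Or.inl ((ww_N h).2 ⟨φ, l, by omega, h0.1, h3, rfl, rfl⟩)
  · intro p q s hw
    obtain ⟨φ, l, h1, h0, hs, h2, rfl⟩ := (ww_N h).1 hw
    cases φ <;> simp only [Fm.code, h.nat_pr, h.pr_eq, h.nat_eq, Nat.reduceEqDiff, false_and,
      true_and] at h2
    obtain ⟨rfl, rfl⟩ := h2
    rename_i φ ψ
    have := le_pr3 4 φ.code ψ.code
    have := le_pr4 4 φ.code ψ.code
    simp only [Fm.code] at h1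
    simp only [Sat, Classical.not_imp] at hs
    exact ⟨(ww_Y h).2 ⟨φ, l, by omega, h0.1, hs.1, rfl, rfl⟩,
      (ww_N h).2 ⟨ψ, l, by omega, h0.2, hs.2, rfl, rfl⟩⟩
  · intro p s hw a
    obtain ⟨φ, l, h1, h0, hs, h2, rfl⟩ := (ww_Y h).1 hw
    cases φ <;> simp only [Fm.code, h.nat_pr, h.pr_eq, h.nat_eq, Nat.reduceEqDiff, false_and,
      true_and] at h2
    subst h2
    rename_i φ
    have : φ.code < pr 5 φ.code := lt_pr 4 φ.code
    simp only [Fm.code] at h1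
    exact (ww_Y h).2 ⟨φ, a :: l, by simp only [List.length_cons]; omega, h0, hs a, rfl, rfl⟩
  · intro p s hw
    obtain ⟨φ, l, h1, h0, hs, h2, rfl⟩ := (ww_N h).1 hw
    cases φ <;> simp only [Fm.code, h.nat_pr, h.pr_eq, h.nat_eq, Nat.reduceEqDiff, false_and,
      true_and] at h2
    subst h2
    rename_i φ
    have : φ.code < pr 5 φ.code := lt_pr 4 φ.code
    simp only [Fm.code] at h1
    simp only [Sat, not_forall] at hs
    obtain ⟨a, ha⟩ := hs
    exact ⟨a, (ww_N h).2 ⟨φ, a :: l, by simp only [List.length_cons]; omega, h0, ha, rfl, rfl⟩⟩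

theorem exists_truthPred : ∃ Tr, IsTruthPred Tr := by
  have h0 : AD fun M v Z => ¬ (Hint M Z ∧ ∃ y, v 0 = M.pr (M.nat 6) y ∧ JN M y M.zero ∈ Z) :=
    (AD.hint.and (AD.ex ((AD.eq (TM.var _) ((TM.nat 6).pr (TM.var 0))).and
      (AD.mem ((TM.nat 3).pr ((TM.var 0).pr TM.zero)))))).not
  obtain ⟨χ, h1, h2⟩ := h0
  obtain ⟨n, hn⟩ := χ.exists_bd
  have hb : (χ.subst (fun _ => .var 0) fun _ => 0).Bd 1 1 :=
    Fm.bd_subst (fun _ _ => Nat.one_pos) (fun _ _ => Nat.one_pos) hn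
  refine ⟨(χ.subst (fun _ => .var 0) fun _ => 0).allS, ⟨_, Fm.arith_subst h1, rfl⟩, hb, ?_⟩
  rintro _ ⟨θ, hθ, rfl⟩ hθb
  apply completeness aca_sentence
  intro M v V hV hM
  have h := isACA'_of hV hM
  have e : ∀ X : Set M.Num, Sat M (asg M []) (fun _ => X) θ ↔ Sat M v (cons X V) θ := by
    intro X
    refine sat_congr (n := 0) (m := 1) (fun _ hi => absurd hi (Nat.not_lt_zero _)) ?_ hθb
    intro j hj
    obtain rfl : j = 0 := by omega
    rfl
  rw [sat_iff, sat_inst, val_num]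
  simp only [Sat, sat_subst, h2, Tm.val, cons_zero, Fm.code, h.nat_pr]
  constructor
  · intro h3 X hX
    by_contra h4
    have hW : WW M θ.code X ∈ M.sets :=
      AD.compr h (R := fun M a A => a ∈ WW M θ.code A) (AD.ww θ.code) hX
    exact h3 _ hW ⟨ww_hint h _ _, _, rfl,
      (ww_N h).2 ⟨θ, [], by simp, hθ, fun h5 => h4 ((e X).1 h5), rfl, rfl⟩⟩
  · rintro h3 Z hZ ⟨h4, y, h5, h6⟩
    obtain ⟨-, rfl⟩ := h.pr_inj h5
    have hX : {w | JX M w ∈ Z} ∈ M.sets :=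
      AD.compr h (R := fun M a A => JX M a ∈ A) (AD.mem ((TM.nat 0).pr (TM.var 0))) hZ
    exact (hint_sat h h4 θ hθ []).2 h6 ((e _).2 (h3 _ hX))

end Pool.Agent.H974Z.SOA
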